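import Pool.Agent.Lib.MP_1c0d65_gt.D.Sys
import Pool.Agent.Lib.MP_1c0d65_gt.Hol.Loc

/-! The linear ansatz for sections over the two charts of the sphere. -/

set_option autoImplicit false

open scoped ContDiff Topology ComplexConjugate
open Filter Set Metric

namespace Pool.Agent.Lib.MP_1c0d65_gt.D

/-- The closed disc of radius two. -/
abbrev Dk : Set ℂ := closedBall 0 2

/-- Densities on the disc. -/
abbrev H : Type := Hol (1 / 2) Dk F

/-- The unknowns: two densities and the coefficients of a polynomial. -/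
abbrev Z (k : ℕ) : Type := (Bool → H) × (Fin k → F)

/-- A linear family of sections with prescribed antiholomorphic derivative. -/
structure Ans (k : ℕ) (pt : Fin k → ℂ) where
  ρ : ℂ → ℝ
  ρ0 : ∀ z, 0 ≤ ρ z
  ρ1 : ∀ z, ‖z‖ ≤ 2⁻¹ → ρ z = 1
  ρs : ∀ z, z ≠ 0 → ρ z + ρ z⁻¹ = 1
  xi : Z k →ₗ[ℝ] Bool → ℂ → F
  c1 : ∀ u c, ContDiff ℝ 1 (xi u c)
  tr : ∀ u c w, w ≠ 0 → xi u (!c) w = gm k w (xi u c w⁻¹)
  hol : ∀ u c, IsHol (1 / 2) fun z : Dk => fderiv ℝ (xi u c) z.1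
  cont : ∀ c z, Continuous fun u => xi u c z
  cont' : ∀ c z, Continuous fun u => fderiv ℝ (xi u c) z
  db : ∀ u c z, A.db (fderiv ℝ (xi u c) z) = cut0 ρ (u.1 c) z -
    ((conj z)⁻¹ ^ 2) • gm k z (cut0 ρ (u.1 (!c)) z⁻¹)
  poly : ∀ p, (∀ i, xi (0, p) false (pt i) = 0) → p = 0

end Pool.Agent.Lib.MP_1c0d65_gt.D
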