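import Pool.Agent.Lib.MP_1c0d65_gt.D.Sys
import Pool.Agent.Lib.MP_1c0d65_gt.Hol.Cpt

/-! The transition is linear; a symmetric cutoff on the sphere. -/

open scoped ContDiff Topology ComplexConjugate
open Filter Set Metric

namespace Pool.Agent.Lib.MP_1c0d65_gt.D.Rho

theorem gm_add (k : ℕ) (w : ℂ) (x y : F) : gm k w (x + y) = gm k w x + gm k w y := by
  simp [gm, mul_add]

theorem gm_sub (k : ℕ) (w : ℂ) (x y : F) : gm k w (x - y) = gm k w x - gm k w y := by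
  simp [gm, mul_sub]

theorem gm_smul (k : ℕ) (w a : ℂ) (x : F) : gm k w (a • x) = a • gm k w x := by
  ext <;> simp [gm] <;> ring

theorem gm_rsmul (k : ℕ) (w : ℂ) (a : ℝ) (x : F) : gm k w (a • x) = a • gm k w x := by
  rw [← Complex.coe_smul, gm_smul, Complex.coe_smul]

@[simp] theorem gm_zero (k : ℕ) (w : ℂ) : gm k w 0 = 0 := by simp [gm]

theorem gm_gm (k : ℕ) {w : ℂ} (hw : w ≠ 0) (x : F) : gm k w (gm k w⁻¹ x) = x := by
  ext <;> simp only [gm, inv_pow, inv_inv] <;> field_simp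

/-- The cutoff. -/
noncomputable def rho (z : ℂ) : ℝ :=
  Real.smoothTransition (1 / 2 - 5 / 6 * ((‖z‖ ^ 2 - 1) / (‖z‖ ^ 2 + 1)))

theorem rho_smooth : ContDiff ℝ ∞ rho := by
  have h : ContDiff ℝ ∞ fun z : ℂ => ‖z‖ ^ 2 := contDiff_norm_sq ℝ
  refine Real.smoothTransition.contDiff.comp (contDiff_const.sub (contDiff_const.mul
    ((h.sub contDiff_const).div (h.add contDiff_const) fun z => by positivity)))

theorem rho_nonneg (z : ℂ) : 0 ≤ rho z := Real.smoothTransition.nonneg _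

theorem rho_le (z : ℂ) : rho z ≤ 1 := Real.smoothTransition.le_one _

theorem rho_out {z : ℂ} (h : 2 ≤ ‖z‖) : rho z = 0 := by
  refine Real.smoothTransition.zero_of_nonpos ?_
  have : 3 / 5 ≤ (‖z‖ ^ 2 - 1) / (‖z‖ ^ 2 + 1) := by
    rw [le_div_iff₀ (by positivity)]; nlinarith
  linarith

theorem rho_in {z : ℂ} (h : ‖z‖ ≤ 2⁻¹) : rho z = 1 := by
  refine Real.smoothTransition.one_of_one_le ?_
  have : (‖z‖ ^ 2 - 1) / (‖z‖ ^ 2 + 1) ≤ -(3 / 5) := by
    rw [div_le_iff₀ (by positivity)]; nlinarith [norm_nonneg z]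
  linarith

theorem rho_add {z : ℂ} (h : z ≠ 0) : rho z + rho z⁻¹ = 1 := by
  have h0 : ‖z‖ ≠ 0 := norm_ne_zero_iff.2 h
  have e : 1 / 2 - 5 / 6 * ((‖z⁻¹‖ ^ 2 - 1) / (‖z⁻¹‖ ^ 2 + 1)) =
      1 - (1 / 2 - 5 / 6 * ((‖z‖ ^ 2 - 1) / (‖z‖ ^ 2 + 1))) := by
    rw [norm_inv]; field_simp; ring
  rw [rho, rho, e]
  generalize 1 / 2 - 5 / 6 * ((‖z‖ ^ 2 - 1) / (‖z‖ ^ 2 + 1)) = x
  have := (Real.smoothTransition.pos_denom x).ne'
  simp only [Real.smoothTransition, sub_sub_cancel]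
  rw [add_comm (expNegInvGlue (1 - x)), ← add_div, div_self this]

theorem rho_hol : IsHol (1 / 2) rho := by
  refine IsHol.of_hasCompactSupport (by norm_num) (by norm_num) (rho_smooth.of_le (by simp)) ?_
  refine HasCompactSupport.intro (isCompact_closedBall (0 : ℂ) 2) fun z hz => rho_out ?_
  exact (not_le.1 (mt mem_closedBall_zero_iff.2 hz)).le

end Pool.Agent.Lib.MP_1c0d65_gt.D.Rho
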