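import Pool.Agent.Lib.MP_1c0d65_gt.A.Sim

/-! The Cauchy transform of smooth densities, its transport by the inversion, a partition of unity
on the sphere and a Lagrange estimate. -/

open MeasureTheory Set Metric Real Filter Topology
open Complex (I)
open scoped Convolution ContDiff

namespace Pool.Agent.Lib.MP_1c0d65_gt.D.Lin

open Pool.Agent.Lib.MP_1c0d65_gt.A

variable {E : Type*} [NormedAddCommGroup E] [NormedSpace ℂ E]

theorem ker_li : LocallyIntegrable (fun t : ℂ => t⁻¹) volume := by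
  intro x
  refine ⟨ball 0 (‖x‖ + 1), isOpen_ball.mem_nhds (by simp), ?_⟩
  refine (intOn_ball one_lt_two (‖x‖ + 1)).mono' measurable_inv.aestronglyMeasurable
    (ae_of_all _ fun t => ?_)
  rw [norm_inv, Real.rpow_neg_one]

theorem T_conv (g : ℂ → E) (z : ℂ) : T g z = (π : ℂ)⁻¹ •
    ((fun t : ℂ => t⁻¹) ⋆[ContinuousLinearMap.lsmul ℝ ℂ, volume] g) z := by
  rw [convolution_eq_swap]
  rfl

theorem T_contDiff {n : ℕ∞} {g : ℂ → E} (hg : ContDiff ℝ n g) (hc : HasCompactSupport g) :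
    ContDiff ℝ n (T g) := by
  rw [funext (T_conv g)]
  exact (hc.contDiff_convolution_right _ ker_li hg).const_smul _

omit [NormedSpace ℂ E] in
theorem bs_of_cont {g : ℂ → E} (hg : Continuous g) (hc : HasCompactSupport g) :
    ∃ M R, 0 < R ∧ BS M 0 R g := by
  obtain ⟨M, hM⟩ := hg.bounded_above_of_compact_support hc
  obtain ⟨R, hR0, hR⟩ := hc.isCompact.isBounded.subset_ball_lt 0 (0 : ℂ)
  exact ⟨M, R, hR0, hg.aestronglyMeasurable, hM, fun s hs' => by
    by_contra hne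
    exact hs' (hR (subset_tsupport _ hne))⟩

theorem T_fderiv [CompleteSpace E] {g : ℂ → E} (hg : ContDiff ℝ 1 g) (hc : HasCompactSupport g)
    (z v : ℂ) : fderiv ℝ (T g) z v = T (fun s => fderiv ℝ g s v) z := by
  have h := (hc.hasFDerivAt_convolution_right (ContinuousLinearMap.lsmul ℝ ℂ) ker_li hg
    z).const_smul (π : ℂ)⁻¹
  have h' : HasFDerivAt (T g) _ z := h.congr_of_eventuallyEq (Eventually.of_forall (T_conv g))
  rw [h'.fderiv, T_conv, smul_apply,
    convolution_precompR_apply _ ker_li (hc.fderiv ℝ) (hg.continuous_fderiv one_ne_zero)]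

/-- The Cauchy transform is a right inverse on densities of class `C^1`. -/
theorem db_T [CompleteSpace E] {g : ℂ → E} (hg : ContDiff ℝ 1 g) (hc : HasCompactSupport g)
    (z : ℂ) : db (fderiv ℝ (T g) z) = g z := by
  have hi : ∀ v : ℂ, Integrable fun s => (z - s)⁻¹ • fderiv ℝ g s v := by
    intro v
    obtain ⟨M, R, -, h⟩ := bs_of_cont (g := fun s => fderiv ℝ g s v)
      ((hg.continuous_fderiv one_ne_zero).clm_apply continuous_const)
      ((hc.fderiv ℝ).comp_left (g := fun L : ℂ →L[ℝ] E => L v) rfl)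
    exact h.T_int z
  rw [← cp hg hc z]
  unfold db
  rw [T_fderiv hg hc, T_fderiv hg hc, T_smul, T_add (hi 1), T_smul]
  have := (hi I).smul I
  refine this.congr (ae_of_all _ fun s => ?_)
  simp only [Pi.smul_apply]
  rw [smul_comm]

theorem T_far {M R : ℝ} {g : ℂ → E} (h : BS M 0 R g) (hR : 0 ≤ R) {x : ℂ} (hx : R < ‖x‖) :
    ‖T g x‖ ≤ R ^ 2 * M * (‖x‖ - R)⁻¹ := by
  have h1 := dom_le (F := fun s => (x - s)⁻¹ • g s) (φ := fun _ => M * (‖x‖ - R)⁻¹)
    measurableSet_ball (fun s hs => by simp [h.supp s hs])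
    (integrableOn_const (measure_ball_lt_top (x := (0 : ℂ)) (r := R)).ne)
    (ae_of_all _ fun s hs => by
      rw [norm_smul, norm_inv, mul_comm]
      refine mul_le_mul (h.bd s) (inv_anti₀ (by linarith) ?_) (by positivity) h.nonneg
      have := mem_ball_zero_iff.1 hs
      have := norm_sub_norm_le x s
      linarith)
  rw [setIntegral_const, vol_ball _ hR, smul_eq_mul] at h1
  rw [T, norm_smul, norm_pi_inv]
  have := mul_le_mul_of_nonneg_left h1 (inv_nonneg.2 pi_pos.le)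
  refine this.trans (le_of_eq ?_)
  field_simp

open Classical in
/-- The Cauchy transform in the coordinate `1 / z`. -/
noncomputable def mv (g : ℂ → E) (z : ℂ) : E := if z = 0 then 0 else T g z⁻¹

theorem mv_ne (g : ℂ → E) {z : ℂ} (hz : z ≠ 0) : mv g z = T g z⁻¹ := if_neg hz

@[simp] theorem mv_zero (g : ℂ → E) : mv g 0 = 0 := if_pos rfl

theorem mv_le {M R : ℝ} {g : ℂ → E} (h : BS M 0 R g) (hR : 0 < R) (z : ℂ) :
    ‖mv g z‖ ≤ 3 * R * M := by
  by_cases hz : z = 0
  · have := h.nonneg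
    rw [hz, mv_zero, norm_zero]
    positivity
  · rw [mv_ne g hz]
    exact h.T_le hR _

theorem mv_ev (g : ℂ → E) {z : ℂ} (hz : z ≠ 0) : mv g =ᶠ[𝓝 z] fun x => T g x⁻¹ := by
  filter_upwards [isOpen_ne.mem_nhds hz] with x hx using mv_ne g hx

theorem mv_cont {M R : ℝ} {g : ℂ → E} (h : BS M 0 R g) (hR : 0 < R) : ContinuousAt (mv g) 0 := by
  rw [ContinuousAt, mv_zero, tendsto_zero_iff_norm_tendsto_zero]
  have h1 : Tendsto (fun z : ℂ => R ^ 2 * M * (2 * ‖z‖)) (𝓝 0) (𝓝 0) := by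
    have : Continuous fun z : ℂ => R ^ 2 * M * (2 * ‖z‖) := by fun_prop
    simpa using this.tendsto 0
  refine squeeze_zero' (Eventually.of_forall fun _ => norm_nonneg _) ?_ h1
  filter_upwards [ball_mem_nhds (0 : ℂ) (by positivity : 0 < (2 * R)⁻¹)] with z hz
  have hM := h.nonneg
  by_cases h0 : z = 0
  · simp [h0]
  · have h2 : 0 < ‖z‖ := norm_pos_iff.2 h0
    have h3 : 2 * R < ‖z‖⁻¹ := by
      rw [lt_inv_comm₀ (by positivity) h2]
      exact mem_ball_zero_iff.1 hz
    rw [mv_ne g h0]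
    refine (T_far h hR.le (by rw [norm_inv]; linarith)).trans ?_
    refine mul_le_mul_of_nonneg_left ?_ (by positivity)
    rw [norm_inv, inv_le_comm₀ (by linarith) (by positivity), mul_inv]
    linarith

theorem mv_holo [CompleteSpace E] {M R : ℝ} {g : ℂ → E} (h : BS M 0 R g) (hR : 0 < R) :
    DifferentiableOn ℂ (mv g) (ball 0 R⁻¹) := by
  rw [← Complex.differentiableOn_compl_singleton_and_continuousAt_iff
    (ball_mem_nhds (0 : ℂ) (inv_pos.2 hR))]
  refine ⟨fun z hz => ?_, mv_cont h hR⟩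
  have h0 : z ≠ 0 := hz.2
  have h1 : R < ‖z⁻¹‖ := by
    rw [norm_inv, lt_inv_comm₀ hR (norm_pos_iff.2 h0)]
    exact mem_ball_zero_iff.1 hz.1
  have h2 := T_holo h.integrable (z := z⁻¹) (by
    filter_upwards [(isOpen_lt continuous_const continuous_norm).mem_nhds h1] with s hs
    exact h.supp s (by simpa using le_of_lt hs))
  exact ((h2.differentiableAt.comp z (differentiableAt_inv h0)).congr_of_eventuallyEq
    (mv_ev g h0)).differentiableWithinAt

theorem db_of_holo {V : ℂ → E} {z : ℂ} (h : DifferentiableAt ℂ V z) : db (fderiv ℝ V z) = 0 := by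
  rw [h.fderiv_restrictScalars ℝ, db_restrict]

/-- The chain rule for a holomorphic change of the variable. -/
theorem db_comp {V : ℂ → E} {f : ℂ → ℂ} {z c : ℂ} (hf : HasDerivAt f c z)
    (hV : DifferentiableAt ℝ V (f z)) :
    db (fderiv ℝ (fun x => V (f x)) z) = (starRingEnd ℂ c) • db (fderiv ℝ V (f z)) := by
  have h := hV.hasFDerivAt.comp z (hf.hasFDerivAt.restrictScalars ℝ)
  rw [show (fun x => V (f x)) = V ∘ f from rfl, h.fderiv]
  set L := fderiv ℝ V (f z)
  have h1 : ∀ ξ : ℂ, (L.comp ((ContinuousLinearMap.toSpanSingleton ℂ c).restrictScalars ℝ)) ξ =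
      (ξ * c) • dz L + (starRingEnd ℂ (ξ * c)) • db L := fun ξ => by
    rw [← lin_eq]
    simp
  conv_lhs => unfold db
  rw [h1, h1]
  simp only [one_mul, map_mul, Complex.conj_I]
  have hI : I * I = -1 := Complex.I_mul_I
  match_scalars
  · linear_combination (2 : ℂ)⁻¹ * c * hI
  · linear_combination -(2 : ℂ)⁻¹ * (starRingEnd ℂ c) * hI

theorem db_inv {V : ℂ → E} {z : ℂ} (hz : z ≠ 0) (hV : DifferentiableAt ℝ V z⁻¹) :
    db (fderiv ℝ (fun x => V x⁻¹) z) = (starRingEnd ℂ (-(z ^ 2)⁻¹)) • db (fderiv ℝ V z⁻¹) :=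
  db_comp (hasDerivAt_inv hz) hV

theorem contDiffAt_of_holo [CompleteSpace E] {V : ℂ → E} {U : Set ℂ} (hU : IsOpen U)
    (h : DifferentiableOn ℂ V U) {z : ℂ} (hz : z ∈ U) (n : ℕ∞) : ContDiffAt ℝ n V z :=
  ((h.analyticAt (hU.mem_nhds hz)).contDiffAt (n := n)).restrict_scalars ℝ

theorem mv_contDiff [CompleteSpace E] {M R : ℝ} {g : ℂ → E} (h : BS M 0 R g) (hR : 0 < R)
    {n : ℕ∞} (hT : ContDiff ℝ n (T g)) : ContDiff ℝ n (mv g) := by
  refine contDiff_iff_contDiffAt.2 fun z => ?_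
  by_cases hz : z = 0
  · exact contDiffAt_of_holo isOpen_ball (mv_holo h hR) (by simp [hz, hR]) n
  · exact (hT.contDiffAt.comp z ((contDiffAt_inv ℝ hz))).congr_of_eventuallyEq (mv_ev g hz)

/-- A smooth partition of unity on the sphere. -/
theorem exists_part : ∃ ρ0 ρ1 : ℂ → ℝ, ContDiff ℝ ∞ ρ0 ∧ ContDiff ℝ ∞ ρ1 ∧
    (∀ z, 0 ≤ ρ0 z ∧ ρ0 z ≤ 1) ∧ (∀ z, 0 ≤ ρ1 z ∧ ρ1 z ≤ 1) ∧
    (∀ z, 3 / 2 ≤ ‖z‖ → ρ0 z = 0) ∧ (∀ z, 1 ≤ ‖z‖ → ρ1 z = 0) ∧
    (∀ z, ‖z‖ ≤ 1 → ρ0 z = 1) ∧ (∀ z, ‖z‖ ≤ 2 / 3 → ρ1 z = 1) ∧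
    ∀ z, z ≠ 0 → ρ0 z + ρ1 z⁻¹ = 1 := by
  classical
  let χ : ContDiffBump (0 : ℂ) := ⟨1, 3 / 2, one_pos, by norm_num⟩
  have h0 : ∀ z, 3 / 2 ≤ ‖z‖ → χ z = 0 := fun z hz => χ.zero_of_le_dist (by simpa using hz)
  have h1 : ∀ z, ‖z‖ ≤ 1 → χ z = 1 := fun z hz => χ.one_of_mem_closedBall (by simpa using hz)
  have h2 : ∀ z : ℂ, ‖z‖ ≤ 2 / 3 → (if z = 0 then (1 : ℝ) else 1 - χ z⁻¹) = 1 := by
    intro z hz
    split_ifs with h
    · rfl
    · rw [h0, sub_zero]
      rw [norm_inv, le_inv_comm₀ (by norm_num) (norm_pos_iff.2 h)]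
      linarith
  refine ⟨χ, fun z => if z = 0 then 1 else 1 - χ z⁻¹, χ.contDiff, ?_,
    fun z => ⟨χ.nonneg, χ.le_one⟩, fun z => ?_, h0, fun z hz => ?_, h1, h2, fun z hz => ?_⟩
  · refine contDiff_iff_contDiffAt.2 fun z => ?_
    by_cases hz : z = 0
    · subst hz
      refine (contDiffAt_const (c := (1 : ℝ))).congr_of_eventuallyEq ?_
      filter_upwards [ball_mem_nhds (0 : ℂ) (by norm_num : (0 : ℝ) < 2 / 3)] with x hx
      exact h2 x (mem_ball_zero_iff.1 hx).le
    · refine ((contDiffAt_const (c := (1 : ℝ))).sub (χ.contDiff.contDiffAt.comp z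
        (contDiffAt_inv ℝ hz))).congr_of_eventuallyEq ?_
      filter_upwards [isOpen_ne.mem_nhds hz] with x hx
      exact if_neg hx
  · beta_reduce
    split_ifs
    · norm_num
    · exact ⟨sub_nonneg.2 χ.le_one, sub_le_self _ χ.nonneg⟩
  · have h : z ≠ 0 := by
      rintro rfl
      norm_num at hz
    simp only [if_neg h]
    rw [h1, sub_self]
    rw [norm_inv]
    exact inv_le_one_of_one_le₀ hz
  · simp [hz]

open Asymptotics Bornology in
/-- An entire function of growth `k` is controlled by its values at `k + 1` points. -/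
theorem lag (k : ℕ) : ∀ z : Fin (k + 1) → ℂ, Function.Injective z → ∀ x : ℂ, ∃ C : ℝ, 0 ≤ C ∧
    ∀ f : ℂ → ℂ, Differentiable ℂ f → (f =O[cobounded ℂ] fun y => y ^ k) → ∀ δ : ℝ,
      (∀ j, ‖f (z j)‖ ≤ δ) → ‖f x‖ ≤ C * δ := by
  induction k with
  | zero =>
    intro z _ x
    refine ⟨1, zero_le_one, fun f hf hO δ hδ => ?_⟩
    obtain ⟨K, hK⟩ := hO.bound
    have h6 : IsBounded {y | ‖f y‖ ≤ K * ‖y ^ 0‖}ᶜ := by
      rw [isBounded_def, compl_compl]
      exact hK
    have h7 := (h6.isCompact_closure.image hf.continuous).isBounded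
    have hb : IsBounded (range f) := by
      refine (h7.union (isBounded_closedBall (x := 0) (r := K))).subset ?_
      rintro _ ⟨y, rfl⟩
      by_cases h : ‖f y‖ ≤ K * ‖y ^ 0‖
      · exact Or.inr (by simpa using h)
      · exact Or.inl ⟨y, subset_closure h, rfl⟩
    rw [hf.apply_eq_apply_of_bounded hb x (z 0), one_mul]
    exact hδ 0
  | succ k ih =>
    intro z hz x
    obtain ⟨C, hC, h⟩ := ih (fun j => z j.succ) (hz.comp (Fin.succ_injective _)) x
    set B : ℝ := ∑ j : Fin (k + 1), ‖(z j.succ - z 0)⁻¹‖ with hB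
    have hB0 : 0 ≤ B := Finset.sum_nonneg fun _ _ => norm_nonneg _
    refine ⟨1 + ‖x - z 0‖ * (C * (B * 2)), by positivity, fun f hf hO δ hδ => ?_⟩
    have hd : Differentiable ℂ (dslope f (z 0)) := by
      rw [← differentiableOn_univ, Complex.differentiableOn_dslope univ_mem]
      exact hf.differentiableOn
    have hO' : dslope f (z 0) =O[cobounded ℂ] fun y => y ^ k := by
      have hn : Tendsto (fun y : ℂ => ‖y‖) (cobounded ℂ) atTop := tendsto_norm_cobounded_atTop (E := ℂ)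
      have e1 : (fun y : ℂ => (y - z 0)⁻¹) =O[cobounded ℂ] fun y => y⁻¹ := by
        refine IsBigO.of_bound 2 ?_
        filter_upwards [hn.eventually_gt_atTop (2 * ‖z 0‖)] with y hy
        have h1 := norm_sub_norm_le y (z 0)
        have h2 := norm_nonneg (z 0)
        rw [norm_inv, norm_inv, inv_le_comm₀ (by linarith) (by
          have : 0 < ‖y‖ := by linarith
          positivity), mul_inv, inv_inv]
        linarith
      have e2 : (fun _ : ℂ => f (z 0)) =O[cobounded ℂ] fun y => y ^ (k + 1) := by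
        refine IsBigO.of_bound ‖f (z 0)‖ ?_
        filter_upwards [hn.eventually_ge_atTop 1] with y hy
        rw [norm_pow]
        exact le_mul_of_one_le_right (norm_nonneg _) (one_le_pow₀ hy)
      refine (e1.mul (hO.sub e2)).congr' ?_ ?_
      · filter_upwards [hn.eventually_gt_atTop ‖z 0‖] with y hy
        have : y ≠ z 0 := by
          rintro rfl
          exact lt_irrefl _ hy
        rw [dslope_of_ne f this, slope_def_module, smul_eq_mul]
      · filter_upwards [hn.eventually_gt_atTop 0] with y hy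
        have : y ≠ 0 := norm_pos_iff.1 hy
        rw [pow_succ', inv_mul_cancel_left₀ this]
    have hδ0 : 0 ≤ δ := (norm_nonneg _).trans (hδ 0)
    have h1 := h _ hd hO' (B * (2 * δ)) fun j => by
      have : z j.succ ≠ z 0 := fun e => Fin.succ_ne_zero j (hz e)
      rw [dslope_of_ne f this, slope_def_module, norm_smul]
      refine mul_le_mul ?_ ?_ (norm_nonneg _) hB0
      · exact Finset.single_le_sum (f := fun j : Fin (k + 1) => ‖(z j.succ - z 0)⁻¹‖)
          (fun _ _ => norm_nonneg _) (Finset.mem_univ j)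
      · have := norm_sub_le (f (z j.succ)) (f (z 0))
        linarith [hδ j.succ, hδ 0]
    have h2 : f x = f (z 0) + (x - z 0) • dslope f (z 0) x := by
      rw [sub_smul_dslope]
      ring
    rw [h2]
    refine (norm_add_le _ _).trans ?_
    rw [norm_smul]
    have h3 := mul_le_mul_of_nonneg_left h1 (norm_nonneg (x - z 0))
    have h4 := hδ 0
    nlinarith

end Pool.Agent.Lib.MP_1c0d65_gt.D.Lin
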