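import Pool.Agent.Lib.MP_1c0d65_gt.D.Ans
import Pool.Agent.Lib.MP_1c0d65_gt.D.Def
import Pool.Agent.Lib.MP_1c0d65_gt.D.Lin1
import Pool.Agent.Lib.MP_1c0d65_gt.A.SchB
import Pool.Agent.Lib.MP_1c0d65_gt.Hol.LH

/-! Construction of the linear ansatz. -/

set_option autoImplicit false

open scoped ContDiff Topology ComplexConjugate
open Filter Set Metric

noncomputable section

namespace Pool.Agent.Lib.MP_1c0d65_gt.D

namespace Sec

open A Rho Lin

theorem rho_off (x : ℂ) (hx : x ∉ Dk) : rho x = 0 :=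
  rho_out (le_of_lt (by simpa using hx))

/-- the cut-off density on the plane -/
def hh : H →L[ℝ] Hol (1 / 2) ℂ F := Hol.cutL rho_hol rho_off

theorem bs (θ : H) : BS ‖hh θ‖ 0 2 (hh θ) :=
  ⟨((hh θ).continuous (by norm_num)).aestronglyMeasurable, (hh θ).norm_apply_le,
    fun s hs => cut0_of_zero _ (rho_out (by simpa using hs))⟩

/-- the Cauchy transform at a point -/
def Tl (z : ℂ) : H →L[ℝ] F :=
  LinearMap.mkContinuous
    ⟨⟨fun θ => T (hh θ) z, fun θ θ' => by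
        rw [← T_add ((bs θ).T_int z) ((bs θ').T_int z), map_add]
        rfl⟩, fun c θ => by
      show T (hh (c • θ)) z = c • T (hh θ) z
      rw [← Complex.coe_smul c (T (hh θ) z), ← T_smul, map_smul]
      rfl⟩ (3 * 2 * ‖hh‖) fun θ => ((bs θ).T_le two_pos z).trans (by
        rw [mul_assoc (3 * 2)]
        exact mul_le_mul_of_nonneg_left (hh.le_opNorm θ) (by norm_num))

theorem Tl_apply (z : ℂ) (θ : H) : Tl z θ = T (hh θ) z := rfl

theorem T_c1h (θ : H) (z : ℂ) : C1H (1 / 2) (T (hh θ)) z := by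
  have h1 := (bs θ).T_contDiff (hh θ).norm_sub_le_sqrt
  refine ⟨h1.contDiffAt, LH.of_bound (H := 101 * ‖hh θ‖)
    (h1.continuous_fderiv one_ne_zero).continuousAt (Eventually.of_forall fun p => ?_)⟩
  rw [dist_eq_norm, ← Real.sqrt_eq_rpow]
  exact (bs θ).fderiv_T_hol (hh θ).norm_sub_le_sqrt p.1 p.2

theorem db_Th (θ : H) (z : ℂ) : db (fderiv ℝ (T (hh θ)) z) = hh θ z := by
  rw [(bs θ).fderiv_T fun s => (hh θ).norm_sub_le_sqrt s z, db_lin]

theorem half_nhds : ball (0 : ℂ) 2⁻¹ ∈ 𝓝 (0 : ℂ) := ball_mem_nhds _ (by norm_num)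

theorem exists_Tf : ∃ Tf : ℂ → H →L[ℝ] F, ∀ w θ, Tf w θ = dslope (mv (hh θ)) 0 w := by
  let Ml : ℂ → H →L[ℝ] F := fun w => if w = 0 then 0 else Tl w⁻¹
  have hM : ∀ θ, (fun w => Ml w θ) = mv (hh θ) := fun θ => funext fun w => by
    by_cases hw : w = 0
    · simp [Ml, hw]
    · simp only [Ml, if_neg hw, mv_ne _ hw, Tl_apply]
  have hd : ∀ θ, DifferentiableAt ℂ (mv (hh θ)) 0 := fun θ =>
    (mv_holo (bs θ) two_pos).differentiableAt half_nhds
  obtain ⟨B, hB⟩ := exists_fderiv_clm Ml 0 fun θ => by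
    rw [hM]
    exact (hd θ).restrictScalars ℝ
  refine ⟨fun w => if w = 0 then (ContinuousLinearMap.apply ℝ F (1 : ℂ)).comp B else w⁻¹ • Tl w⁻¹,
    fun w θ => ?_⟩
  by_cases hw : w = 0
  · subst hw
    simp only [if_true, ContinuousLinearMap.comp_apply, ContinuousLinearMap.apply_apply, hB, hM,
      dslope_same, (hd θ).fderiv_restrictScalars ℝ]
    rfl
  · simp only [if_neg hw, dslope_of_ne _ hw, slope_def_module, sub_zero, mv_zero, mv_ne _ hw]
    rfl

/-- diagonal maps -/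
def dg (a b : ℂ) : F →L[ℝ] F :=
  (a • ContinuousLinearMap.fst ℝ ℂ ℂ).prod (b • ContinuousLinearMap.snd ℝ ℂ ℂ)

theorem dg_apply (a b : ℂ) (x : F) : dg a b x = (a * x.1, b * x.2) := rfl

/-- the transported Cauchy transform -/
def far (k : ℕ) (θ : H) (w : ℂ) : F := dg (w ^ 3) (w ^ k) (dslope (mv (hh θ)) 0 w)

theorem far_ne (k : ℕ) (θ : H) {w : ℂ} (hw : w ≠ 0) : far k θ w = gm k w (T (hh θ) w⁻¹) := by
  simp only [far, dg_apply, dslope_of_ne _ hw, slope_def_module, sub_zero, mv_zero, mv_ne _ hw, gm,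
    Prod.smul_fst, Prod.smul_snd, smul_eq_mul]
  ext
  · field_simp
  · ring

theorem far_ev (k : ℕ) (θ : H) {w : ℂ} (hw : w ≠ 0) :
    far k θ =ᶠ[𝓝 w] fun v => gm k v (T (hh θ) v⁻¹) := by
  filter_upwards [isOpen_ne.mem_nhds hw] with v hv using far_ne k θ hv

theorem far_holo (k : ℕ) (θ : H) : DifferentiableOn ℂ (far k θ) (ball 0 2⁻¹) := by
  have h := (Complex.differentiableOn_dslope half_nhds).2 (mv_holo (bs θ) two_pos)
  exact ((differentiableOn_id.pow 3).mul h.fst).prodMk ((differentiableOn_id.pow k).mul h.snd)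

theorem far_c1h (k : ℕ) (θ : H) (w : ℂ) : C1H (1 / 2) (far k θ) w := by
  have h0 : (0 : ℝ) ≤ 1 / 2 := by norm_num
  have h1 : (1 / 2 : ℝ) ≤ 1 := by norm_num
  by_cases hw : w = 0
  · subst hw
    exact C1H.of_contDiffAt h0 h1
      (contDiffAt_of_holo isOpen_ball (far_holo k θ) (mem_of_mem_nhds half_nhds) 2)
  have hi : ContDiffAt ℝ 2 (fun v : ℂ => v⁻¹) w :=
    (contDiffAt_inv ℂ hw (n := 2)).restrict_scalars ℝ
  have h2 : C1H (1 / 2) (fun v : ℂ => (v, T (hh θ) v⁻¹)) w :=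
    (C1H.of_contDiffAt h0 h1 contDiffAt_id).prod h0 h1
      (C1H.comp h0 (φ := fun v : ℂ => v⁻¹) (T_c1h θ w⁻¹) (C1H.of_contDiffAt h0 h1 hi))
  have h3 : ContDiffAt ℝ 2 (fun p : ℂ × F => gm k p.1 p.2) (w, T (hh θ) w⁻¹) := by
    have hi' : ContDiffAt ℝ 2 (fun p : ℂ × F => p.1⁻¹) (w, T (hh θ) w⁻¹) :=
      ContDiffAt.comp (g := fun v : ℂ => v⁻¹) _ hi contDiffAt_fst
    exact ((contDiffAt_fst.pow 2).mul contDiffAt_snd.fst).prodMk
      (((contDiffAt_fst.pow k).mul hi').mul contDiffAt_snd.snd)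
  exact (C1H.comp h0 (f := fun p : ℂ × F => gm k p.1 p.2) (φ := fun v : ℂ => (v, T (hh θ) v⁻¹))
    (C1H.of_contDiffAt h0 h1 h3) h2).congr (far_ev k θ hw)

theorem db_clm (P : F →L[ℂ] F) {V : ℂ → F} {z : ℂ} (hV : DifferentiableAt ℝ V z) :
    db (fderiv ℝ (fun x => P (V x)) z) = P (db (fderiv ℝ V z)) := by
  have := ((P.restrictScalars ℝ).hasFDerivAt.comp z hV.hasFDerivAt).fderiv
  rw [show (fun x => P (V x)) = P.restrictScalars ℝ ∘ V from rfl, this]
  simp [db]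

theorem db_gm (k : ℕ) {V : ℂ → F} {z : ℂ} (hz : z ≠ 0) (hV : DifferentiableAt ℝ V z) :
    db (fderiv ℝ (fun x => gm k x (V x)) z) = gm k z (db (fderiv ℝ V z)) := by
  let P : F →L[ℂ] F := (ContinuousLinearMap.inl ℂ ℂ ℂ).comp (.fst ℂ ℂ ℂ)
  let Q : F →L[ℂ] F := (ContinuousLinearMap.inr ℂ ℂ ℂ).comp (.snd ℂ ℂ ℂ)
  have e : ∀ x v, gm k x v = x ^ 2 • P v + (x ^ k * x⁻¹) • Q v := fun x v => by
    simp [gm, P, Q]
  have hP : DifferentiableAt ℝ (fun x => P (V x)) z :=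
    (P.restrictScalars ℝ).differentiableAt.comp z hV
  have hQ : DifferentiableAt ℝ (fun x => Q (V x)) z :=
    (Q.restrictScalars ℝ).differentiableAt.comp z hV
  have c1 : DifferentiableAt ℂ (fun x : ℂ => x ^ 2) z := differentiableAt_id.pow 2
  have c2 : DifferentiableAt ℂ (fun x : ℂ => x ^ k * x⁻¹) z :=
    (differentiableAt_id.pow k).mul (differentiableAt_inv hz)
  simp only [e]
  rw [fderiv_fun_add ((c1.restrictScalars ℝ).fun_smul hP) ((c2.restrictScalars ℝ).fun_smul hQ),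
    db_add, db_holo_smul c1 hP, db_holo_smul c2 hQ, db_clm P hV, db_clm Q hV]

theorem db_far (k : ℕ) (θ : H) (z : ℂ) :
    db (fderiv ℝ (far k θ) z) = -(((conj z)⁻¹ ^ 2) • gm k z (hh θ z⁻¹)) := by
  by_cases hz : z = 0
  · subst hz
    rw [db_of_holo ((far_holo k θ).differentiableAt half_nhds)]
    simp
  have hT : DifferentiableAt ℝ (T (hh θ)) z⁻¹ := (T_c1h θ _).1.differentiableAt one_ne_zero
  have hi : DifferentiableAt ℝ (fun v : ℂ => v⁻¹) z :=
    (differentiableAt_inv (𝕜 := ℂ) hz).restrictScalars ℝ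
  rw [(far_ev k θ hz).fderiv_eq, db_gm k (V := fun v => T (hh θ) v⁻¹) hz (hT.comp z hi),
    db_inv hz hT, db_Th, gm_smul]
  simp

variable {k : ℕ} (pt : Fin k → ℂ)

/-- the Lagrange polynomials -/
def lg (i : Fin k) (w : ℂ) : ℂ := ∏ j ∈ Finset.univ.erase i, (w - pt j) / (pt i - pt j)

/-- the Lagrange polynomials in the chart at infinity -/
def lg' (i : Fin k) (w : ℂ) : ℂ := ∏ j ∈ Finset.univ.erase i, (1 - pt j * w) / (pt i - pt j)

theorem lg'_eq (i : Fin k) {w : ℂ} (hw : w ≠ 0) : lg' pt i w = w ^ (k - 1) * lg pt i w⁻¹ := by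
  have : w ^ (k - 1) = ∏ _j ∈ Finset.univ.erase i, w := by simp
  rw [lg, lg', this, ← Finset.prod_mul_distrib]
  refine Finset.prod_congr rfl fun j _ => ?_
  rw [← mul_div_assoc, mul_sub, mul_inv_cancel₀ hw, mul_comm w]

theorem lg_pt (h : Function.Injective pt) (i j : Fin k) : lg pt i (pt j) = if j = i then 1 else 0 := by
  split_ifs with e
  · subst e
    exact Finset.prod_eq_one fun l hl =>
      div_self (sub_ne_zero.2 fun a => (Finset.mem_erase.1 hl).1 (h a).symm)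
  · exact Finset.prod_eq_zero (Finset.mem_erase.2 ⟨e, Finset.mem_univ j⟩) (by simp)

/-- the polynomial part -/
def Pl : Bool → ℂ → (Fin k → F) →L[ℝ] F
  | false, w => ∑ i, (dg (lg pt i w) (lg pt i w)).comp (.proj i)
  | true, w => ∑ i, (dg (w ^ (3 - k) * lg' pt i w) (lg' pt i w)).comp (.proj i)

theorem Pl_false (w : ℂ) (p : Fin k → F) :
    Pl pt false w p = ∑ i, (lg pt i w * (p i).1, lg pt i w * (p i).2) := by
  simp [Pl, dg_apply]

theorem Pl_true (w : ℂ) (p : Fin k → F) :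
    Pl pt true w p = ∑ i, (w ^ (3 - k) * lg' pt i w * (p i).1, lg' pt i w * (p i).2) := by
  simp [Pl, dg_apply]

theorem Pl_holo (c : Bool) (p : Fin k → F) : Differentiable ℂ fun w => Pl pt c w p := by
  have h1 : ∀ i, Differentiable ℂ (lg pt i) := fun i => by
    unfold lg
    fun_prop
  have h2 : ∀ i, Differentiable ℂ (lg' pt i) := fun i => by
    unfold lg'
    fun_prop
  cases c
  · simp only [Pl_false]
    fun_prop
  · simp only [Pl_true]
    fun_prop

theorem Pl_tr (hk : k ≤ 3) (p : Fin k → F) {w : ℂ} (hw : w ≠ 0) :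
    Pl pt true w p = gm k w (Pl pt false w⁻¹ p) := by
  rw [Pl_true, Pl_false]
  ext
  · simp only [gm, Prod.fst_sum, Finset.mul_sum]
    refine Finset.sum_congr rfl fun i _ => ?_
    have : 3 - k + (k - 1) = 2 := by have := i.2; omega
    rw [lg'_eq pt i hw, ← mul_assoc, ← pow_add, this, mul_assoc]
  · simp only [gm, Prod.snd_sum, Finset.mul_sum]
    refine Finset.sum_congr rfl fun i _ => ?_
    have : w ^ k = w ^ (k - 1) * w := by
      rw [← pow_succ]
      congr 1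
      have := i.2
      omega
    rw [lg'_eq pt i hw, this, mul_assoc _ w, mul_inv_cancel₀ hw, mul_one, mul_assoc]

end Sec

open Sec A Rho Lin in
theorem exists_ans {k : ℕ} (hk : k ≤ 3) (pt : Fin k → ℂ) (hpt : Function.Injective pt) :
    Nonempty (Ans k pt) := by
  obtain ⟨Tf, hTf⟩ := exists_Tf
  let pr : Bool → Z k →L[ℝ] H := fun c =>
    (ContinuousLinearMap.proj c).comp (ContinuousLinearMap.fst ℝ _ _)
  let Ξ : Bool → ℂ → Z k →L[ℝ] F := fun c w =>
    (Tl w).comp (pr c) + ((dg (w ^ 3) (w ^ k)).comp (Tf w)).comp (pr (!c)) +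
      (Pl pt c w).comp (ContinuousLinearMap.snd ℝ _ _)
  have hΞ : ∀ c w u, Ξ c w u = T (hh (u.1 c)) w + far k (u.1 (!c)) w + Pl pt c w u.2 := by
    intro c w u
    simp only [Ξ, far, ← hTf]
    rfl
  have hP : ∀ c p w, ContDiffAt ℝ 2 (fun w => Pl pt c w p) w := fun c p w =>
    contDiffAt_of_holo isOpen_univ (Pl_holo pt c p).differentiableOn (mem_univ w) 2
  have hC : ∀ c u w, C1H (1 / 2) (fun w => Ξ c w u) w := fun c u w => by
    simp only [hΞ]
    exact ((T_c1h _ w).add (far_c1h k _ w)).add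
      (C1H.of_contDiffAt (by norm_num) (by norm_num) (hP c _ w))
  have htr : ∀ u w, w ≠ 0 → Ξ true w u = gm k w (Ξ false w⁻¹ u) := fun u w hw => by
    rw [hΞ, hΞ, gm_add, gm_add, far_ne k _ hw, far_ne k _ (inv_ne_zero hw), gm_gm k hw, inv_inv,
      Pl_tr pt hk _ hw, add_comm (T _ w)]
    rfl
  refine ⟨⟨rho, rho_nonneg, fun _ => rho_in, fun _ => rho_add,
    LinearMap.pi fun c => LinearMap.pi fun w => (Ξ c w : Z k →ₗ[ℝ] F),
    fun u c => contDiff_iff_contDiffAt.2 fun w => (hC c u w).1, fun u c w hw => ?_,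
    fun u c => LH.isHol (by norm_num) (isCompact_closedBall _ _) fun w _ => (hC c u w).2,
    fun c z => (Ξ c z).continuous, fun c z => ?_, fun u c z => ?_, fun p hp => ?_⟩⟩
  · cases c
    · exact htr u w hw
    · show Ξ false w u = gm k w (Ξ true w⁻¹ u)
      rw [htr u w⁻¹ (inv_ne_zero hw), gm_gm k hw, inv_inv]
  · obtain ⟨B, hB⟩ := exists_fderiv_clm (Ξ c) z fun u =>
      (hC c u z).1.differentiableAt one_ne_zero
    exact B.continuous.congr hB
  · show db (fderiv ℝ (fun w => Ξ c w u) z) = _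
    have d1 := (T_c1h (u.1 c) z).1.differentiableAt one_ne_zero
    have d2 := (far_c1h k (u.1 (!c)) z).1.differentiableAt one_ne_zero
    have d3 := (hP c u.2 z).differentiableAt two_ne_zero
    simp only [hΞ]
    rw [fderiv_fun_add (d1.fun_add d2) d3, fderiv_fun_add d1 d2, db_add, db_add, db_Th, db_far,
      db_of_holo (Pl_holo pt c u.2 z), add_zero, ← sub_eq_add_neg]
    rfl
  · funext i
    have h1 : Ξ false (pt i) (0, p) = 0 := hp i
    have h2 : Ξ false (pt i) (0, p) = Pl pt false (pt i) p := by simp [Ξ, pr]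
    rw [h2, Pl_false, Finset.sum_eq_single i (fun j _ hj => by
      simp [lg_pt pt hpt, Ne.symm hj]) (by simp), lg_pt pt hpt, if_pos rfl, one_mul, one_mul] at h1
    exact h1

end Pool.Agent.Lib.MP_1c0d65_gt.D
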