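import Pool.Agent.Lib.MP_1c0d65_gt.D.Zero

/-! The vanishing theorem with the two charts indexed by `Bool`. -/

namespace Pool.Agent.Lib.MP_1c0d65_gt.D

theorem zero {k : ℕ} {η : Bool → ℂ → ℂ} (h1 : ∀ c, ContDiff ℝ 1 (η c))
    (hc : ∀ c w, w ≠ 0 → η (!c) w = w ^ k * w⁻¹ * η c w⁻¹) {K : ℝ}
    (hK : ∀ c w, ‖w‖ ≤ 2 → ‖A.db (fderiv ℝ (η c) w)‖ ≤ K * ‖η c w‖) (z : Fin k → ℂ)
    (hz : Function.Injective z) (h0 : ∀ i, η false (z i) = 0) : ∀ c w, η c w = 0 := by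
  obtain ⟨e0, e1⟩ := Lin.zero' (h1 false) (h1 true) (hc false)
    (fun w hw => hK false w (mem_ball_zero_iff.1 hw).le)
    (fun w hw => hK true w (mem_ball_zero_iff.1 hw).le) z hz h0
  intro c w
  cases c
  · exact congrFun e0 w
  · exact congrFun e1 w

end Pool.Agent.Lib.MP_1c0d65_gt.D
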