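import Pool.Agent.Lib.MP_1c0d65_gt.D.SolveB
import Pool.Agent.Lib.MP_1c0d65_gt.D.Sec
import Pool.Agent.Lib.MP_1c0d65_gt.D.ZeroB

/-! The implicit function theorem on the sphere. -/

set_option autoImplicit false

open scoped ContDiff Topology ComplexConjugate
open Filter Set Metric

namespace Pool.Agent.Lib.MP_1c0d65_gt.D

/-- The implicit function theorem on the sphere. -/
theorem Sys.solve {k : ℕ} (hk : k ≤ 3) {t0 : ℝ} {N : Bool → Jet → F} (h : Sys k t0 N)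
    (z : Fin k → ℂ) (hz : Function.Injective z) {ε : ℝ} (hε : 0 < ε) :
    ∀ᶠ q : ℝ × (Fin k → F) in 𝓝 (t0, 0), ∃ ξ : Bool → ℂ → F, (∀ c, ContDiff ℝ 1 (ξ c)) ∧
      (∀ c w, w ≠ 0 → ξ (!c) w = gm k w (ξ c w⁻¹)) ∧ (∀ i, ξ false (z i) = q.2 i) ∧
      ∀ c w, ‖w‖ ≤ 1 → N c (q.1, w, ξ c w, fderiv ℝ (ξ c) w) = 0 ∧ ‖ξ c w‖ < ε ∧
        ‖fderiv ℝ (ξ c) w‖ < ε :=
  (exists_ans hk z hz).elim fun S =>
    h.solve_of S (fun _ _ h1 hc hK h0 => D.zero h1 hc hK z hz h0) hε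

end Pool.Agent.Lib.MP_1c0d65_gt.D
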