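import Pool.Agent.Lib.MP_1c0d65_gt.D.GeoC
import Pool.Agent.Lib.MP_1c0d65_gt.D.Solve

/-! Automatic transversality for immersed spheres. -/

open scoped ContDiff Topology
open Filter Set Metric

namespace Pool.Agent.Lib.MP_1c0d65_gt.D

variable {E : Type} [NormedAddCommGroup E] [NormedSpace ℝ E] [FiniteDimensional ℝ E]

/-- An immersed sphere with normal degree `k - 1` persists, through `k` moving points. -/
theorem deform (A : Amb E) {t0 : ℝ} {s : Sph2 E} (hs : A.HolS t0 s)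
    (h0 : ContDiff ℝ ∞ s.u0) (h1 : ContDiff ℝ ∞ s.u1) {k : ℕ} (hk : k ≤ 3)
    (N : A.NFrame t0 s ((k : ℤ) - 1)) (z : Fin k → ℂ) (hz : Function.Injective z)
    {ε : ℝ} (hε : 0 < ε) :
    ∀ᶠ q : ℝ × (Fin k → E) in 𝓝 (t0, fun i => s.u0 (z i)), (∀ i, q.2 i ∈ A.K) →
      ∃ s' : Sph2 E, A.HolS q.1 s' ∧ (∀ i, s'.u0 (z i) = q.2 i) ∧
        (∀ w, ‖s'.u0 w - s.u0 w‖ < ε) ∧ (∀ w, ‖s'.u1 w - s.u1 w‖ < ε) ∧
        ∀ w, ‖w‖ ≤ 1 → ‖fderiv ℝ s'.u0 w - fderiv ℝ s.u0 w‖ < ε ∧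
          ‖fderiv ℝ s'.u1 w - fderiv ℝ s.u1 w‖ < ε := by
  obtain ⟨T, e0, e1⟩ := exists_two A hs h0 h1 N
  rw [← e0, ← e1]
  exact T.deform (fun _ hz _ hε => T.sys.solve hk _ hz hε) z hz hε

end Pool.Agent.Lib.MP_1c0d65_gt.D
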