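import Pool.Agent.Lib.MP_1c0d65_gt.D.Sys

/-! Frames along an immersed sphere. -/

open scoped ContDiff Topology ComplexConjugate
open Filter Set Metric
open Complex (I)

namespace Pool.Agent.Lib.MP_1c0d65_gt.D

variable {E : Type} [NormedAddCommGroup E] [NormedSpace ℝ E]

/-- Frames of the tangent bundle of `K` along a sphere, in the two charts. -/
structure Two (A : Amb E) (t0 : ℝ) (k : ℕ) where
  u : Bool → ℂ → E
  Θ : Bool → ℂ → F →L[ℝ] E
  P : Bool → ℂ → E →L[ℝ] F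
  smu : ∀ c, ContDiff ℝ ∞ (u c)
  smΘ : ∀ c, ContDiff ℝ ∞ (Θ c)
  smP : ∀ c, ContDiff ℝ ∞ (P c)
  uK : ∀ c z, u c z ∈ A.K
  utr : ∀ c w, w ≠ 0 → u (!c) w = u c w⁻¹
  Θtr : ∀ c w, w ≠ 0 → ∀ x, Θ (!c) w (gm k w x) = Θ c w⁻¹ x
  Ptr : ∀ c w, w ≠ 0 → ∀ v, P (!c) w v = gm k w (P c w⁻¹ v)
  ΘP : ∀ c z v, Θ c z (P c z v) = fderiv ℝ A.r (u c z) v
  PΘ : ∀ c z x, P c z (Θ c z x) = x
  ΘI : ∀ c z x, Θ c z (I • x) = A.J (t0, u c z) (Θ c z x)
  Θ1 : ∀ c, ∃ σ : ℂ, ∀ z a, Θ c z (a, 0) = fderiv ℝ (u c) z (σ * a)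
  cr : ∀ c z, CR (fun e => A.J (t0, e)) (u c) z

theorem finrank_F : Module.finrank ℝ F = 4 := by
  simp [F, Complex.finrank_real_complex]

theorem onto_of_dim {Θ : F →L[ℝ] E} {π : E →L[ℝ] E} (hi : Function.Injective Θ)
    (h : ∀ x, ∃ v, π v = Θ x) (hd : Module.finrank ℝ (LinearMap.range π.toLinearMap) = 4) (v : E) :
    ∃ x, Θ x = π v := by
  have hle : LinearMap.range Θ.toLinearMap ≤ LinearMap.range π.toLinearMap := by
    rintro _ ⟨x, rfl⟩
    exact h x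
  have : FiniteDimensional ℝ (LinearMap.range π.toLinearMap) :=
    Module.finite_of_finrank_pos (by omega)
  have he := Submodule.eq_of_le_of_finrank_eq hle
    (by rw [hd, LinearMap.finrank_range_of_inj hi, finrank_F])
  have : π v ∈ LinearMap.range Θ.toLinearMap := he ▸ ⟨v, rfl⟩
  exact this

theorem inv_of_near {M : F →L[ℝ] F} (h : ‖M - 1‖ < 1) : ∃ e : F ≃L[ℝ] F, (e : F →L[ℝ] F) = M := by
  have : IsUnit M := by
    have := (Units.oneSub (1 - M) (by rwa [norm_sub_rev])).isUnit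
    simpa using this
  obtain ⟨u, rfl⟩ := this
  exact ⟨ContinuousLinearEquiv.unitsEquiv ℝ F u, rfl⟩

theorem exists_leftInv [FiniteDimensional ℝ E] {Θ : ℂ → F →L[ℝ] E} {π : ℂ → E →L[ℝ] E}
    (hΘ : ContDiff ℝ ∞ Θ) (hπ : ContDiff ℝ ∞ π) (hi : ∀ z, Function.Injective (Θ z))
    (ho : ∀ z v, ∃ x, Θ z x = π z v) :
    ∃ P : ℂ → E →L[ℝ] F, ContDiff ℝ ∞ P ∧ ∀ z v, Θ z (P z v) = π z v := by
  have hl : ∀ z, ∃ Q : E →L[ℝ] F, ∀ x, Q (Θ z x) = x := fun z => by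
    obtain ⟨g, hg⟩ := (Θ z).toLinearMap.exists_leftInverse_of_injective
      (LinearMap.ker_eq_bot.2 (hi z))
    exact ⟨LinearMap.toContinuousLinearMap g, fun x => LinearMap.congr_fun hg x⟩
  choose Q hQ using hl
  have key : ∀ z v, Θ z ((Q z).comp (π z) v) = π z v := fun z v => by
    obtain ⟨x, hx⟩ := ho z v
    rw [ContinuousLinearMap.comp_apply, ← hx, hQ]
  refine ⟨fun z => (Q z).comp (π z), contDiff_iff_contDiffAt.2 fun z0 => ?_, key⟩
  have h1 : (Q z0).comp (Θ z0) = (ContinuousLinearEquiv.refl ℝ F : F →L[ℝ] F) := by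
    exact ContinuousLinearMap.ext (hQ z0)
  have h2 : ContDiff ℝ ∞ fun z => (Q z0).comp (Θ z) := contDiff_const.clm_comp hΘ
  have h3 : ContDiffAt ℝ ∞ (fun z => ((Q z0).comp (Θ z)).inverse) z0 := by
    refine ContDiffAt.comp (g := ContinuousLinearMap.inverse) z0 ?_ h2.contDiffAt
    rw [h1]
    exact contDiffAt_map_inverse _
  refine (h3.clm_comp ((contDiff_const (c := Q z0)).clm_comp hπ).contDiffAt).congr_of_eventuallyEq ?_
  have h4 : ∀ᶠ z in 𝓝 z0, ‖(Q z0).comp (Θ z) - 1‖ < 1 := by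
    have : Continuous fun z => ‖(Q z0).comp (Θ z) - 1‖ := (h2.continuous.sub continuous_const).norm
    refine this.continuousAt.eventually_lt continuousAt_const ?_
    rw [h1]
    simp [ContinuousLinearMap.one_def]
  filter_upwards [h4] with z hz
  obtain ⟨e, he⟩ := inv_of_near hz
  ext1 v
  rw [← he, ContinuousLinearMap.inverse_equiv]
  have h5 : e ((Q z).comp (π z) v) = Q z0 (π z v) := by
    have := congrArg (fun M : F →L[ℝ] F => M ((Q z).comp (π z) v)) he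
    simp only [ContinuousLinearEquiv.coe_coe, ContinuousLinearMap.comp_apply (Q z0)] at this
    rw [this, key]
  simp only [ContinuousLinearMap.comp_apply, ContinuousLinearEquiv.coe_coe] at h5 ⊢
  rw [← h5, e.symm_apply_apply]

theorem r_at (A : Amb E) {e : E} (h : e ∈ A.W) : ContDiffAt ℝ ∞ A.r e :=
  A.smr.contDiffAt (A.opW.mem_nhds h)

theorem J_at (A : Amb E) (t : ℝ) {e : E} (h : e ∈ A.W) : ContDiffAt ℝ ∞ A.J (t, e) :=
  A.smJ.contDiffAt ((isOpen_univ.prod A.opW).mem_nhds ⟨trivial, h⟩)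

/-- Velocity vectors of maps to `K` are tangent. -/
theorem tangent (A : Amb E) {V : Type} [NormedAddCommGroup V] [NormedSpace ℝ V] {u : V → E} {z : V}
    (hu : DifferentiableAt ℝ u z) (h : ∀ᶠ w in 𝓝 z, u w ∈ A.K) (v : V) :
    fderiv ℝ A.r (u z) (fderiv ℝ u z v) = fderiv ℝ u z v := by
  have h1 := ((r_at A (A.sub h.self_of_nhds)).differentiableAt (by simp)).hasFDerivAt.comp z
    hu.hasFDerivAt
  have h2 : HasFDerivAt u _ z := h1.congr_of_eventuallyEq (h.mono fun w hw => (A.rid _ hw).symm)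
  conv_rhs => rw [h2.fderiv]
  rfl

theorem cmul_mul {J : E →L[ℝ] E} {v : E} (h : J (J v) = -v) (a b : ℂ) :
    cmul J a (cmul J b v) = cmul J (a * b) v := by
  simp only [cmul, map_add, map_smul, h, Complex.mul_re, Complex.mul_im]
  module

theorem cmul_I {J : E →L[ℝ] E} {v : E} (h : J (J v) = -v) (a : ℂ) :
    cmul J (I * a) v = J (cmul J a v) := by
  simp only [cmul, map_add, map_smul, h, Complex.mul_re, Complex.mul_im, Complex.I_re, Complex.I_im]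
  module

theorem cmul_cr {J : E →L[ℝ] E} {D : ℂ →L[ℝ] E} (h : D I = J (D 1)) (a : ℂ) :
    cmul J a (D 1) = D a := by
  have : a = a.re • (1 : ℂ) + a.im • I := by simp
  conv_rhs => rw [this, map_add, map_smul, map_smul, h]
  rfl

/-- The real linear map `a ↦ a v`. -/
noncomputable def cm (J : E →L[ℝ] E) (v : E) : ℂ →L[ℝ] E :=
  Complex.reCLM.smulRight v + Complex.imCLM.smulRight (J v)

theorem cm_apply (J : E →L[ℝ] E) (v : E) (a : ℂ) : cm J v a = cmul J a v := rfl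

theorem contDiff_cm {J : ℂ → E →L[ℝ] E} {v : ℂ → E} (hJ : ContDiff ℝ ∞ J) (hv : ContDiff ℝ ∞ v) :
    ContDiff ℝ ∞ fun z => cm (J z) (v z) :=
  (contDiff_const.smulRight hv).add (contDiff_const.smulRight (hJ.clm_apply hv))

theorem fderiv_inv_comp {u u' : ℂ → E} {w : ℂ} (hw : w ≠ 0) (hu : DifferentiableAt ℝ u w⁻¹)
    (h : ∀ᶠ v in 𝓝 w, u' v = u v⁻¹) (a : ℂ) :
    fderiv ℝ u' w a = fderiv ℝ u w⁻¹ (-(w ^ 2)⁻¹ * a) := by
  have h1 := hu.hasFDerivAt.comp w ((hasDerivAt_inv hw).hasFDerivAt.restrictScalars ℝ)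
  have h2 : HasFDerivAt u' _ w := h1.congr_of_eventuallyEq h
  rw [h2.fderiv]
  simp [mul_comm]

theorem exists_two [FiniteDimensional ℝ E] (A : Amb E) {t0 : ℝ} {s : Sph2 E} (hs : A.HolS t0 s)
    (h0 : ContDiff ℝ ∞ s.u0) (h1 : ContDiff ℝ ∞ s.u1) {k : ℕ}
    (N : A.NFrame t0 s ((k : ℤ) - 1)) :
    ∃ T : Two A t0 k, T.u false = s.u0 ∧ T.u true = s.u1 := by
  let u : Bool → ℂ → E := fun c => cond c s.u1 s.u0
  let n : Bool → ℂ → E := fun c => cond c N.n1 N.n0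
  let σ : Bool → ℂ := fun c => cond c (-1) 1
  have smu : ∀ c, ContDiff ℝ ∞ (u c) := fun c => by cases c; exacts [h0, h1]
  have smn : ∀ c, ContDiff ℝ ∞ (n c) := fun c => by cases c; exacts [N.sm0, N.sm1]
  have uK : ∀ c z, u c z ∈ A.K := fun c z => by
    cases c; exacts [hs.2.2.1 (Or.inl ⟨z, rfl⟩), hs.2.2.1 (Or.inr ⟨z, rfl⟩)]
  have cr : ∀ c z, fderiv ℝ (u c) z I = A.J (t0, u c z) (fderiv ℝ (u c) z 1) := fun c z => by
    cases c; exacts [hs.2.2.2.1 z, hs.2.2.2.2 z]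
  have utr : ∀ c w, w ≠ 0 → u (!c) w = u c w⁻¹ := fun c w hw => by
    cases c
    · exact s.compat w hw
    · exact ((s.compat w⁻¹ (inv_ne_zero hw)).trans (by rw [inv_inv]; rfl)).symm
  have du : ∀ c z, DifferentiableAt ℝ (u c) z := fun c z => (smu c).differentiable (by simp) z
  have tu : ∀ c z v, fderiv ℝ A.r (u c z) (fderiv ℝ (u c) z v) = fderiv ℝ (u c) z v :=
    fun c z => tangent A (du c z) (.of_forall (uK c))
  have tn : ∀ c z, fderiv ℝ A.r (u c z) (n c z) = n c z := fun c z => by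
    cases c; exacts [N.tan0 z, N.tan1 z]
  have jn : ∀ c z, A.J (t0, u c z) (A.J (t0, u c z) (n c z)) = -n c z := fun c z => by
    rw [A.sq _ _ (uK c z), tn]
  have ju : ∀ c z v, A.J (t0, u c z) (A.J (t0, u c z) (fderiv ℝ (u c) z v)) =
      -fderiv ℝ (u c) z v := fun c z v => by rw [A.sq _ _ (uK c z), tu]
  have tr : ∀ c z (a b : ℂ), fderiv ℝ (u c) z a + cmul (A.J (t0, u c z)) b (n c z) = 0 →
      a = 0 ∧ b = 0 := fun c z a b h => by
    rw [← cmul_cr (cr c z)] at h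
    cases c; exacts [N.tr0 z a b h, N.tr1 z a b h]
  have pw : ∀ w : ℂ, w ≠ 0 → w ^ k * w⁻¹ = w ^ ((k : ℤ) - 1) := fun w hw => by
    rw [zpow_sub₀ hw, zpow_natCast, zpow_one, div_eq_mul_inv]
  have ntr : ∀ c w, w ≠ 0 → ∀ b, cmul (A.J (t0, u (!c) w)) (w ^ k * w⁻¹ * b) (n (!c) w) =
      cmul (A.J (t0, u c w⁻¹)) b (n c w⁻¹) := fun c w hw b => by
    cases c
    · have e : n (!false) w = cmul (A.J (t0, u (!false) w)) (w⁻¹ ^ ((k : ℤ) - 1)) (n false w⁻¹) :=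
        N.trans w hw
      rw [e, utr false w hw, cmul_mul (jn _ _), pw w hw, inv_zpow, mul_right_comm,
        mul_inv_cancel₀ (zpow_ne_zero _ hw), one_mul]
    · have e : n true w⁻¹ = cmul (A.J (t0, u true w⁻¹)) (w⁻¹⁻¹ ^ ((k : ℤ) - 1))
          (n (!true) w⁻¹⁻¹) := N.trans w⁻¹ (inv_ne_zero hw)
      rw [e, inv_inv, ← utr true w hw, cmul_mul (jn _ _), pw w hw, mul_comm]
  let Θ : Bool → ℂ → F →L[ℝ] E := fun c z =>
    (fderiv ℝ (u c) z).comp (σ c • ContinuousLinearMap.fst ℝ ℂ ℂ) +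
      (cm (A.J (t0, u c z)) (n c z)).comp (ContinuousLinearMap.snd ℝ ℂ ℂ)
  have hΘ : ∀ c z x, Θ c z x =
      fderiv ℝ (u c) z (σ c * x.1) + cmul (A.J (t0, u c z)) x.2 (n c z) := fun c z x => rfl
  have smJ : ∀ c, ContDiff ℝ ∞ fun z => A.J (t0, u c z) := fun c =>
    contDiff_iff_contDiffAt.2 fun z => (J_at A t0 (A.sub (uK c z))).comp z
      (contDiffAt_const.prodMk (smu c).contDiffAt)
  have smπ : ∀ c, ContDiff ℝ ∞ fun z => fderiv ℝ A.r (u c z) := fun c =>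
    contDiff_iff_contDiffAt.2 fun z =>
      ((r_at A (A.sub (uK c z))).fderiv_right (m := ∞) (by simp)).comp z (smu c).contDiffAt
  have smΘ : ∀ c, ContDiff ℝ ∞ (Θ c) := fun c =>
    (((smu c).fderiv_right (m := ∞) (by simp)).clm_comp contDiff_const).add
      ((contDiff_cm (smJ c) (smn c)).clm_comp contDiff_const)
  have σ0 : ∀ c, σ c ≠ 0 := fun c => by cases c <;> simp [σ]
  have inj : ∀ c z, Function.Injective (Θ c z) := fun c z => by
    rw [injective_iff_map_eq_zero]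
    intro x hx
    obtain ⟨a, b⟩ := tr c z _ _ (hΘ c z x ▸ hx)
    exact Prod.ext ((mul_eq_zero.1 a).resolve_left (σ0 c)) b
  have tΘ : ∀ c z x, fderiv ℝ A.r (u c z) (Θ c z x) = Θ c z x := fun c z x => by
    simp only [hΘ, cmul, map_add, map_smul, tu, tn, A.tan _ _ (uK c z)]
  choose P smP ΘP using fun c => exists_leftInv (smΘ c) (smπ c) (inj c) fun z =>
    onto_of_dim (inj c z) (fun x => ⟨_, tΘ c z x⟩) (A.dim _ (uK c z))
  have Θtr : ∀ c w, w ≠ 0 → ∀ x, Θ (!c) w (gm k w x) = Θ c w⁻¹ x := fun c w hw x => by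
    rw [hΘ, hΘ, gm, ntr c w hw, fderiv_inv_comp hw (du c w⁻¹)
      ((eventually_ne_nhds hw).mono fun v hv => utr c v hv)]
    congr 2
    have : σ (!c) = -σ c := by cases c <;> simp [σ]
    rw [this]
    field_simp
  refine ⟨⟨u, Θ, P, smu, smΘ, smP, uK, utr, Θtr, fun c w hw v => inj (!c) w ?_, ΘP,
    fun c z x => inj c z ?_, fun c z x => ?_, fun c => ⟨σ c, fun z a => ?_⟩, cr⟩, rfl, rfl⟩
  · rw [Θtr c w hw, ΘP, ΘP, utr c w hw]
  · rw [ΘP, tΘ]
  · rw [hΘ, hΘ, map_add, ← cmul_I (jn c z), ← cmul_cr (cr c z), ← cmul_cr (cr c z) (σ c * x.1),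
      ← cmul_I (ju c z 1), mul_left_comm]
    rfl
  · rw [hΘ]; simp [cmul]

end Pool.Agent.Lib.MP_1c0d65_gt.D
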