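import Pool.Agent.Lib.MP_1c0d65_gt.D.GeoA

/-! The Cauchy-Riemann equation near an immersed sphere, as a system in two charts. -/

open scoped ContDiff Topology ComplexConjugate
open Filter Set Metric
open Complex (I)

namespace Pool.Agent.Lib.MP_1c0d65_gt.D

variable {E : Type} [NormedAddCommGroup E] [NormedSpace ℝ E]

theorem contDiff_db {n : WithTop ℕ∞} : ContDiff ℝ n (A.db : (ℂ →L[ℝ] F) → F) := by
  unfold A.db
  exact ((contDiff_id.clm_apply contDiff_const).add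
    ((contDiff_id.clm_apply contDiff_const).const_smul I)).const_smul _

theorem jet_der {G : ℝ × ℂ → E} {z : ℂ} (hG : ContDiffAt ℝ 2 G (0, z)) :
    HasDerivAt (fun ε : ℝ => (G (ε, z), (fderiv ℝ G (ε, z)).comp (ContinuousLinearMap.inr ℝ ℝ ℂ)))
      (fderiv ℝ G (0, z) (1, 0), (ContinuousLinearMap.apply ℝ E ((1 : ℝ), (0 : ℂ))).comp
        (fderiv ℝ (fun w => fderiv ℝ G (0, w)) z)) 0 := by
  have l : HasDerivAt (fun ε : ℝ => (ε, z)) (1, 0) 0 := (hasDerivAt_id _).prodMk (hasDerivAt_const _ _)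
  have d1 := (hG.differentiableAt (by simp)).hasFDerivAt
  have d2 := ((hG.fderiv_right (m := 1) (by norm_num)).differentiableAt (by simp)).hasFDerivAt
  have d0 : HasDerivAt (fun ε : ℝ => G (ε, z)) (fderiv ℝ G (0, z) (1, 0)) 0 :=
    HasFDerivAt.comp_hasDerivAt (l := G) (0 : ℝ) d1 l
  have d5 : HasDerivAt (fun ε : ℝ => fderiv ℝ G (ε, z)) (fderiv ℝ (fderiv ℝ G) (0, z) (1, 0)) 0 :=
    HasFDerivAt.comp_hasDerivAt (l := fderiv ℝ G) (0 : ℝ) d2 l
  have d3 := d5.clm_comp (hasDerivAt_const (0 : ℝ) (ContinuousLinearMap.inr ℝ ℝ ℂ))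
  have d4 : HasFDerivAt (fun w => fderiv ℝ G (0, w))
      ((fderiv ℝ (fderiv ℝ G) (0, z)).comp (ContinuousLinearMap.inr ℝ ℝ ℂ)) z :=
    HasFDerivAt.comp (g := fderiv ℝ G) z d2 (hasFDerivAt_prodMk_right (0 : ℝ) z)
  refine d0.prodMk (d3.congr_deriv ?_)
  rw [d4.fderiv]
  refine ContinuousLinearMap.ext fun h => ?_
  simpa using (hG.isSymmSndFDerivAt (by simp)).eq (1, 0) (0, h)

variable {A : Amb E} {t0 : ℝ} {k : ℕ}

namespace Two

variable (T : Two A t0 k)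

/-- The point before the retraction. -/
noncomputable def X (c : Bool) (p : ℂ × F) : E := T.u c p.1 + T.Θ c p.1 p.2

/-- The point on `K`. -/
noncomputable def Ex (c : Bool) (p : ℂ × F) : E := A.r (T.X c p)

/-- A complex linear projection. -/
noncomputable def κ (c : Bool) (t : ℝ) (z : ℂ) (e : E) : E →L[ℝ] F :=
  (2 : ℂ)⁻¹ • (T.P c z - I • (T.P c z).comp (A.J (t, e)))

/-- The differential of the deformed map. -/
noncomputable def Dx (c : Bool) (p : ℂ × F) (L : ℂ →L[ℝ] F) : ℂ →L[ℝ] E :=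
  (fderiv ℝ (T.Ex c) p).comp
    (ContinuousLinearMap.inl ℝ ℂ F + (ContinuousLinearMap.inr ℝ ℂ F).comp L)

/-- The system. -/
noncomputable def N (c : Bool) (j : Jet) : F :=
  MP_1c0d65_gt.A.db ((T.κ c j.1 j.2.1 (T.Ex c (j.2.1, j.2.2.1))).comp
    (T.Dx c (j.2.1, j.2.2.1) j.2.2.2))

theorem smX (c : Bool) : ContDiff ℝ ∞ (T.X c) :=
  ((T.smu c).comp contDiff_fst).add (((T.smΘ c).comp contDiff_fst).clm_apply contDiff_snd)

theorem X_zero (c : Bool) (z : ℂ) : T.X c (z, 0) = T.u c z := by simp [X]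

theorem X_zero_mem (c : Bool) (z : ℂ) : T.X c (z, 0) ∈ A.W := T.X_zero c z ▸ A.sub (T.uK c z)

theorem Ex_zero (c : Bool) (z : ℂ) : T.Ex c (z, 0) = T.u c z := by
  rw [Ex, X_zero, A.rid _ (T.uK c z)]

theorem Ex_at {c : Bool} {p : ℂ × F} (h : T.X c p ∈ A.W) : ContDiffAt ℝ ∞ (T.Ex c) p :=
  (r_at A h).comp p (T.smX c).contDiffAt

theorem X_ev {c : Bool} {p : ℂ × F} (h : T.X c p ∈ A.W) : ∀ᶠ q in 𝓝 p, T.X c q ∈ A.W :=
  (T.smX c).continuous.continuousAt.eventually (A.opW.mem_nhds h)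

theorem X_tr (c : Bool) {w : ℂ} (hw : w ≠ 0) (x : F) :
    T.X (!c) (w, gm k w x) = T.X c (w⁻¹, x) := by
  simp only [X, T.utr c w hw, T.Θtr c w hw]

theorem du (c : Bool) (z : ℂ) : DifferentiableAt ℝ (T.u c) z := (T.smu c).differentiable (by simp) z

theorem tu (c : Bool) (z v : ℂ) :
    fderiv ℝ A.r (T.u c z) (fderiv ℝ (T.u c) z v) = fderiv ℝ (T.u c) z v :=
  tangent A (T.du c z) (.of_forall (T.uK c)) v

theorem tΘ (c : Bool) (z : ℂ) (x : F) : fderiv ℝ A.r (T.u c z) (T.Θ c z x) = T.Θ c z x := by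
  rw [← T.ΘP, T.PΘ]

theorem fderiv_Ex (c : Bool) (z h : ℂ) (x : F) :
    fderiv ℝ (T.Ex c) (z, 0) (h, x) = fderiv ℝ (T.u c) z h + T.Θ c z x := by
  have h1 : HasFDerivAt (T.X c) _ (z, 0) :=
    ((T.du c z).hasFDerivAt.comp (z, (0 : F)) hasFDerivAt_fst).add
      ((((T.smΘ c).differentiable (by simp) z).hasFDerivAt.comp (z, (0 : F))
        hasFDerivAt_fst).clm_apply hasFDerivAt_snd)
  have h2 : HasFDerivAt (T.Ex c) _ (z, 0) :=
    ((r_at A (T.X_zero_mem c z)).differentiableAt (by simp)).hasFDerivAt.comp (z, (0 : F)) h1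
  rw [h2.fderiv]
  simp [X_zero, tu, tΘ]

theorem Dx_apply (c : Bool) (p : ℂ × F) (L : ℂ →L[ℝ] F) (h : ℂ) :
    T.Dx c p L h = fderiv ℝ (T.Ex c) p (h, L h) := by
  simp only [Dx, ContinuousLinearMap.comp_apply, add_apply, ContinuousLinearMap.inl_apply,
    ContinuousLinearMap.inr_apply, Prod.mk_add_mk, add_zero, zero_add]

theorem Dx_zero (c : Bool) (z : ℂ) (L : ℂ →L[ℝ] F) (h : ℂ) :
    T.Dx c (z, 0) L h = fderiv ℝ (T.u c) z h + T.Θ c z (L h) := by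
  rw [← fderiv_Ex, Dx_apply]

theorem hasD {c : Bool} {ξ : ℂ → F} {z : ℂ} (hξ : DifferentiableAt ℝ ξ z)
    (h : T.X c (z, ξ z) ∈ A.W) :
    HasFDerivAt (fun w => T.Ex c (w, ξ w)) (T.Dx c (z, ξ z) (fderiv ℝ ξ z)) z := by
  have := ((T.Ex_at h).differentiableAt (by simp)).hasFDerivAt.comp z
    ((hasFDerivAt_id z).prodMk hξ.hasFDerivAt)
  refine this.congr_fderiv ?_
  ext1 v
  rw [Dx_apply]; rfl

theorem κ_J (c : Bool) (t : ℝ) (z : ℂ) {e v : E} (he : e ∈ A.K) (hv : fderiv ℝ A.r e v = v) :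
    T.κ c t z e (A.J (t, e) v) = I • T.κ c t z e v := by
  simp only [κ, smul_apply, sub_apply,
    ContinuousLinearMap.comp_apply, A.sq t e he, hv, map_neg]
  match_scalars
  · linear_combination (2⁻¹ : ℂ) * Complex.I_mul_I
  · ring

theorem db_κ (c : Bool) (t : ℝ) (z : ℂ) {e : E} {D : ℂ →L[ℝ] E} (he : e ∈ A.K)
    (hv : fderiv ℝ A.r e (D I) = D I) : MP_1c0d65_gt.A.db ((T.κ c t z e).comp D) =
      (2 : ℂ)⁻¹ • T.κ c t z e (D 1 + A.J (t, e) (D I)) := by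
  rw [map_add, T.κ_J c t z he hv]; rfl

theorem db_hol (c : Bool) (z w : ℂ) :
    MP_1c0d65_gt.A.db ((T.κ c t0 z (T.u c w)).comp (fderiv ℝ (T.u c) w)) = 0 := by
  have h : fderiv ℝ (T.u c) w I = A.J (t0, T.u c w) (fderiv ℝ (T.u c) w 1) := T.cr c w
  rw [T.db_κ c t0 z (T.uK c w) (T.tu c w I), h, A.sq _ _ (T.uK c w), tu]
  simp

theorem κΘ (c : Bool) (z : ℂ) (x : F) : T.κ c t0 z (T.u c z) (T.Θ c z x) = x := by
  simp only [κ, smul_apply, sub_apply,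
    ContinuousLinearMap.comp_apply, ← T.ΘI, T.PΘ]
  match_scalars
  linear_combination (-2⁻¹ : ℂ) * Complex.I_mul_I

theorem κ_at (c : Bool) (t : ℝ) (z : ℂ) {e : E} (he : e ∈ A.W) :
    ContDiffAt ℝ ∞ (fun q : ℝ × ℂ × E => T.κ c q.1 q.2.1 q.2.2) (t, z, e) := by
  have h1 : ContDiffAt ℝ ∞ (fun q : ℝ × ℂ × E => T.P c q.2.1) (t, z, e) :=
    ((T.smP c).comp contDiff_snd.fst).contDiffAt
  have h2 : ContDiffAt ℝ ∞ (fun q : ℝ × ℂ × E => A.J (q.1, q.2.2)) (t, z, e) :=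
    ContDiffAt.comp (g := A.J) (t, z, e) (J_at A t he) (contDiffAt_fst.prodMk contDiffAt_snd.snd)
  exact (h1.sub ((h1.clm_comp h2).const_smul I)).const_smul _

theorem Dx_at {c : Bool} {p : ℂ × F} (h : T.X c p ∈ A.W) (L : ℂ →L[ℝ] F) :
    ContDiffAt ℝ ∞ (fun q : (ℂ × F) × (ℂ →L[ℝ] F) => T.Dx c q.1 q.2) (p, L) :=
  (ContDiffAt.comp (g := fderiv ℝ (T.Ex c)) (p, L) ((T.Ex_at h).fderiv_right (m := ∞) (by simp))
    contDiffAt_fst).clm_comp (contDiffAt_const.add (contDiffAt_const.clm_comp contDiffAt_snd))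

theorem N_at (c : Bool) (z : ℂ) : ContDiffAt ℝ ∞ (T.N c) (t0, z, 0, 0) := by
  have p : ContDiffAt ℝ ∞ (fun j : Jet => (j.2.1, j.2.2.1)) (t0, z, 0, 0) :=
    contDiffAt_snd.fst.prodMk contDiffAt_snd.snd.fst
  have h1 : ContDiffAt ℝ ∞ (fun j : Jet => T.Ex c (j.2.1, j.2.2.1)) (t0, z, 0, 0) :=
    ContDiffAt.comp (g := T.Ex c) _ (T.Ex_at (T.X_zero_mem c z)) p
  have h2 := ContDiffAt.comp (f := fun j : Jet => (j.1, j.2.1, T.Ex c (j.2.1, j.2.2.1)))
    (t0, z, 0, 0) (T.κ_at c t0 z (A.sub (A.rK _ (T.X_zero_mem c z))))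
    (contDiffAt_fst.prodMk (contDiffAt_snd.fst.prodMk h1))
  have h3 := ContDiffAt.comp (f := fun j : Jet => ((j.2.1, j.2.2.1), j.2.2.2))
    (t0, z, 0, 0) (T.Dx_at (T.X_zero_mem c z) 0) (p.prodMk contDiffAt_snd.snd.snd)
  exact contDiff_db.contDiffAt.comp _ (h2.clm_comp h3)

theorem N_zero (c : Bool) (z : ℂ) (L : ℂ →L[ℝ] F) :
    T.N c (t0, z, 0, L) = MP_1c0d65_gt.A.db L := by
  have : (T.κ c t0 z (T.u c z)).comp (T.Dx c (z, 0) L) =
      (T.κ c t0 z (T.u c z)).comp (fderiv ℝ (T.u c) z) + L := by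
    ext1 h
    simp only [ContinuousLinearMap.comp_apply, Dx_zero, map_add, κΘ, add_apply]
  simp only [N, Ex_zero, this, MP_1c0d65_gt.A.db_add, db_hol, zero_add]

theorem N_dir (c : Bool) (z : ℂ) (v : Jet) :
    HasDerivAt (fun ε : ℝ => T.N c ((t0, z, 0, 0) + ε • v))
      (fderiv ℝ (T.N c) (t0, z, 0, 0) v) 0 := by
  have l : HasDerivAt (fun ε : ℝ => ((t0, z, 0, 0) : Jet) + ε • v) v 0 := by
    simpa using ((hasDerivAt_id (0 : ℝ)).smul_const v).const_add ((t0, z, 0, 0) : Jet)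
  exact ((T.N_at c z).differentiableAt (by simp)).hasFDerivAt.comp_hasDerivAt_of_eq _ l
    (by rw [show (0 : ℝ) • v = 0 from zero_smul ℝ v, add_zero])

theorem lin_L (c : Bool) (z : ℂ) (L : ℂ →L[ℝ] F) :
    fderiv ℝ (T.N c) (t0, z, 0, 0) (0, 0, 0, L) = MP_1c0d65_gt.A.db L := by
  refine (T.N_dir c z _).unique ?_
  have : (fun ε : ℝ => T.N c ((t0, z, 0, 0) + ε • ((0, 0, 0, L) : Jet))) =
      fun ε : ℝ => ε • MP_1c0d65_gt.A.db L := by
    funext ε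
    simp only [Prod.smul_mk, smul_zero, Prod.mk_add_mk, add_zero, zero_add, N_zero,
      MP_1c0d65_gt.A.db, smul_apply]
    rw [smul_comm I ε, ← smul_add, smul_comm]
  rw [this]
  simpa using (hasDerivAt_id (0 : ℝ)).smul_const (MP_1c0d65_gt.A.db L)

theorem lin_a (c : Bool) (z a : ℂ) :
    fderiv ℝ (T.N c) (t0, z, 0, 0) (0, 0, (a, 0), 0) = 0 := by
  obtain ⟨σ, hσ⟩ := T.Θ1 c
  let g : ℝ × ℂ → ℂ × F := fun q => (q.2, q.1 • ((a, 0) : F))
  let h : ℝ × ℂ → ℂ := fun q => q.2 + q.1 • (σ * a)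
  have dg : ∀ q, HasFDerivAt g ((ContinuousLinearMap.snd ℝ ℝ ℂ).prod
      ((ContinuousLinearMap.fst ℝ ℝ ℂ).smulRight ((a, 0) : F))) q := fun q =>
    hasFDerivAt_snd.prodMk (hasFDerivAt_fst.smul_const ((a, 0) : F))
  have dh : ∀ q, HasFDerivAt h (ContinuousLinearMap.snd ℝ ℝ ℂ +
      (ContinuousLinearMap.fst ℝ ℝ ℂ).smulRight (σ * a)) q := fun q =>
    hasFDerivAt_snd.add (hasFDerivAt_fst.smul_const (σ * a))
  have g0 : ∀ w, g (0, w) = (w, 0) := fun w => by simp [g]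
  have h0 : ∀ w, h (0, w) = w := fun w => by simp [h]
  have cg : ContDiff ℝ 2 g := contDiff_snd.prodMk (contDiff_fst.smul contDiff_const)
  have hG : ContDiffAt ℝ 2 (T.Ex c ∘ g) (0, z) :=
    ((T.Ex_at (g0 z ▸ T.X_zero_mem c z)).of_le (by decide)).comp _ cg.contDiffAt
  have hH : ContDiffAt ℝ 2 (T.u c ∘ h) (0, z) :=
    (((T.smu c).of_le (by decide)).comp
      (contDiff_snd.add (contDiff_fst.smul contDiff_const))).contDiffAt
  have dG := fun q (hq : T.X c (g q) ∈ A.W) =>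
    (((T.Ex_at hq).differentiableAt (by simp)).hasFDerivAt.comp q (dg q)).fderiv
  have dH := fun q => ((T.du c _).hasFDerivAt.comp q (dh q)).fderiv
  have e : ∀ w, fderiv ℝ (T.Ex c ∘ g) (0, w) = fderiv ℝ (T.u c ∘ h) (0, w) := fun w => by
    rw [dG _ (g0 w ▸ T.X_zero_mem c w), dH, g0, h0]
    refine ContinuousLinearMap.ext fun q => ?_
    simp only [ContinuousLinearMap.comp_apply, ContinuousLinearMap.prod_apply,
      add_apply, ContinuousLinearMap.smulRight_apply, fderiv_Ex, map_add,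
      map_smul, hσ]
  let n : E × (ℂ →L[ℝ] E) → F := fun p => MP_1c0d65_gt.A.db ((T.κ c t0 z p.1).comp p.2)
  have dn : ∀ D, DifferentiableAt ℝ n (T.u c z, D) := fun D => by
    have := ContDiffAt.comp (f := fun p : E × (ℂ →L[ℝ] E) => (t0, z, p.1)) (T.u c z, D)
      (T.κ_at c t0 z (A.sub (T.uK c z)))
      (contDiffAt_const.prodMk (contDiffAt_const.prodMk contDiffAt_fst))
    exact (contDiff_db.contDiffAt.comp _ (this.clm_comp contDiffAt_snd)).differentiableAt (by simp)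
  have k1 := (dn _).hasFDerivAt.comp_hasDerivAt_of_eq _ (jet_der hG)
    (by rw [Function.comp_apply, g0, Ex_zero])
  have k2 := (dn _).hasFDerivAt.comp_hasDerivAt_of_eq _ (jet_der hH)
    (by rw [Function.comp_apply, h0])
  simp only [e] at k1
  have k3 := k2.unique ((hasDerivAt_const (0 : ℝ) (0 : F)).congr_of_eventuallyEq
    (.of_forall fun ε => by
      have : (fderiv ℝ (T.u c ∘ h) (ε, z)).comp (ContinuousLinearMap.inr ℝ ℝ ℂ) =
          fderiv ℝ (T.u c) (h (ε, z)) := by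
        rw [dH]; ext1 v; simp
      simp only [Function.comp_apply, n, this, db_hol]))
  rw [k3] at k1
  refine (T.N_dir c z _).unique (k1.congr_of_eventuallyEq ?_)
  have : ∀ᶠ ε : ℝ in 𝓝 0, T.X c (g (ε, z)) ∈ A.W :=
    (cg.continuous.comp (Continuous.prodMk_left z)).continuousAt.eventually
      (T.X_ev (by rw [Function.comp_apply, g0]; exact T.X_zero_mem c z))
  filter_upwards [this] with ε hε
  have : (fderiv ℝ (T.Ex c ∘ g) (ε, z)).comp (ContinuousLinearMap.inr ℝ ℝ ℂ) =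
      T.Dx c (g (ε, z)) 0 := by
    rw [dG _ hε]; ext1 v; rw [Dx_apply]; simp
  simp only [Function.comp_apply, n, this]
  have e0 : ε • (0 : ℂ →L[ℝ] F) = 0 := by ext1 v; simp
  simp [N, g, e0]

/-- Uniform smallness over the disc. -/
theorem unif {Y : Type} [TopologicalSpace Y] {y : Y} {p : Bool → ℂ → Y → Prop} (R : ℝ)
    (h : ∀ c z, ∀ᶠ q : Y × ℂ in 𝓝 (y, z), p c q.2 q.1) :
    ∀ᶠ x in 𝓝 y, ∀ c z, ‖z‖ ≤ R → p c z x := by
  rw [eventually_all]
  intro c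
  simpa using (isCompact_closedBall (0 : ℂ) R).eventually_forall_of_forall_eventually
    (P := fun x z => p c z x) fun z _ => h c z

theorem db_tr (w μ : ℂ) {L L' : ℂ →L[ℝ] F} (h : ∀ v, L' v = gm k w (L (μ * v))) :
    MP_1c0d65_gt.A.db L' = conj μ • gm k w (MP_1c0d65_gt.A.db L) := by
  rw [MP_1c0d65_gt.A.db, h, h, MP_1c0d65_gt.A.lin_eq L, MP_1c0d65_gt.A.lin_eq L (μ * I)]
  refine Prod.ext ?_ ?_ <;> simp only [gm, Prod.smul_fst, Prod.smul_snd, Prod.fst_add, Prod.snd_add,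
    smul_eq_mul, map_mul, Complex.conj_I, mul_one]
  · linear_combination (2⁻¹ * w ^ 2 * (μ * (MP_1c0d65_gt.A.dz L).1 -
      conj μ * (MP_1c0d65_gt.A.db L).1)) * Complex.I_mul_I
  · linear_combination (2⁻¹ * (w ^ k * w⁻¹) * (μ * (MP_1c0d65_gt.A.dz L).2 -
      conj μ * (MP_1c0d65_gt.A.db L).2)) * Complex.I_mul_I

theorem κ_tr (c : Bool) (t : ℝ) {w : ℂ} (hw : w ≠ 0) (e v : E) :
    T.κ (!c) t w e v = gm k w (T.κ c t w⁻¹ e v) := by
  simp only [κ, smul_apply, sub_apply,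
    ContinuousLinearMap.comp_apply, T.Ptr c w hw]
  refine Prod.ext ?_ ?_ <;> simp only [gm, Prod.smul_fst, Prod.smul_snd, Prod.fst_sub, Prod.snd_sub,
    smul_eq_mul] <;> ring

theorem sys : Sys k t0 T.N := by
  refine ⟨fun c z _ => T.N_at c z, fun c z _ => by simp [N_zero], fun c z _ a L => ?_, ?_⟩
  · have : ((0, 0, (a, 0), L) : Jet) = (0, 0, (a, 0), 0) + (0, 0, 0, L) := by simp
    rw [this, map_add, lin_a, lin_L, zero_add]
  obtain ⟨δ, hδ, h⟩ := Metric.eventually_nhds_iff.1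
    (unif (y := (0 : F)) (p := fun c z x => T.X c (z, x) ∈ A.W) 2 fun c z =>
      continuous_swap.continuousAt.eventually (T.X_ev (T.X_zero_mem c z)))
  refine ⟨δ, hδ, fun c t w _ h1 _ ξ ξ' hξ he hs => ?_⟩
  have hw : w ≠ 0 := by rintro rfl; norm_num at h1
  have hW : T.X c (w⁻¹, ξ w⁻¹) ∈ A.W := h (by simpa using hs) c _ (by
    rw [norm_inv]; exact inv_le_of_inv_le₀ two_pos h1)
  have hX : T.X (!c) (w, ξ' w) = T.X c (w⁻¹, ξ w⁻¹) := by rw [he.self_of_nhds, T.X_tr c hw]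
  have hi : DifferentiableAt ℝ (fun v : ℂ => v⁻¹) w := differentiableAt_inv hw
  have hξ' : DifferentiableAt ℝ ξ' w := by
    refine DifferentiableAt.congr_of_eventuallyEq ?_ he
    have := hξ.comp w hi
    exact ((differentiableAt_id.pow 2).mul this.fst).prodMk
      (((differentiableAt_id.pow k).mul hi).mul this.snd)
  have d := T.hasD hξ hW
  have d' := T.hasD hξ' (hX ▸ hW)
  have hE : T.Ex (!c) (w, ξ' w) = T.Ex c (w⁻¹, ξ w⁻¹) := congrArg A.r hX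
  have : -((conj w)⁻¹ ^ 2) = conj (-(w ^ 2)⁻¹) := by simp
  rw [this]
  refine db_tr w _ fun v => ?_
  simp only [ContinuousLinearMap.comp_apply, hE, T.κ_tr c t hw]
  rw [← d'.fderiv, ← d.fderiv, fderiv_inv_comp hw d.differentiableAt]
  filter_upwards [he, eventually_ne_nhds hw] with v h1 h2
  rw [h1, Ex, T.X_tr c h2, Ex]

end Two

end Pool.Agent.Lib.MP_1c0d65_gt.D
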