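import Pool.Agent.Lib.MP_1c0d65_gt.D.GeoB

/-! From solutions of the system to holomorphic spheres. -/

open scoped ContDiff Topology ComplexConjugate
open Filter Set Metric
open Complex (I)

namespace Pool.Agent.Lib.MP_1c0d65_gt.D

variable {E : Type} [NormedAddCommGroup E] [NormedSpace ℝ E] {A : Amb E} {t0 : ℝ} {k : ℕ}

theorem cr_inv {t : ℝ} {U U' : ℂ → E} {w : ℂ} (hw : w ≠ 0) (hU : DifferentiableAt ℝ U w⁻¹)
    (hK : ∀ v, U v ∈ A.K) (h : ∀ v, v ≠ 0 → U' v = U v⁻¹)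
    (hc : CR (fun e => A.J (t, e)) U w⁻¹) : CR (fun e => A.J (t, e)) U' w := by
  have he : ∀ᶠ v in 𝓝 w, U' v = U v⁻¹ := (eventually_ne_nhds hw).mono h
  have hc' : fderiv ℝ U w⁻¹ I = A.J (t, U w⁻¹) (fderiv ℝ U w⁻¹ 1) := hc
  show fderiv ℝ U' w I = A.J (t, U' w) (fderiv ℝ U' w 1)
  rw [fderiv_inv_comp hw hU he, fderiv_inv_comp hw hU he, h w hw, ← cmul_cr hc',
    ← cmul_cr hc' (_ * 1), ← cmul_I (by
      rw [A.sq _ _ (hK _), tangent A hU (.of_forall hK)]), mul_one, mul_comm]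

namespace Two

variable (T : Two A t0 k)

/-- The projection is injective on `K` near the sphere. -/
theorem inj_near (c : Bool) (z : ℂ) : ∃ V ∈ 𝓝 (T.u c z), ∀ a ∈ V, ∀ b ∈ V, a ∈ A.K → b ∈ A.K →
    T.P c z a = T.P c z b → a = b := by
  have hs := (r_at A (A.sub (T.uK c z))).hasStrictFDerivAt (by simp)
  have h1 := hs.isLittleO.def (c := 2⁻¹) (by norm_num)
  rw [nhds_prod_eq] at h1
  obtain ⟨V, hV, h⟩ := mem_prod_self_iff.1 h1
  refine ⟨V, hV, fun a ha b hb a1 b1 e => ?_⟩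
  have h2 := h (mk_mem_prod ha hb)
  simp only [mem_ofPred_eq, A.rid a a1, A.rid b b1, ← T.ΘP, map_sub, e, sub_self, sub_zero] at h2
  have h3 := norm_nonneg (a - b)
  exact sub_eq_zero.1 (norm_eq_zero.1 (by linarith))

/-- Points of `K` near the sphere have coordinates. -/
theorem exists_coord (c : Bool) (z : ℂ) : ∃ y : E → F, Tendsto y (𝓝 (T.u c z)) (𝓝 0) ∧
    ∀ᶠ p in 𝓝 (T.u c z), p ∈ A.K → T.Ex c (z, y p) = p := by
  have hE : ContDiffAt ℝ ∞ (fun x : F => T.Ex c (z, x)) 0 :=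
    ContDiffAt.comp (g := T.Ex c) 0 (T.Ex_at (T.X_zero_mem c z))
      (contDiffAt_const.prodMk contDiffAt_id)
  have hφ : ContDiffAt ℝ ∞ (fun x : F => T.P c z (T.Ex c (z, x))) 0 :=
    (T.P c z).contDiff.contDiffAt.comp 0 hE
  have hd : HasFDerivAt (fun x : F => T.P c z (T.Ex c (z, x)))
      (ContinuousLinearEquiv.refl ℝ F : F →L[ℝ] F) 0 := by
    have := (T.P c z).hasFDerivAt.comp (0 : F) (HasFDerivAt.comp (g := T.Ex c) (0 : F)
      ((T.Ex_at (T.X_zero_mem c z)).differentiableAt (by simp)).hasFDerivAt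
      (hasFDerivAt_prodMk_right z (0 : F)))
    refine this.congr_fderiv (ContinuousLinearMap.ext fun x => ?_)
    simp [fderiv_Ex, T.PΘ]
  have hs := hφ.hasStrictFDerivAt' hd (by simp)
  have hP : Tendsto (T.P c z) (𝓝 (T.u c z)) (𝓝 (T.P c z (T.Ex c (z, 0)))) := by
    rw [Ex_zero]; exact (T.P c z).continuous.tendsto _
  have hy := hs.localInverse_tendsto.comp hP
  refine ⟨_, hy, ?_⟩
  obtain ⟨V, hV, h⟩ := T.inj_near c z
  have h1 : Tendsto (fun x : F => T.Ex c (z, x)) (𝓝 0) (𝓝 (T.u c z)) :=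
    T.Ex_zero c z ▸ hE.continuousAt
  have h2 : ∀ᶠ x : F in 𝓝 0, T.X c (z, x) ∈ A.W :=
    (Continuous.prodMk_right z).continuousAt.eventually (T.X_ev (T.X_zero_mem c z))
  filter_upwards [hV, (h1.comp hy).eventually hV, hy.eventually h2,
    hP.eventually hs.eventually_right_inverse] with p p1 p2 p3 p4 hp
  exact h _ p2 _ p1 (A.rK _ p3) hp p4

/-- The conditions under which a solution of the system is a holomorphic curve. -/
def Good (ε : ℝ) (c : Bool) (z : ℂ) (y : ℝ × F × (ℂ →L[ℝ] F)) : Prop :=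
  T.X c (z, y.2.1) ∈ A.W ∧ ‖T.Ex c (z, y.2.1) - T.u c z‖ < ε ∧
    ‖T.Dx c (z, y.2.1) y.2.2 - fderiv ℝ (T.u c) z‖ < ε ∧
    ‖(T.κ c y.1 z (T.Ex c (z, y.2.1))).comp
      ((fderiv ℝ A.r (T.Ex c (z, y.2.1))).comp (T.Θ c z)) - 1‖ < 1

theorem good_ev {ε : ℝ} (hε : 0 < ε) (c : Bool) (z : ℂ) :
    ∀ᶠ q : (ℝ × F × (ℂ →L[ℝ] F)) × ℂ in 𝓝 ((t0, 0, 0), z), T.Good ε c q.2 q.1 := by
  have p : ContinuousAt (fun q : (ℝ × F × (ℂ →L[ℝ] F)) × ℂ => (q.2, q.1.2.1)) ((t0, 0, 0), z) := by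
    fun_prop
  have hE : ContinuousAt (fun q : (ℝ × F × (ℂ →L[ℝ] F)) × ℂ => T.Ex c (q.2, q.1.2.1))
      ((t0, 0, 0), z) :=
    ContinuousAt.comp (g := T.Ex c) (T.Ex_at (T.X_zero_mem c z)).continuousAt p
  have hW : T.Ex c (z, 0) ∈ A.W := A.sub (A.rK _ (T.X_zero_mem c z))
  refine (p.eventually (T.X_ev (T.X_zero_mem c z))).and (Eventually.and ?_ (Eventually.and ?_ ?_))
  · refine (hE.sub ((T.smu c).continuous.comp continuous_snd).continuousAt).norm.eventually_lt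
      continuousAt_const ?_
    simpa [Ex_zero] using hε
  · have h1 := ContinuousAt.comp
      (f := fun q : (ℝ × F × (ℂ →L[ℝ] F)) × ℂ => ((q.2, q.1.2.1), q.1.2.2)) (x := ((t0, 0, 0), z))
      (T.Dx_at (T.X_zero_mem c z) 0).continuousAt (p.prodMk (by fun_prop))
    refine (h1.sub (((T.smu c).continuous_fderiv (by simp)).comp
      continuous_snd).continuousAt).norm.eventually_lt continuousAt_const ?_
    have : T.Dx c (z, 0) 0 = fderiv ℝ (T.u c) z := by ext1 h; simp [Dx_zero]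
    simpa [this] using hε
  · have h1 := ContinuousAt.comp
      (f := fun q : (ℝ × F × (ℂ →L[ℝ] F)) × ℂ => (q.1.1, q.2, T.Ex c (q.2, q.1.2.1)))
      (x := ((t0, 0, 0), z)) (T.κ_at c t0 z hW).continuousAt
      (continuousAt_fst.fst.prodMk (continuousAt_snd.prodMk hE))
    have h2 := ContinuousAt.comp (g := fderiv ℝ A.r) (x := ((t0, 0, 0), z))
      (f := fun q : (ℝ × F × (ℂ →L[ℝ] F)) × ℂ => T.Ex c (q.2, q.1.2.1))
      ((r_at A hW).fderiv_right (m := ∞) (by simp)).continuousAt hE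
    refine ((h1.clm_comp (h2.clm_comp ((T.smΘ c).continuous.comp
      continuous_snd).continuousAt)).sub continuousAt_const).norm.eventually_lt
      continuousAt_const ?_
    have : (T.κ c t0 z (T.u c z)).comp ((fderiv ℝ A.r (T.u c z)).comp (T.Θ c z)) = 1 :=
      ContinuousLinearMap.ext fun x => by simp [tΘ, κΘ]
    simp [Ex_zero, this]

theorem κ_inj {ε : ℝ} {c : Bool} {z : ℂ} {y : ℝ × F × (ℂ →L[ℝ] F)} (h : T.Good ε c z y) {v : E}
    (hv : fderiv ℝ A.r (T.Ex c (z, y.2.1)) v = v) (h0 : T.κ c y.1 z (T.Ex c (z, y.2.1)) v = 0) :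
    v = 0 := by
  obtain ⟨e, he⟩ := inv_of_near h.2.2.2
  have he' : ∀ x, e x = T.κ c y.1 z (T.Ex c (z, y.2.1))
      (((fderiv ℝ A.r (T.Ex c (z, y.2.1))).comp (T.Θ c z)) x) := fun x =>
    congrArg (fun M : F →L[ℝ] F => M x) he
  obtain ⟨x, hx⟩ := onto_of_dim (Θ := (fderiv ℝ A.r (T.Ex c (z, y.2.1))).comp (T.Θ c z))
    (fun a b hab => e.injective (by rw [he', he', hab])) (fun x => ⟨_, rfl⟩)
    (A.dim _ (A.rK _ h.1)) v
  have : x = 0 := e.injective (by rw [he', hx, hv, h0, map_zero])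
  rw [← hv, ← hx, this, map_zero]

/-- A small solution of the system gives a holomorphic sphere. -/
theorem sphere {ε t : ℝ} {ξ : Bool → ℂ → F} (h1 : ∀ c, ContDiff ℝ 1 (ξ c))
    (tr : ∀ c w, w ≠ 0 → ξ (!c) w = gm k w (ξ c w⁻¹))
    (hN : ∀ c w, ‖w‖ ≤ 1 → T.N c (t, w, ξ c w, fderiv ℝ (ξ c) w) = 0)
    (hG : ∀ c w, ‖w‖ ≤ 1 → T.Good ε c w (t, ξ c w, fderiv ℝ (ξ c) w)) :
    ∃ s : Sph2 E, A.HolS t s ∧ (∀ w, s.u0 w = T.Ex false (w, ξ false w)) ∧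
      (∀ w, ‖s.u0 w - T.u false w‖ < ε) ∧ (∀ w, ‖s.u1 w - T.u true w‖ < ε) ∧
      ∀ w, ‖w‖ ≤ 1 → ‖fderiv ℝ s.u0 w - fderiv ℝ (T.u false) w‖ < ε ∧
        ‖fderiv ℝ s.u1 w - fderiv ℝ (T.u true) w‖ < ε := by
  let U : Bool → ℂ → E := fun c w => T.Ex c (w, ξ c w)
  have hX : ∀ c w, w ≠ 0 → T.X (!c) (w, ξ (!c) w) = T.X c (w⁻¹, ξ c w⁻¹) := fun c w hw => by
    rw [tr c w hw, T.X_tr c hw]
  have hU : ∀ c w, w ≠ 0 → U (!c) w = U c w⁻¹ := fun c w hw => congrArg A.r (hX c w hw)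
  have both : ∀ {p : Bool → ℂ → Prop}, (∀ c w, ‖w‖ ≤ 1 → p c w) →
      (∀ c w, w ≠ 0 → p c w⁻¹ → p (!c) w) → ∀ c w, p c w := fun {p} a b c w => by
    rcases le_total ‖w‖ 1 with h | h
    · exact a c w h
    · have hw : w ≠ 0 := by rintro rfl; norm_num at h
      simpa using b (!c) w hw (a _ _ (by rw [norm_inv]; exact inv_le_one_of_one_le₀ h))
  have hW : ∀ c w, T.X c (w, ξ c w) ∈ A.W :=
    both (fun c w h => (hG c w h).1) fun c w hw h => hX c w hw ▸ h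
  have hK : ∀ c w, U c w ∈ A.K := fun c w => A.rK _ (hW c w)
  have sm : ∀ c, ContDiff ℝ 1 (U c) := fun c => contDiff_iff_contDiffAt.2 fun w =>
    ContDiffAt.comp (g := T.Ex c) w ((T.Ex_at (hW c w)).of_le (by simp))
      (contDiffAt_id.prodMk (h1 c).contDiffAt)
  have dU : ∀ c w, DifferentiableAt ℝ (U c) w := fun c w => (sm c).differentiable one_ne_zero w
  have fU : ∀ c w, fderiv ℝ (U c) w = T.Dx c (w, ξ c w) (fderiv ℝ (ξ c) w) := fun c w =>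
    (T.hasD ((h1 c).differentiable one_ne_zero w) (hW c w)).fderiv
  have cr : ∀ c w, CR (fun e => A.J (t, e)) (U c) w := by
    refine both (fun c w h => ?_) fun c w hw h => cr_inv hw (dU c _) (hK c) (hU c) h
    have tg := tangent A (dU c w) (.of_forall (hK c))
    have e : MP_1c0d65_gt.A.db ((T.κ c t w (U c w)).comp (fderiv ℝ (U c) w)) = 0 := by
      rw [fU]; exact hN c w h
    rw [T.db_κ c t w (hK c w) (tg I), smul_eq_zero_iff_right (by simp)] at e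
    have e0 := T.κ_inj (hG c w h) (v := fderiv ℝ (U c) w 1 + A.J (t, U c w) (fderiv ℝ (U c) w I))
      (by rw [map_add]; exact congrArg₂ _ (tg 1) (A.tan _ _ (hK c w) _)) e
    have e1 := congrArg (A.J (t, U c w)) e0
    rw [map_add, A.sq _ _ (hK c w), tg, map_zero, ← sub_eq_add_neg, sub_eq_zero] at e1
    exact e1.symm
  have c0 : ∀ c w, ‖U c w - T.u c w‖ < ε :=
    both (fun c w h => (hG c w h).2.1) fun c w hw h => by rwa [hU c w hw, T.utr c w hw]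
  have c1 : ∀ c w, ‖w‖ ≤ 1 → ‖fderiv ℝ (U c) w - fderiv ℝ (T.u c) w‖ < ε := fun c w h => by
    rw [fU]; exact (hG c w h).2.2.1
  refine ⟨⟨U false, U true, hU false⟩, ⟨sm _, sm _, ?_, cr _, cr _⟩, fun _ => rfl, c0 _, c0 _,
    fun w h => ⟨c1 _ w h, c1 _ w h⟩⟩
  rintro _ (⟨w, rfl⟩ | ⟨w, rfl⟩) <;> exact hK _ w

end Two

/-- The statement of the implicit function theorem on the sphere. -/
def Solves (k : ℕ) (t0 : ℝ) (N : Bool → Jet → F) : Prop :=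
  ∀ z : Fin k → ℂ, Function.Injective z → ∀ ε : ℝ, 0 < ε →
    ∀ᶠ q : ℝ × (Fin k → F) in 𝓝 (t0, 0), ∃ ξ : Bool → ℂ → F, (∀ c, ContDiff ℝ 1 (ξ c)) ∧
      (∀ c w, w ≠ 0 → ξ (!c) w = gm k w (ξ c w⁻¹)) ∧ (∀ i, ξ false (z i) = q.2 i) ∧
      ∀ c w, ‖w‖ ≤ 1 → N c (q.1, w, ξ c w, fderiv ℝ (ξ c) w) = 0 ∧ ‖ξ c w‖ < ε ∧
        ‖fderiv ℝ (ξ c) w‖ < ε

theorem Two.deform (T : Two A t0 k) (h : Solves k t0 T.N) (z : Fin k → ℂ)
    (hz : Function.Injective z) {ε : ℝ} (hε : 0 < ε) :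
    ∀ᶠ q : ℝ × (Fin k → E) in 𝓝 (t0, fun i => T.u false (z i)), (∀ i, q.2 i ∈ A.K) →
      ∃ s : Sph2 E, A.HolS q.1 s ∧ (∀ i, s.u0 (z i) = q.2 i) ∧
        (∀ w, ‖s.u0 w - T.u false w‖ < ε) ∧ (∀ w, ‖s.u1 w - T.u true w‖ < ε) ∧
        ∀ w, ‖w‖ ≤ 1 → ‖fderiv ℝ s.u0 w - fderiv ℝ (T.u false) w‖ < ε ∧
          ‖fderiv ℝ s.u1 w - fderiv ℝ (T.u true) w‖ < ε := by
  obtain ⟨δ, hδ, hg⟩ := Metric.eventually_nhds_iff.1 (Two.unif 1 (T.good_ev hε))
  choose y hy hy' using fun i => T.exists_coord false (z i)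
  have pr : ∀ i, Tendsto (fun q : ℝ × (Fin k → E) => q.2 i)
      (𝓝 (t0, fun i => T.u false (z i))) (𝓝 (T.u false (z i))) := fun i =>
    ((continuous_apply i).comp continuous_snd).tendsto _
  have ht : Tendsto (fun q : ℝ × (Fin k → E) => q.1)
      (𝓝 (t0, fun i => T.u false (z i))) (𝓝 t0) := continuous_fst.tendsto _
  have hq : Tendsto (fun q : ℝ × (Fin k → E) => (q.1, fun i => y i (q.2 i)))
      (𝓝 (t0, fun i => T.u false (z i))) (𝓝 (t0, 0)) :=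
    ht.prodMk_nhds (tendsto_pi_nhds.2 fun i => (hy i).comp (pr i))
  filter_upwards [hq.eventually (h z hz δ hδ), ht.eventually (ball_mem_nhds t0 hδ),
    eventually_all.2 fun i => (pr i).eventually (hy' i)] with q ⟨ξ, h1, tr, pt, hs⟩ q1 q2 hK
  obtain ⟨s, s1, s2, s3⟩ := T.sphere h1 tr (fun c w hw => (hs c w hw).1) fun c w hw =>
    hg (y := (q.1, ξ c w, fderiv ℝ (ξ c) w)) (by
      rw [Prod.dist_eq, Prod.dist_eq, dist_zero_right, dist_zero_right]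
      exact max_lt q1 (max_lt (hs c w hw).2.1 (hs c w hw).2.2)) c w hw
  exact ⟨s, s1, fun i => by rw [s2, pt i]; exact q2 i (hK i), s3⟩

end Pool.Agent.Lib.MP_1c0d65_gt.D
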