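import Pool.Agent.Lib.MP_1c0d65_gt.D.GeoA
import Pool.Agent.Lib.MP_1c0d65_gt.W.Idx
import Pool.Agent.Lib.MP_1c0d65_gt.Top.Log
import Pool.Agent.Lib.MP_1c0d65_gt.Top.Frame

/-! An immersed sphere has a normal frame. -/

open scoped ContDiff Topology InnerProductSpace
open Filter Set Metric
open Complex (I)

namespace Pool.Agent.Lib.MP_1c0d65_gt

namespace NFr

variable {E : Type} [NormedAddCommGroup E] [InnerProductSpace ℝ E] {P J : E →L[ℝ] E} {τ v w : E}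

/-- A complex structure `J` on the four-dimensional range of `P`. -/
structure Cx (P J : E →L[ℝ] E) : Prop where
  pp : ∀ v, P (P v) = P v
  pj : ∀ v, P (J v) = J v
  jj : ∀ v, J (J v) = -P v
  dim : Module.finrank ℝ (LinearMap.range P.toLinearMap) = 4

/-- An invariant inner product. -/
noncomputable def gl (P J : E →L[ℝ] E) (w : E) : E →L[ℝ] ℝ :=
  (innerSL ℝ (P w)).comp P + (innerSL ℝ (J w)).comp J

theorem gl_apply (w v : E) : gl P J w v = ⟪P w, P v⟫_ℝ + ⟪J w, J v⟫_ℝ := rfl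

theorem gl_symm (w v : E) : gl P J w v = gl P J v w := by
  simp only [gl_apply, real_inner_comm]

theorem Cx.jp (h : Cx P J) (v : E) : J (P v) = J v := by
  have h1 := h.jj (J v)
  rw [h.jj v, map_neg, h.pj] at h1
  exact neg_injective h1

theorem Cx.gJ (h : Cx P J) (w v : E) : gl P J w (J v) = -gl P J (J w) v := by
  simp only [gl_apply, h.pj, h.jj, inner_neg_left, inner_neg_right]
  ring

theorem Cx.gP (h : Cx P J) (w v : E) : gl P J w (P v) = gl P J w v := by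
  simp only [gl_apply, h.pp, h.jp]

theorem Cx.g0 (h : Cx P J) (w : E) : gl P J (J w) w = 0 := by
  have := h.gJ w w
  rw [gl_symm] at this
  linarith

theorem Cx.gJJ (h : Cx P J) (w v : E) : gl P J (J w) (J v) = gl P J w v := by
  rw [h.gJ, h.jj, gl_symm, map_neg, neg_neg, h.gP, gl_symm]

theorem gl_pos (hw : P w = w) (h0 : w ≠ 0) : 0 < gl P J w w := by
  rw [gl_apply, hw]
  exact add_pos_of_pos_of_nonneg (real_inner_self_pos.2 h0) real_inner_self_nonneg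

/-- The normal space. -/
def Nor (P J : E →L[ℝ] E) (τ v : E) : Prop := P v = v ∧ gl P J τ v = 0 ∧ gl P J (J τ) v = 0

/-- The projection to the normal space. -/
noncomputable def nrm (P J : E →L[ℝ] E) (τ : E) : E →L[ℝ] E :=
  P - (gl P J τ τ)⁻¹ • ((gl P J τ).smulRight τ + (gl P J (J τ)).smulRight (J τ))

theorem nrm_apply (v : E) : nrm P J τ v =
    P v - (gl P J τ τ)⁻¹ • (gl P J τ v • τ + gl P J (J τ) v • J τ) := rfl

theorem Nor.fix (h : Nor P J τ v) : nrm P J τ v = v := by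
  simp [nrm_apply, h.1, h.2.1, h.2.2]

theorem Cx.nor (h : Cx P J) (hτ : P τ = τ) (h0 : τ ≠ 0) (v : E) : Nor P J τ (nrm P J τ v) := by
  have := (gl_pos (J := J) hτ h0).ne'
  refine ⟨?_, ?_, ?_⟩ <;>
    simp only [nrm_apply, map_sub, map_smul, map_add, h.pp, h.pj, hτ, h.gP, h.gJJ, h.gJ τ τ, h.g0,
      smul_eq_mul] <;> field_simp <;> ring

theorem Nor.cmul (h : Cx P J) (hv : Nor P J τ v) (c : ℂ) : Nor P J τ (cmul J c v) := by
  refine ⟨?_, ?_, ?_⟩ <;>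
    simp [MP_1c0d65_gt.cmul, hv.1, hv.2.1, hv.2.2, h.pj, h.gJJ, h.gJ τ v]

theorem Nor.scale (h : Cx P J) (hv : Nor P J τ v) (c : ℂ) :
    Nor P J (MP_1c0d65_gt.cmul J c τ) v := by
  have a := hv.2.1
  have b := hv.2.2
  rw [gl_symm] at a b
  refine ⟨hv.1, ?_, ?_⟩ <;> rw [gl_symm] <;>
    simp [MP_1c0d65_gt.cmul, a, b, h.jj, h.gP]

theorem Cx.sq (h : Cx P J) (hv : P v = v) : J (J v) = -v := by rw [h.jj, hv]

theorem Cx.cmul_ne (h : Cx P J) (hv : P v = v) (h0 : v ≠ 0) {c : ℂ} (e : cmul J c v = 0) :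
    c = 0 := by
  by_contra hc
  have := D.cmul_mul (h.sq hv) c⁻¹ c
  rw [e, inv_mul_cancel₀ hc] at this
  exact h0 (by simpa [cmul] using this.symm)

theorem Cx.trans (h : Cx P J) (hτ : P τ = τ) (h0 : τ ≠ 0) (hv : Nor P J τ v) (v0 : v ≠ 0)
    (a b : ℂ) (e : cmul J a τ + cmul J b v = 0) : a = 0 ∧ b = 0 := by
  have n := hv.cmul h b
  have p := (gl_pos (J := J) hτ h0).ne'
  have e1 := congrArg (gl P J τ) e
  have e2 := congrArg (gl P J (J τ)) e
  rw [map_add, n.2.1, map_zero] at e1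
  rw [map_add, n.2.2, map_zero] at e2
  simp only [cmul, map_add, map_smul, h.gJJ, h.gJ τ τ, h.g0, smul_eq_mul, neg_zero, mul_zero,
    add_zero, zero_add, mul_eq_zero, p, or_false] at e1 e2
  have ha : a = 0 := Complex.ext e1 e2
  rw [ha, show cmul J 0 τ = 0 by simp [cmul], zero_add] at e
  exact ⟨ha, h.cmul_ne hv.1 v0 e⟩

variable [FiniteDimensional ℝ E]

theorem Cx.exists_nor (h : Cx P J) (τ : E) : ∃ v, nrm P J τ v ≠ 0 := by
  by_contra! H
  have : LinearMap.range P.toLinearMap ≤ Submodule.span ℝ (range ![τ, J τ]) := by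
    rintro _ ⟨v, rfl⟩
    have := H v
    rw [nrm_apply, sub_eq_zero] at this
    change P v ∈ _
    rw [this]
    exact Submodule.smul_mem _ _ (add_mem
      (Submodule.smul_mem _ _ (Submodule.subset_span ⟨0, rfl⟩))
      (Submodule.smul_mem _ _ (Submodule.subset_span ⟨1, rfl⟩)))
  have h1 := (Submodule.finrank_mono this).trans (finrank_range_le_card (R := ℝ) ![τ, J τ])
  rw [h.dim] at h1
  simp at h1

/-- The coefficient of `v` along `w`. -/
noncomputable def co (P J : E →L[ℝ] E) (w v : E) : ℂ :=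
  ((gl P J w w)⁻¹ * gl P J w v : ℝ) + ((gl P J w w)⁻¹ * gl P J (J w) v : ℝ) * I

theorem Cx.line (h : Cx P J) (hτ : P τ = τ) (h0 : τ ≠ 0) (hw : Nor P J τ w) (w0 : w ≠ 0)
    (hv : Nor P J τ v) : v = cmul J (co P J w v) w := by
  have e : nrm P J w v = v - cmul J (co P J w v) w := by
    simp only [nrm_apply, hv.1, cmul, co, smul_add, smul_smul]
    simp
  rw [← sub_eq_zero, ← e]
  by_contra hx
  have n1 := h.nor hw.1 w0 v
  have n2 : Nor P J τ (nrm P J w v) := by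
    have := hw.cmul h (co P J w v)
    rw [e]
    exact ⟨by rw [map_sub, hv.1, this.1], by rw [map_sub, hv.2.1, this.2.1, sub_zero],
      by rw [map_sub, hv.2.2, this.2.2, sub_zero]⟩
  generalize nrm P J w v = x at hx n1 n2
  have nJ : ∀ {y}, P y = y → y ≠ 0 → J y ≠ 0 := fun hy y0 e =>
    y0 (by simpa [e] using h.sq hy)
  let b : Fin 5 → E := ![τ, J τ, w, J w, x]
  have hb : ∀ i, P (b i) = b i ∧ b i ≠ 0 := by
    intro i
    fin_cases i
    exacts [⟨hτ, h0⟩, ⟨h.pj _, nJ hτ h0⟩, ⟨hw.1, w0⟩, ⟨h.pj _, nJ hw.1 w0⟩, ⟨n1.1, hx⟩]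
  have lt : ∀ i j, i < j → gl P J (b i) (b j) = 0 := by
    intro i j hij
    fin_cases i <;> fin_cases j <;> simp at hij <;>
      simp [b, h.gJ τ τ, h.gJ w w, h.g0, hw.2.1, hw.2.2, h.gJ τ w, h.gJJ, n1.2.1, n1.2.2, n2.2.1,
        n2.2.2]
  have li : LinearIndependent ℝ fun i => (⟨b i, b i, (hb i).1⟩ : LinearMap.range P.toLinearMap) := by
    refine Fintype.linearIndependent_iff.2 fun c hc i => ?_
    have h1 : ∑ j, c j • b j = 0 := by simpa using congrArg Subtype.val hc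
    have h2 := congrArg (gl P J (b i)) h1
    rw [map_sum, map_zero, Finset.sum_eq_single i (fun j _ hj => by
      rcases hj.lt_or_gt with l | l
      · rw [map_smul, gl_symm, lt _ _ l, smul_zero]
      · rw [map_smul, lt _ _ l, smul_zero]) (by simp), map_smul, smul_eq_mul] at h2
    exact (mul_eq_zero.1 h2).resolve_right (gl_pos (hb i).1 (hb i).2).ne'
  have := li.fintype_card_le_finrank
  rw [h.dim] at this
  simp at this

section Fam

variable {P J : ℂ → E →L[ℝ] E} {τ v w : ℂ → E} {z : ℂ}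

omit [FiniteDimensional ℝ E] in
theorem sm_gl (hP : ContDiffAt ℝ ∞ P z) (hJ : ContDiffAt ℝ ∞ J z) (hw : ContDiffAt ℝ ∞ w z)
    (hv : ContDiffAt ℝ ∞ v z) : ContDiffAt ℝ ∞ (fun z => gl (P z) (J z) (w z) (v z)) z :=
  ((hP.clm_apply hw).inner ℝ (hP.clm_apply hv)).add ((hJ.clm_apply hw).inner ℝ (hJ.clm_apply hv))

omit [FiniteDimensional ℝ E] in
theorem sm_cmul {c : ℂ → ℂ} (hJ : ContDiffAt ℝ ∞ J z) (hc : ContDiffAt ℝ ∞ c z)
    (hv : ContDiffAt ℝ ∞ v z) : ContDiffAt ℝ ∞ (fun z => cmul (J z) (c z) (v z)) z :=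
  ((Complex.reCLM.contDiff.contDiffAt.comp z hc).smul hv).add
    ((Complex.imCLM.contDiff.contDiffAt.comp z hc).smul (hJ.clm_apply hv))

/-- A smooth normal field that has no zero on a disc. -/
theorem exists_field (h : ∀ z, Cx (P z) (J z)) (hP : ContDiff ℝ ∞ P) (hJ : ContDiff ℝ ∞ J)
    (hτ : ContDiff ℝ ∞ τ) (h1 : ∀ z, P z (τ z) = τ z) (h0 : ∀ z, τ z ≠ 0) (R : ℝ) :
    ∃ ν : ℂ → E, ContDiff ℝ ∞ ν ∧ (∀ z, Nor (P z) (J z) (τ z) (ν z)) ∧ ∀ z, ‖z‖ ≤ R → ν z ≠ 0 := by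
  have hp : ContDiff ℝ ∞ fun z => nrm (P z) (J z) (τ z) := by
    refine contDiff_clm_apply_iff.2 fun v => contDiff_iff_contDiffAt.2 fun z => ?_
    have a := hP.contDiffAt (x := z)
    have b := hJ.contDiffAt (x := z)
    have c := hτ.contDiffAt (x := z)
    exact (a.clm_apply contDiffAt_const).sub (((sm_gl a b c c).inv (gl_pos (h1 z) (h0 z)).ne').smul
      (((sm_gl a b c contDiffAt_const).smul c).add
        ((sm_gl a b (b.clm_apply c) contDiffAt_const).smul (b.clm_apply c))))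
  obtain ⟨u, V, -, v2, -, v4, v5, v6⟩ := Top.exists_frame_idem (x := (0 : ℂ)) isOpen_univ
    (convex_univ.starConvex trivial) (isCompact_closedBall (0 : ℂ) R) (subset_univ _) hp.contDiffOn
    fun z _ => ContinuousLinearMap.ext fun v => ((h z).nor (h1 z) (h0 z) v).fix
  obtain ⟨v, hv⟩ := (h 0).exists_nor (τ 0)
  refine ⟨fun z => u z (nrm (P 0) (J 0) (τ 0) v), (contDiffOn_univ.1 v4).clm_apply contDiff_const,
    fun z => ?_, fun z hz e => hv ?_⟩
  · have := congrArg (fun L : E →L[ℝ] E => L v) (v6 z trivial)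
    simp only [mul_apply_eq_comp] at this
    have h2 := (h z).nor (h1 z) (h0 z) (u z v)
    rwa [this] at h2
  · obtain ⟨U, hU⟩ := v5 z (v2 (mem_closedBall_zero_iff.2 hz))
    have := congrArg (fun f : E →L[ℝ] E => f (nrm (P 0) (J 0) (τ 0) v)) U.inv_mul
    simpa only [mul_apply_eq_comp, hU, e, map_zero, one_apply_eq_self, eq_comm] using this

end Fam

end NFr

open NFr

variable {E : Type} [NormedAddCommGroup E] [InnerProductSpace ℝ E] [FiniteDimensional ℝ E]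

/-- An immersed sphere has a normal frame of some degree. -/
theorem Amb.exists_nframe (A : Amb E) {t : ℝ} {s : Sph2 E} (hs : A.HolS t s)
    (h0 : ContDiff ℝ ∞ s.u0) (h1 : ContDiff ℝ ∞ s.u1) (hi : s.Imm) :
    ∃ m : ℤ, Nonempty (A.NFrame t s m) := by
  obtain ⟨-, -, hK, c0, c1⟩ := hs
  have cx : ∀ e ∈ A.K, Cx (fderiv ℝ A.r e) (A.J (t, e)) := fun e he =>
    ⟨fun v => by
      have := D.tangent A (u := A.r) ((D.r_at A (A.sub he)).differentiableAt (by simp))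
        (mem_of_superset (A.opW.mem_nhds (A.sub he)) A.rK) v
      rwa [A.rid e he] at this, A.tan t e he, A.sq t e he, A.dim e he⟩
  have fld : ∀ u : ℂ → E, ContDiff ℝ ∞ u → (∀ z, u z ∈ A.K) → (∀ z, fderiv ℝ u z 1 ≠ 0) →
      ContDiff ℝ ∞ (fun z => fderiv ℝ A.r (u z)) ∧ ContDiff ℝ ∞ (fun z => A.J (t, u z)) ∧
      (∀ z, fderiv ℝ A.r (u z) (fderiv ℝ u z 1) = fderiv ℝ u z 1) ∧
      ∃ ν : ℂ → E, ContDiff ℝ ∞ ν ∧
        (∀ z, Nor (fderiv ℝ A.r (u z)) (A.J (t, u z)) (fderiv ℝ u z 1) (ν z)) ∧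
        ∀ z, ‖z‖ ≤ 2 → ν z ≠ 0 := by
    intro u hu hk hn
    have a : ContDiff ℝ ∞ fun z => fderiv ℝ A.r (u z) := contDiff_iff_contDiffAt.2 fun z =>
      ((D.r_at A (A.sub (hk z))).fderiv_right (by simp)).comp z hu.contDiffAt
    have b : ContDiff ℝ ∞ fun z => A.J (t, u z) := contDiff_iff_contDiffAt.2 fun z =>
      (D.J_at A t (A.sub (hk z))).comp (f := fun z => (t, u z)) z
        (contDiffAt_const.prodMk hu.contDiffAt)
    have c := fun z => D.tangent A (hu.differentiable (by simp) z) (.of_forall hk) 1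
    exact ⟨a, b, c, exists_field (fun z => cx _ (hk z)) a b
      ((hu.fderiv_right (by simp)).clm_apply contDiff_const) c hn 2⟩
  have k0 : ∀ z, s.u0 z ∈ A.K := fun z => hK (Or.inl ⟨z, rfl⟩)
  have k1 : ∀ z, s.u1 z ∈ A.K := fun z => hK (Or.inr ⟨z, rfl⟩)
  obtain ⟨p0, j0, t0, ν0, s0, n0, z0⟩ := fld _ h0 k0 hi.1
  obtain ⟨p1, j1, t1, ν1, s1, n1, z1⟩ := fld _ h1 k1 hi.2
  have cp' : ∀ z, z ≠ 0 → s.u0 z = s.u1 z⁻¹ := fun z hz => by
    rw [s.compat _ (inv_ne_zero hz), inv_inv]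
  have sw : ∀ {u u' : ℂ → E}, ContDiff ℝ ∞ u → (∀ z, u z ∈ A.K) →
      (∀ z, CR (fun e => A.J (t, e)) u z) → (∀ z, z ≠ 0 → u' z = u z⁻¹) → ∀ z, z ≠ 0 → ∀ v,
      Nor (fderiv ℝ A.r (u z⁻¹)) (A.J (t, u z⁻¹)) (fderiv ℝ u z⁻¹ 1) v →
      Nor (fderiv ℝ A.r (u' z)) (A.J (t, u' z)) (fderiv ℝ u' z 1) v := by
    intro u u' hu hk hc e z hz v hv
    rw [D.fderiv_inv_comp hz (hu.differentiable (by simp) _)
      (mem_of_superset (isOpen_ne.mem_nhds hz) e), ← D.cmul_cr (hc z⁻¹), e z hz]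
    exact hv.scale (cx _ (hk _)) _
  have n01 := fun z hz => sw h0 k0 c0 s.compat z hz _ (n0 z⁻¹)
  have inv_lt : ∀ {z : ℂ} {r : ℝ}, 0 < r → r⁻¹ < ‖z‖ → z ≠ 0 ∧ ‖z⁻¹‖ < r := fun hr h =>
    have := (inv_pos.2 hr).trans h
    ⟨norm_pos_iff.1 this, by rw [norm_inv]; exact inv_lt_of_inv_lt₀ hr h⟩
  have si : ∀ {z : ℂ}, z ≠ 0 → ContDiffAt ℝ ∞ (fun w : ℂ => w⁻¹) z := fun hz =>
    (contDiffAt_inv ℂ hz).restrict_scalars ℝ
  have sz : ∀ {z : ℂ} (k : ℤ), z ≠ 0 → ContDiffAt ℝ ∞ (fun w : ℂ => w ^ k) z := fun k hz =>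
    ((analyticAt_id (𝕜 := ℂ)).zpow hz).contDiffAt.restrict_scalars ℝ
  let g : ℂ → ℂ := fun z => co (fderiv ℝ A.r (s.u1 z)) (A.J (t, s.u1 z)) (ν0 z⁻¹) (ν1 z)
  have hg : ∀ z : ℂ, ‖z‖ ∈ Ioo (2⁻¹ : ℝ) 2 → ContDiffAt ℝ ∞ g z ∧
      ν1 z = cmul (A.J (t, s.u1 z)) (g z) (ν0 z⁻¹) := by
    intro z hz
    obtain ⟨a, b⟩ := inv_lt two_pos hz.1
    have c := s0.contDiffAt.comp z (si a)
    have d := (sm_gl p1.contDiffAt j1.contDiffAt c c).inv (gl_pos (n01 z a).1 (z0 _ b.le)).ne'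
    exact ⟨(Complex.ofRealCLM.contDiff.contDiffAt.comp z (d.mul (sm_gl p1.contDiffAt j1.contDiffAt
      c s1.contDiffAt))).add ((Complex.ofRealCLM.contDiff.contDiffAt.comp z (d.mul
        (sm_gl p1.contDiffAt j1.contDiffAt (j1.contDiffAt.clm_apply c) s1.contDiffAt))).mul
          contDiffAt_const), (cx _ (k1 z)).line (t1 z) (hi.2 z) (n01 z a) (z0 _ b.le) (n1 z)⟩
  obtain ⟨k, l, hl⟩ := W.ann_log (a := 0) (f := g) (S := Ioo 2⁻¹ 2) ordConnected_Ioo isOpen_Ioo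
    (fun r hr => lt_trans (by norm_num) hr.1) ⟨1, by norm_num⟩ fun z hz => by
      rw [sub_zero] at hz
      refine ⟨(hg z hz).1.continuousAt, fun e => z1 z hz.2.le ?_⟩
      rw [(hg z hz).2, e]
      simp [cmul]
  simp only [sub_zero] at hl
  have mem : ∀ z ∈ ball (0 : ℂ) 2 ∩ (closedBall 0 2⁻¹)ᶜ, ‖z‖ ∈ Ioo (2⁻¹ : ℝ) 2 := fun z hz =>
    ⟨by simpa using hz.2, by simpa using hz.1⟩
  have sl : ContDiffOn ℝ ∞ l (ball 0 2 ∩ (closedBall 0 2⁻¹)ᶜ) :=
    Top.contDiffOn_of_exp_eq (g := fun z => z ^ (-k) * g z)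
      (fun z hz => (hl z (mem z hz)).1.continuousWithinAt) (fun z hz => by
        rw [(hl z (mem z hz)).2, zpow_neg, inv_mul_cancel_left₀
          (zpow_ne_zero _ (inv_lt two_pos (mem z hz).1).1)])
      fun z hz => ((sz _ (inv_lt two_pos (mem z hz).1).1).mul (hg z (mem z hz)).1).contDiffWithinAt
  let χ : ContDiffBump (0 : ℂ) := ⟨5 / 8, 3 / 4, by norm_num, by norm_num⟩
  have hχ : tsupport (fun z => 1 - χ z) ⊆ (ball (0 : ℂ) (5 / 8))ᶜ :=
    closure_minimal (fun z hz h => hz (sub_eq_zero.2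
      (χ.one_of_mem_closedBall (ball_subset_closedBall h)).symm)) isOpen_ball.isClosed_compl
  have sL : ContDiffOn ℝ ∞ (fun z => (1 - χ z) • l z) (ball 0 2) :=
    Top.contDiffOn_cut isOpen_ball isClosed_closedBall.isOpen_compl (contDiff_const.sub χ.contDiff)
      (hχ.trans (compl_subset_compl.2 (closedBall_subset_ball (by norm_num)))) sl
  let F : ℂ → E := fun z => cmul (A.J (t, s.u1 z)) (Complex.exp (-((1 - χ z) • l z))) (ν1 z)
  have sF : ∀ z : ℂ, ‖z‖ < 2 → ContDiffAt ℝ ∞ F z := fun z hz =>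
    sm_cmul j1.contDiffAt (sL.contDiffAt (isOpen_ball.mem_nhds (mem_ball_zero_iff.2 hz))).neg.cexp
      s1.contDiffAt
  have nF : ∀ z, Nor _ _ _ (F z) := fun z => (n1 z).cmul (cx _ (k1 z)) _
  have zF : ∀ z : ℂ, ‖z‖ ≤ 2 → F z ≠ 0 := fun z hz e =>
    Complex.exp_ne_zero _ ((cx _ (k1 z)).cmul_ne (n1 z).1 (z1 z hz) e)
  have key : ∀ z : ℂ, 3 / 4 < ‖z‖ → ‖z‖ < 2 → F z = cmul (A.J (t, s.u1 z)) (z ^ k) (ν0 z⁻¹) := by
    intro z a b
    have m : ‖z‖ ∈ Ioo (2⁻¹ : ℝ) 2 := ⟨by linarith, b⟩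
    have : χ z = 0 := χ.zero_of_le_dist (by simpa using a.le)
    simp only [F, this, sub_zero, one_smul]
    rw [(hg z m).2, D.cmul_mul ((cx _ (k1 z)).sq (n01 z (inv_lt two_pos m.1).1).1), (hl z m).2,
      Complex.exp_neg, mul_left_comm, inv_mul_cancel₀ (Complex.exp_ne_zero _), mul_one]
  have one : ∀ (J : E →L[ℝ] E) v, cmul J 1 v = v := fun J v => by simp [cmul]
  have n10 := fun z hz => sw h1 k1 c1 cp' z hz _ (nF z⁻¹)
  let m0 : ℂ → E := fun w => if ‖w‖ < 1 then ν0 w else cmul (A.J (t, s.u0 w)) (w ^ k) (F w⁻¹)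
  let m1 : ℂ → E := fun z => if ‖z‖ ≤ 1 then F z else cmul (A.J (t, s.u1 z)) (z ^ k) (ν0 z⁻¹)
  have N0 : ∀ w, Nor (fderiv ℝ A.r (s.u0 w)) (A.J (t, s.u0 w)) (fderiv ℝ s.u0 w 1) (m0 w) ∧
      m0 w ≠ 0 := fun w => by
    simp only [m0]
    split_ifs with h
    · exact ⟨n0 w, z0 w (by linarith)⟩
    · obtain ⟨a, b⟩ := inv_lt (z := w) two_pos (by linarith)
      exact ⟨(n10 w a).cmul (cx _ (k0 w)) _, fun e =>
        zpow_ne_zero _ a ((cx _ (k0 w)).cmul_ne (n10 w a).1 (zF _ b.le) e)⟩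
  have N1 : ∀ w, Nor (fderiv ℝ A.r (s.u1 w)) (A.J (t, s.u1 w)) (fderiv ℝ s.u1 w 1) (m1 w) ∧
      m1 w ≠ 0 := fun w => by
    simp only [m1]
    split_ifs with h
    · exact ⟨nF w, zF w (by linarith)⟩
    · obtain ⟨a, b⟩ := inv_lt (z := w) two_pos (by linarith)
      exact ⟨(n01 w a).cmul (cx _ (k1 w)) _, fun e =>
        zpow_ne_zero _ a ((cx _ (k1 w)).cmul_ne (n01 w a).1 (z0 _ b.le) e)⟩
  have op : ∀ {r : ℝ} {z : ℂ}, ‖z‖ < r → ∀ᶠ w : ℂ in 𝓝 z, ‖w‖ < r := fun h =>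
    continuous_norm.continuousAt.eventually_lt continuousAt_const h
  have op' : ∀ {z : ℂ}, 1 < ‖z‖ → ∀ᶠ w : ℂ in 𝓝 z, 1 < ‖w‖ := fun h =>
    continuousAt_const.eventually_lt continuous_norm.continuousAt h
  refine ⟨-k, ⟨⟨m0, m1, contDiff_iff_contDiffAt.2 fun w => ?_, contDiff_iff_contDiffAt.2 fun w => ?_,
    fun w => (N0 w).1.1, fun w => (N1 w).1.1,
    fun w => (cx _ (k0 w)).trans (t0 w) (hi.1 w) (N0 w).1 (N0 w).2,
    fun w => (cx _ (k1 w)).trans (t1 w) (hi.2 w) (N1 w).1 (N1 w).2, fun z hz => ?_⟩⟩⟩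
  · by_cases h : 1 < ‖w‖
    · obtain ⟨a, b⟩ := inv_lt (z := w) two_pos (by linarith)
      refine (sm_cmul j0.contDiffAt (sz k a) ((sF _ b).comp w (si a))).congr_of_eventuallyEq ?_
      filter_upwards [op' h] with y hy using if_neg (by linarith)
    · refine s0.contDiffAt.congr_of_eventuallyEq ?_
      filter_upwards [op (show ‖w‖ < 4 / 3 by linarith)] with y hy
      simp only [m0]
      split_ifs with h'
      · rfl
      · obtain ⟨a, b⟩ := inv_lt (z := y) two_pos (by linarith)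
        rw [key _ (by rw [norm_inv, lt_inv_comm₀ (by norm_num) (by linarith)]; linarith) b, inv_inv,
          ← cp' y a, D.cmul_mul ((cx _ (k0 y)).sq (n0 y).1), inv_zpow,
          mul_inv_cancel₀ (zpow_ne_zero _ a), one]
  · by_cases h : 1 < ‖w‖
    · obtain ⟨a, b⟩ := inv_lt (z := w) two_pos (by linarith)
      refine (sm_cmul j1.contDiffAt (sz k a) (s0.contDiffAt.comp w (si a))).congr_of_eventuallyEq ?_
      filter_upwards [op' h] with y hy using if_neg (by linarith)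
    · refine (sF w (by linarith)).congr_of_eventuallyEq ?_
      filter_upwards [op (show ‖w‖ < 2 by linarith)] with y hy
      simp only [m1]
      split_ifs with h'
      exacts [rfl, (key y (by linarith) hy).symm]
  · have e : ‖z⁻¹‖ < 1 ↔ ¬ ‖z‖ ≤ 1 := by
      rw [norm_inv, inv_lt_one₀ (norm_pos_iff.2 hz), not_le]
    simp only [m0, m1, e, inv_zpow', neg_neg, inv_inv]
    split_ifs with h
    · rw [← s.compat z hz, D.cmul_mul ((cx _ (k1 z)).sq (nF z).1), zpow_neg,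
        mul_inv_cancel₀ (zpow_ne_zero _ hz), one]
    · rfl

end Pool.Agent.Lib.MP_1c0d65_gt
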