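import Pool.Agent.Lib.MP_1c0d65_gt.D.Ans
import Pool.Agent.Lib.MP_1c0d65_gt.Hol.Cpt
import Pool.Agent.Lib.MP_1c0d65_gt.Hol.Nem

/-! The implicit function theorem on the sphere, from the linear ansatz. -/

set_option autoImplicit false

open scoped ContDiff Topology ComplexConjugate
open Filter Set Metric

noncomputable section

namespace Pool.Agent.Lib.MP_1c0d65_gt.D

/-- The vanishing theorem for sections of `O(k - 1)` with `k` zeros. -/
def ZeroThm (k : ℕ) (pt : Fin k → ℂ) : Prop :=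
  ∀ (η : Bool → ℂ → ℂ) (K : ℝ), (∀ c, ContDiff ℝ 1 (η c)) →
    (∀ c w, w ≠ 0 → η (!c) w = w ^ k * w⁻¹ * η c w⁻¹) →
    (∀ c w, ‖w‖ ≤ 2 → ‖A.db (fderiv ℝ (η c) w)‖ ≤ K * ‖η c w‖) → (∀ i, η false (pt i) = 0) →
    ∀ c w, η c w = 0

/-- The antilinear part as a continuous linear map. -/
def dbL : (ℂ →L[ℝ] F) →L[ℝ] F :=
  LinearMap.mkContinuous ⟨⟨A.db, A.db_add⟩, fun c L => by
    simp only [A.db, smul_apply, RingHom.id_apply, smul_add, smul_comm c]⟩ 1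
    fun L => by rw [one_mul]; exact A.norm_db_le L

theorem dbL_apply (L : ℂ →L[ℝ] F) : dbL L = A.db L := rfl

/-- The system without its principal part. -/
def low (N : Jet → F) (j : Jet) : F := N j - A.db j.2.2.2

/-- The projection of a jet to its differential, followed by the antilinear part. -/
def dbJ : Jet →L[ℝ] F :=
  dbL ∘L .snd ℝ F (ℂ →L[ℝ] F) ∘L .snd ℝ ℂ (F × (ℂ →L[ℝ] F)) ∘L .snd ℝ ℝ _

/-- The normal component as a jet. -/
def nrm : F →L[ℝ] Jet :=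
  .inr ℝ ℝ _ ∘L .inr ℝ ℂ _ ∘L .inl ℝ F (ℂ →L[ℝ] F) ∘L .inr ℝ ℂ ℂ ∘L .snd ℝ ℂ ℂ

theorem nrm_apply (x : F) : nrm x = (0, 0, (0, x.2), 0) := rfl

theorem norm_nrm (x : F) : ‖nrm x‖ = ‖x.2‖ := by simp [nrm_apply, Prod.norm_def]

theorem mem_Dk {z : ℂ} : z ∈ Dk ↔ ‖z‖ ≤ 2 := mem_closedBall_zero_iff

theorem gm_smul (k : ℕ) (w a : ℂ) (x : F) : gm k w (a • x) = a • gm k w x :=
  Prod.ext (by simp [gm, mul_left_comm]) (by simp [gm, mul_left_comm])

theorem gm_rsmul (k : ℕ) (w : ℂ) (a : ℝ) (x : F) : gm k w (a • x) = a • gm k w x :=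
  gm_smul k w a x

theorem gm_sub (k : ℕ) (w : ℂ) (x y : F) : gm k w (x - y) = gm k w x - gm k w y :=
  Prod.ext (by simp [gm, mul_sub]) (by simp [gm, mul_sub])

theorem gm_gm (k : ℕ) {w : ℂ} (hw : w ≠ 0) (x : F) : gm k w (gm k w⁻¹ x) = x :=
  Prod.ext (by simp only [gm]; field_simp) (by simp only [gm, inv_pow, inv_inv]; field_simp)

variable {k : ℕ} {t0 : ℝ} {N : Bool → Jet → F} {pt : Fin k → ℂ}

theorem Sys.low_smooth (h : Sys k t0 N) (c : Bool) {z : ℂ} (hz : ‖z‖ ≤ 2) :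
    ContDiffAt ℝ ∞ (low (N c)) (t0, z, 0, 0) := (h.smooth c z hz).sub dbJ.contDiff.contDiffAt

theorem Sys.low_fderiv (h : Sys k t0 N) (c : Bool) {z : ℂ} (hz : ‖z‖ ≤ 2) (x : F)
    (L : ℂ →L[ℝ] F) : fderiv ℝ (low (N c)) (t0, z, 0, 0) (0, 0, x, L) =
      fderiv ℝ (low (N c)) (t0, z, 0, 0) (nrm x) := by
  have h1 := ((h.smooth c z hz).differentiableAt (by simp)).hasFDerivAt.sub
    (dbJ.hasFDerivAt (x := (t0, z, 0, 0)))
  have e : fderiv ℝ (low (N c)) (t0, z, 0, 0) = _ := h1.fderiv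
  have e2 : ((0, 0, x, L) : Jet) = (0, 0, (x.1, 0), L) + nrm x := by simp [nrm_apply]
  rw [e2, map_add, add_eq_right, e, sub_apply, h.lin c z hz]
  exact sub_self _

namespace Ans

variable (S : Ans k pt)

theorem diff (u : Z k) (c : Bool) : Differentiable ℝ (S.xi u c) :=
  (S.c1 u c).differentiable one_ne_zero

theorem isHol_xi {a : ℝ} (ha : 0 ≤ a) (ha1 : a ≤ 1) (u : Z k) (c : Bool) :
    IsHol a fun z : Dk => S.xi u c z.1 :=
  IsHol.of_contDiffAt ha ha1 (isCompact_closedBall _ _) fun _ _ => (S.c1 u c).contDiffAt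

/-- The values on the disc. -/
def val (c : Bool) : Z k →L[ℝ] H :=
  Hol.liftC ⟨⟨fun u z => S.xi u c z.1, fun u v => funext fun z => by simp⟩,
    fun a u => funext fun z => by simp⟩ (fun u => S.isHol_xi (by norm_num) (by norm_num) u c)
    fun z => S.cont c z.1

theorem val_apply (c : Bool) (u : Z k) (z : Dk) : S.val c u z = S.xi u c z.1 := rfl

/-- The differentials on the disc. -/
def der (c : Bool) : Z k →L[ℝ] Hol (1 / 2) Dk (ℂ →L[ℝ] F) :=
  Hol.liftC ⟨⟨fun u z => fderiv ℝ (S.xi u c) z.1, fun u v => funext fun z => by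
      rw [map_add, Pi.add_apply, fderiv_add (S.diff u c _) (S.diff v c _)]; rfl⟩,
    fun a u => funext fun z => by
      change fderiv ℝ (S.xi (a • u) c) z.1 = a • fderiv ℝ (S.xi u c) z.1
      rw [map_smul, Pi.smul_apply, fderiv_const_smul (S.diff u c _)]⟩ (fun u => S.hol u c)
    fun z => S.cont' c z.1

theorem der_apply (c : Bool) (u : Z k) (z : Dk) : S.der c u z = fderiv ℝ (S.xi u c) z.1 := rfl

/-- The values at the marked points. -/
def ev : Z k →L[ℝ] Fin k → F where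
  toFun u i := S.xi u false (pt i)
  map_add' u v := funext fun i => by simp
  map_smul' a u := funext fun i => by simp
  cont := continuous_pi fun i => S.cont false (pt i)

theorem ev_apply (u : Z k) (i : Fin k) : S.ev u i = S.xi u false (pt i) := rfl

theorem val_compact (c : Bool) : IsCompactOperator (S.val c) :=
  Hol.isCompactOperator_of_isHol (b := 1) (by norm_num) (by norm_num) isCompact_univ _
    (fun _ x h => absurd (mem_univ x) h) fun u => S.isHol_xi zero_le_one le_rfl u c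

/-- The linear part of the jet. -/
def JL (c : Bool) : (ℝ × (Fin k → F)) × Z k →L[ℝ] Hol (1 / 2) Dk Jet :=
  Hol.pairL ∘L (Hol.constL ∘L .fst ℝ _ _ ∘L .fst ℝ _ _).prod (Hol.pairL ∘L
    (0 : _ →L[ℝ] Hol (1 / 2) Dk ℂ).prod (Hol.pairL ∘L ((S.val c).prod (S.der c)) ∘L .snd ℝ _ _))

theorem JL_apply (c : Bool) (v : (ℝ × (Fin k → F)) × Z k) (z : Dk) :
    S.JL c v z = (v.1.1, 0, S.xi v.2 c z.1, fderiv ℝ (S.xi v.2 c) z.1) := by
  simp [JL, val_apply, der_apply]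

/-- The position in the disc. -/
def j0 : Hol (1 / 2) Dk Jet :=
  Hol.mk (fun z => (0, z.1, 0, 0)) (IsHol.of_contDiffAt (f := fun z : ℂ => ((0, z, 0, 0) : Jet))
    (by norm_num) (by norm_num) (isCompact_closedBall _ _) fun _ _ => by fun_prop)

theorem jet_apply (c : Bool) (v : (ℝ × (Fin k → F)) × Z k) (z : Dk) :
    (j0 + S.JL c v) z = (v.1.1, z.1, S.xi v.2 c z.1, fderiv ℝ (S.xi v.2 c) z.1) := by
  simp [JL_apply, j0]

theorem jet_zero (c : Bool) (t : ℝ) (z : Dk) : (j0 + S.JL c ((t, 0), 0)) z = (t, z.1, 0, 0) := by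
  rw [jet_apply, map_zero]
  exact congrArg (fun L => (t, z.1, (0 : F), L)) (fderiv_const_apply 0)

theorem ρ_le (z : ℂ) : S.ρ z ≤ 1 := by
  rcases eq_or_ne z 0 with rfl | h
  · exact (S.ρ1 0 (by simp)).le
  · linarith [S.ρs z h, S.ρ0 z⁻¹]

theorem norm_cut (θ : Dk → F) {z : ℂ} (h : z ∈ Dk) : ‖(cut0 S.ρ θ z).2‖ ≤ ‖θ ⟨z, h⟩‖ := by
  rw [cut0_of_mem _ _ h, Prod.smul_snd, norm_smul, Real.norm_of_nonneg (S.ρ0 z)]
  exact (mul_le_of_le_one_left (norm_nonneg _) (S.ρ_le z)).trans (norm_snd_le _)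

/-- The linearised problem has only the zero solution. -/
theorem ker (hz : ZeroThm k pt) {u : Z k} {K : ℝ} (hK : 0 ≤ K)
    (h : ∀ c (z : Dk), ‖u.1 c z‖ ≤ K * ‖(S.xi u c z.1).2‖) (h0 : S.ev u = 0) : u = 0 := by
  have tr2 : ∀ c w, w ≠ 0 → (S.xi u (!c) w).2 = w ^ k * w⁻¹ * (S.xi u c w⁻¹).2 :=
    fun c w hw => by rw [S.tr u c w hw]; rfl
  have h1 := hz (fun c w => (S.xi u c w).2) (5 * K) (fun c => (S.c1 u c).snd) tr2
    (fun c w hw => ?_) fun i => congrArg Prod.snd (congrFun h0 i)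
  · have h2 : u.1 = 0 := funext fun c => Hol.ext fun z => norm_le_zero_iff.1 (by
      simpa [h1 c z.1] using h c z)
    have h3 : u = (0, u.2) := Prod.ext h2 rfl
    refine Prod.ext h2 (S.poly u.2 fun i => ?_)
    rw [← h3]
    exact congrFun h0 i
  have e : A.db (fderiv ℝ (fun w => (S.xi u c w).2) w) = (A.db (fderiv ℝ (S.xi u c) w)).2 := by
    rw [(S.diff u c w).hasFDerivAt.snd.fderiv]; rfl
  have a1 := (S.norm_cut (u.1 c) (mem_Dk.2 hw)).trans (h c _)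
  have a2 : ‖(((conj w)⁻¹ ^ 2) • gm k w (cut0 S.ρ (u.1 (!c)) w⁻¹)).2‖ ≤
      4 * K * ‖(S.xi u c w).2‖ := by
    rcases eq_or_ne w 0 with rfl | w0
    · simp only [map_zero, inv_zero, ne_eq, OfNat.ofNat_ne_zero, not_false_eq_true, zero_pow,
        zero_smul, Prod.snd_zero, norm_zero]
      positivity
    by_cases hm : w⁻¹ ∈ Dk
    · have b1 := (S.norm_cut (u.1 (!c)) hm).trans (h (!c) _)
      have b2 := tr2 (!c) w w0
      rw [Bool.not_not] at b2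
      have b3 : ‖w‖⁻¹ ≤ 2 := norm_inv w ▸ mem_Dk.1 hm
      rw [b2, Prod.smul_snd, norm_smul, norm_pow, norm_inv, Complex.norm_conj, gm, norm_mul,
        norm_mul (w ^ k * w⁻¹)]
      calc _ ≤ 2 ^ 2 * (‖w ^ k * w⁻¹‖ * (K * ‖(S.xi u (!c) w⁻¹).2‖)) := by gcongr
        _ = _ := by ring
    · have : cut0 S.ρ (u.1 (!c)) w⁻¹ = 0 := dif_neg hm
      simp only [this, gm, Prod.fst_zero, Prod.snd_zero, mul_zero, Prod.smul_snd, smul_zero,
        norm_zero]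
      positivity
  rw [e, S.db, Prod.snd_sub]
  refine (norm_sub_le _ _).trans ?_
  linarith

/-- The fixed point equation on the two discs gives the system. -/
theorem eq_zero {u : Z k} {n : Bool → ℂ → F} {c : Bool} {w : ℂ} (hw : ‖w‖ ≤ 1)
    (h : ∀ c (z : Dk), u.1 c z + (n c z.1 - A.db (fderiv ℝ (S.xi u c) z.1)) = 0)
    (hn : 2⁻¹ ≤ ‖w‖ → n c w = -((conj w)⁻¹ ^ 2) • gm k w (n (!c) w⁻¹)) : n c w = 0 := by
  have hw2 : w ∈ Dk := mem_Dk.2 (hw.trans one_le_two)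
  have e1 := h c ⟨w, hw2⟩
  have d1 := S.db u c w
  rw [cut0_of_mem _ _ hw2] at d1
  rcases eq_or_ne w 0 with rfl | w0
  · rw [S.ρ1 0 (by simp)] at d1
    simpa [d1] using e1
  by_cases hm : w⁻¹ ∈ Dk
  · have b3 : ‖w‖⁻¹ ≤ 2 := norm_inv w ▸ mem_Dk.1 hm
    have c0 : conj w ≠ 0 := (map_ne_zero _).2 w0
    have e2 := h (!c) ⟨w⁻¹, hm⟩
    have d2 := S.db u (!c) w⁻¹
    rw [Bool.not_not, inv_inv, cut0_of_mem _ _ hw2, cut0_of_mem _ _ hm, map_inv₀, inv_inv] at d2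
    rw [cut0_of_mem _ _ hm, gm_rsmul] at d1
    have e3 := hn ((inv_le_comm₀ (norm_pos_iff.2 w0) two_pos).1 b3)
    have e4 : n (!c) w⁻¹ = A.db (fderiv ℝ (S.xi u (!c)) w⁻¹) - u.1 (!c) ⟨w⁻¹, hm⟩ := by
      rw [← sub_eq_zero, ← e2]; abel
    have e5 : n c w = A.db (fderiv ℝ (S.xi u c) w) - u.1 c ⟨w, hw2⟩ := by
      rw [← sub_eq_zero, ← e1]; abel
    rw [e4, d2, gm_sub, gm_sub, gm_smul, gm_gm k w0, gm_rsmul] at e3
    have r := S.ρs w w0
    generalize gm k w (u.1 (!c) ⟨w⁻¹, hm⟩) = y at d1 e3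
    generalize u.1 c ⟨w, hw2⟩ = x at d1 e3 e5
    have e6 : x = -((conj w)⁻¹ ^ 2) • y := by
      rw [e5, d1, smul_sub, smul_sub, smul_smul, neg_mul, ← mul_pow, inv_mul_cancel₀ c0] at e3
      rw [← sub_eq_zero, ← sub_eq_zero.2 e3.symm]
      module
    rw [e5, d1, e6, ← sub_eq_iff_eq_add.2 r.symm]
    module
  · have : cut0 S.ρ (u.1 (!c)) w⁻¹ = 0 := dif_neg hm
    have b : ‖w‖ ≤ 2⁻¹ := by
      rw [mem_Dk, not_le, norm_inv] at hm
      exact ((lt_inv_comm₀ two_pos (norm_pos_iff.2 w0)).1 hm).le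
    rw [this, S.ρ1 w b] at d1
    simpa [d1, gm, Prod.mk_zero_zero] using e1

end Ans

end Pool.Agent.Lib.MP_1c0d65_gt.D
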