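import Pool.Agent.Lib.MP_1c0d65_gt.D.SolveA

/-! The implicit function theorem on the sphere, from the linear ansatz: the nonlinear part. -/

set_option autoImplicit false

open scoped ContDiff Topology ComplexConjugate
open Filter Set Metric

noncomputable section

namespace Pool.Agent.Lib.MP_1c0d65_gt.D

variable {k : ℕ} {t0 : ℝ} {N : Bool → Jet → F} {pt : Fin k → ℂ}

/-- The parameters: time and the prescribed values. -/
abbrev Par (k : ℕ) : Type := ℝ × (Fin k → F)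

namespace Ans

variable (S : Ans k pt)

/-- The jet of the section. -/
def jet (c : Bool) (v : Par k × Z k) : Hol (1 / 2) Dk Jet := j0 + S.JL c v

theorem loc (h : Sys k t0 N) (c : Bool) :
    (∀ᶠ g in 𝓝 (S.jet c ((t0, 0), 0)), ∀ z, Hol.nem (low (N c)) g z = low (N c) (g z)) ∧
    (∀ z, Hol.nem (fderiv ℝ (low (N c))) (S.jet c ((t0, 0), 0)) z =
      fderiv ℝ (low (N c)) (t0, z.1, 0, 0)) ∧
    HasStrictFDerivAt (Hol.nem (low (N c)) : Hol (1 / 2) Dk Jet → H)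
      (Hol.appL (Hol.nem (fderiv ℝ (low (N c))) (S.jet c ((t0, 0), 0)))) (S.jet c ((t0, 0), 0)) := by
  obtain ⟨h1, -, h2, h3⟩ := Hol.nem_local (Φ := low (N c))
    (U := {j | ContDiffAt ℝ 4 (low (N c)) j})
    (K := (fun z : ℂ => ((t0, z, 0, 0) : Jet)) '' Dk) (f := S.jet c ((t0, 0), 0))
    (isOpen_iff_mem_nhds.2 fun _ hj => ContDiffAt.eventually hj (by decide))
    ((isCompact_closedBall _ _).image (by fun_prop))
    (by rintro _ ⟨z, hz, rfl⟩; exact contDiffAt_infty.1 (h.low_smooth c (mem_Dk.1 hz)) 4)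
    (fun _ hj => ContDiffAt.contDiffWithinAt hj) fun z => ⟨z.1, z.2, (S.jet_zero c t0 z).symm⟩
  exact ⟨h1.mono fun g hg z => (hg z).2, fun z => by rw [h2, jet, S.jet_zero], h3⟩

/-- The equation. -/
def eqn (N : Bool → Jet → F) (v : Par k × Z k) : Z k :=
  (fun c => v.2.1 c + Hol.nem (low (N c)) (S.jet c v), S.ev v.2 - v.1.2)

/-- The density of the chart `c`. -/
def dens (k : ℕ) (c : Bool) : Par k × Z k →L[ℝ] H :=
  (.proj c : (Bool → H) →L[ℝ] H) ∘L .fst ℝ _ _ ∘L .snd ℝ _ _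

/-- The values at the marked points, minus the prescribed values. -/
def evd : Par k × Z k →L[ℝ] Fin k → F := S.ev ∘L .snd ℝ _ _ - .snd ℝ _ _ ∘L .fst ℝ _ _

/-- The linearised equation. -/
def lin (M : Bool → Hol (1 / 2) Dk (Jet →L[ℝ] F)) : Par k × Z k →L[ℝ] Z k :=
  (ContinuousLinearMap.pi fun c => dens k c + Hol.appL (M c) ∘L S.JL c).prod S.evd

theorem strict (h : Sys k t0 N) : HasStrictFDerivAt (S.eqn N)
    (S.lin fun c => Hol.nem (fderiv ℝ (low (N c))) (S.jet c ((t0, 0), 0))) ((t0, 0), 0) :=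
  HasStrictFDerivAt.prodMk (hasStrictFDerivAt_pi.2 fun c => (dens k c).hasStrictFDerivAt.add
    ((S.loc h c).2.2.comp _ ((S.JL c).hasStrictFDerivAt.const_add j0))) S.evd.hasStrictFDerivAt

/-- The compact part of the linearised equation on one chart. -/
def Kc (M : Hol (1 / 2) Dk (Jet →L[ℝ] F)) (c : Bool) : Z k →L[ℝ] H :=
  (Hol.appL M ∘L Hol.mapL nrm) ∘L S.val c

theorem Kc_apply (M : Hol (1 / 2) Dk (Jet →L[ℝ] F)) (c : Bool) (u : Z k) (z : Dk) :
    S.Kc M c u z = M z (nrm (S.xi u c z.1)) := rfl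

/-- The inclusion of a density. -/
def inc (k : ℕ) (c : Bool) : H →L[ℝ] Z k :=
  .inl ℝ _ _ ∘L ContinuousLinearMap.single ℝ (fun _ : Bool => H) c

/-- The compact part of the linearised equation. -/
def Kop (M : Bool → Hol (1 / 2) Dk (Jet →L[ℝ] F)) : Z k →L[ℝ] Z k :=
  inc k false ∘L S.Kc (M false) false + inc k true ∘L S.Kc (M true) true +
    .inr ℝ _ _ ∘L (S.ev - .snd ℝ _ _)

theorem Kc_compact (M : Hol (1 / 2) Dk (Jet →L[ℝ] F)) (c : Bool) : IsCompactOperator (S.Kc M c) :=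
  (S.val_compact c).clm_comp (Hol.appL M ∘L Hol.mapL nrm)

theorem Kop_compact (M : Bool → Hol (1 / 2) Dk (Jet →L[ℝ] F)) : IsCompactOperator (S.Kop M) :=
  (((S.Kc_compact (M false) false).clm_comp (inc k false)).add
    ((S.Kc_compact (M true) true).clm_comp (inc k true))).add
    ((isCompactOperator_of_locallyCompactSpace_dom
      (S.ev - ContinuousLinearMap.snd ℝ (Bool → H) (Fin k → F))).clm_comp
      (ContinuousLinearMap.inr ℝ (Bool → H) (Fin k → F)))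

theorem Kop_fst (M : Bool → Hol (1 / 2) Dk (Jet →L[ℝ] F)) (u : Z k) (c : Bool) :
    (S.Kop M u).1 c = S.Kc (M c) c u := by cases c <;> simp [Kop, inc]

theorem Kop_snd (M : Bool → Hol (1 / 2) Dk (Jet →L[ℝ] F)) (u : Z k) :
    (S.Kop M u).2 = S.ev u - u.2 := by simp [Kop, inc]

theorem lin_fst (M : Bool → Hol (1 / 2) Dk (Jet →L[ℝ] F)) (u : Z k) (c : Bool) (z : Dk) :
    (S.lin M (0, u)).1 c z =
      u.1 c z + M c z (0, 0, S.xi u c z.1, fderiv ℝ (S.xi u c) z.1) := by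
  change u.1 c z + M c z (S.JL c (0, u) z) = _
  rw [S.JL_apply]; rfl

theorem lin_snd (M : Bool → Hol (1 / 2) Dk (Jet →L[ℝ] F)) (u : Z k) :
    (S.lin M (0, u)).2 = S.ev u := sub_zero _

theorem eqn_zero (h : Sys k t0 N) : S.eqn N ((t0, 0), 0) = 0 :=
  Prod.ext (funext fun c => Hol.ext fun z => by
    change (0 : F) + Hol.nem (low (N c)) (S.jet c ((t0, 0), 0)) z = 0
    rw [(S.loc h c).1.self_of_nhds z, jet, S.jet_zero, low, h.zero c _ (mem_Dk.1 z.2)]
    simp) (by simp [eqn])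

theorem exists_sol (h : Sys k t0 N) (hz : ZeroThm k pt) : ∃ ψ : Par k → Z k,
    Tendsto ψ (𝓝 (t0, 0)) (𝓝 0) ∧ ∀ᶠ q in 𝓝 ((t0, 0) : Par k), S.eqn N (q, ψ q) = 0 := by
  have hs := S.strict h
  have hM := fun c => (S.loc h c).2.1
  generalize hM' : (fun c => Hol.nem (fderiv ℝ (low (N c))) (S.jet c ((t0, 0), 0))) = M at hs
  have e1 : ∀ u c z, (S.lin M (0, u)).1 c z = u.1 c z + M c z (nrm (S.xi u c z.1)) :=
    fun u c z => by rw [lin_fst, ← hM', hM, h.low_fderiv c (mem_Dk.1 z.2)]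
  obtain ⟨ψ, lim, sol, -⟩ := exists_implicit hs (.refl ℝ (Z k)) (S.Kop M) (S.Kop_compact M)
    (fun u => Prod.ext (funext fun c => Hol.ext fun z => by
      rw [e1, Prod.fst_add, Pi.add_apply, Hol.add_apply, Kop_fst, Kc_apply]; rfl) (by
      rw [lin_snd, Prod.snd_add, Kop_snd]; exact (add_sub_cancel _ _).symm))
    fun u hu => S.ker hz (K := ‖M false‖ + ‖M true‖) (by positivity) (fun c z => by
      have a1 := e1 u c z
      rw [hu] at a1
      rw [eq_neg_of_add_eq_zero_left a1.symm, norm_neg, ← norm_nrm]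
      refine ((M c z).le_opNorm _).trans (mul_le_mul_of_nonneg_right
        (((M c).norm_apply_le z).trans ?_) (norm_nonneg _))
      cases c
      · exact le_add_of_nonneg_right (norm_nonneg _)
      · exact le_add_of_nonneg_left (norm_nonneg _)) (by rw [← S.lin_snd M, hu]; rfl)
  exact ⟨ψ, lim, sol.mono fun q hq => hq.trans (S.eqn_zero h)⟩

end Ans

/-- The implicit function theorem on the sphere, from the ansatz and the vanishing theorem. -/
theorem Sys.solve_of (h : Sys k t0 N) (S : Ans k pt) (hz : ZeroThm k pt) {ε : ℝ} (hε : 0 < ε) :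
    ∀ᶠ q : ℝ × (Fin k → F) in 𝓝 (t0, 0), ∃ ξ : Bool → ℂ → F, (∀ c, ContDiff ℝ 1 (ξ c)) ∧
      (∀ c w, w ≠ 0 → ξ (!c) w = gm k w (ξ c w⁻¹)) ∧ (∀ i, ξ false (pt i) = q.2 i) ∧
      ∀ c w, ‖w‖ ≤ 1 → N c (q.1, w, ξ c w, fderiv ℝ (ξ c) w) = 0 ∧ ‖ξ c w‖ < ε ∧
        ‖fderiv ℝ (ξ c) w‖ < ε := by
  obtain ⟨δ, hδ, hc⟩ := h.compat
  obtain ⟨ψ, lim, sol⟩ := S.exists_sol h hz
  have limv : Tendsto (fun q => (q, ψ q)) (𝓝 ((t0, 0) : Par k)) (𝓝 ((t0, 0), 0)) :=
    tendsto_id.prodMk_nhds lim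
  have ev1 : ∀ᶠ q in 𝓝 ((t0, 0) : Par k), ∀ c z,
      Hol.nem (low (N c)) (S.jet c (q, ψ q)) z = low (N c) (S.jet c (q, ψ q) z) :=
    eventually_all.2 fun c => ((((S.JL c).continuous.tendsto _).comp limv).const_add
      Ans.j0).eventually (S.loc h c).1
  have small : ∀ {W : Type} [NormedAddCommGroup W] [NormedSpace ℝ W] (L : Z k →L[ℝ] W) {η : ℝ},
      0 < η → ∀ᶠ q in 𝓝 ((t0, 0) : Par k), ‖L (ψ q)‖ < η := fun L η hη => by
    have := ((L.continuous.tendsto 0).comp lim).norm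
    rw [map_zero, norm_zero] at this
    exact this.eventually (gt_mem_nhds hη)
  have ev2 : ∀ᶠ q in 𝓝 ((t0, 0) : Par k), |q.1 - t0| < δ :=
    (continuous_fst.tendsto ((t0, 0) : Par k)).eventually (eventually_abs_sub_lt t0 hδ)
  filter_upwards [sol, ev1, ev2, eventually_all.2 fun c => small (S.val c) (lt_min hε hδ),
    eventually_all.2 fun c => small (S.der c) hε] with q s1 s2 s3 s4 s5
  have b1 : ∀ c w, ‖w‖ ≤ 2 → ‖S.xi (ψ q) c w‖ < min ε δ := fun c w hw =>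
    ((S.val c (ψ q)).norm_apply_le ⟨w, mem_Dk.2 hw⟩).trans_lt (s4 c)
  refine ⟨S.xi (ψ q), S.c1 _, S.tr _, fun i => sub_eq_zero.1 (congrFun (congrArg Prod.snd s1) i),
    fun c w hw => ⟨?_, (b1 c w (hw.trans one_le_two)).trans_le (min_le_left _ _),
      ((S.der c (ψ q)).norm_apply_le ⟨w, mem_Dk.2 (hw.trans one_le_two)⟩).trans_lt (s5 c)⟩⟩
  refine S.eq_zero (u := ψ q)
    (n := fun c w => N c (q.1, w, S.xi (ψ q) c w, fderiv ℝ (S.xi (ψ q) c) w)) hw
    (fun c z => ?_) fun hw' => ?_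
  · have := congrArg (fun g : H => g z) (congrFun (congrArg Prod.fst s1) c)
    change (ψ q).1 c z + Hol.nem (low (N c)) (S.jet c (q, ψ q)) z = 0 at this
    rwa [s2, Ans.jet, S.jet_apply] at this
  · have w0 : w ≠ 0 := norm_pos_iff.1 (lt_of_lt_of_le (by norm_num) hw')
    have := hc (!c) q.1 w s3 hw' (hw.trans one_le_two) (S.xi (ψ q) (!c)) (S.xi (ψ q) c)
      (S.diff _ _ _) ((eventually_ne_nhds w0).mono fun v hv => by
        simpa only [Bool.not_not] using S.tr (ψ q) (!c) v hv)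
      ((b1 _ _ (by rw [norm_inv]; exact inv_le_of_inv_le₀ two_pos hw')).trans_le (min_le_right _ _))
    rwa [Bool.not_not] at this

end Pool.Agent.Lib.MP_1c0d65_gt.D
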