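import Pool.Agent.Lib.MP_1c0d65_gt.A.CP
import Pool.Agent.Lib.MP_1c0d65_gt.Df.Euc

/-! First order systems in the two charts of the sphere. -/

open scoped ContDiff Topology ComplexConjugate
open Filter Set Metric

namespace Pool.Agent.Lib.MP_1c0d65_gt.D

/-- The fibre: tangent and normal coordinate. -/
abbrev F : Type := ℂ × ℂ

/-- Parameter, point, value, differential. -/
abbrev Jet : Type := ℝ × ℂ × F × (ℂ →L[ℝ] F)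

/-- The transition of `O(2) + O(k - 1)`. -/
noncomputable def gm (k : ℕ) (w : ℂ) (x : F) : F := (w ^ 2 * x.1, w ^ k * w⁻¹ * x.2)

/-- A first order system in the two charts of the sphere, with triangular linearisation. -/
structure Sys (k : ℕ) (t0 : ℝ) (N : Bool → Jet → F) : Prop where
  smooth : ∀ c z, ‖z‖ ≤ 2 → ContDiffAt ℝ ∞ (N c) (t0, z, 0, 0)
  zero : ∀ c z, ‖z‖ ≤ 2 → N c (t0, z, 0, 0) = 0
  lin : ∀ c z, ‖z‖ ≤ 2 → ∀ a L, fderiv ℝ (N c) (t0, z, 0, 0) (0, 0, (a, 0), L) = A.db L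
  compat : ∃ δ > 0, ∀ c t w, |t - t0| < δ → 2⁻¹ ≤ ‖w‖ → ‖w‖ ≤ 2 → ∀ ξ ξ' : ℂ → F,
    DifferentiableAt ℝ ξ w⁻¹ → (∀ᶠ v in 𝓝 w, ξ' v = gm k v (ξ v⁻¹)) → ‖ξ w⁻¹‖ < δ →
    N (!c) (t, w, ξ' w, fderiv ℝ ξ' w) =
      -((conj w)⁻¹ ^ 2) • gm k w (N c (t, w⁻¹, ξ w⁻¹, fderiv ℝ ξ w⁻¹))


end Pool.Agent.Lib.MP_1c0d65_gt.D
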