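import Pool.Agent.Lib.MP_1c0d65_gt.D.Lin1

/-! A section of degree `k` with `k + 1` zeros and a linear bound on its antilinear derivative
vanishes. -/

open MeasureTheory Set Metric Real Filter Topology
open Complex (I)
open scoped ContDiff

namespace Pool.Agent.Lib.MP_1c0d65_gt.D.Lin

open Pool.Agent.Lib.MP_1c0d65_gt.A

theorem db_mul {f g : ℂ → ℂ} {z : ℂ} (hf : DifferentiableAt ℝ f z) (hg : DifferentiableAt ℝ g z) :
    db (fderiv ℝ (fun x => f x * g x) z) =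
      f z * db (fderiv ℝ g z) + g z * db (fderiv ℝ f z) := by
  rw [fderiv_fun_mul hf hg, db_add, db_smul, db_smul, smul_eq_mul, smul_eq_mul]

theorem db_exp {φ : ℂ → ℂ} {z : ℂ} (h : DifferentiableAt ℝ φ z) :
    db (fderiv ℝ (fun x => Complex.exp (-φ x)) z) =
      -(Complex.exp (-φ z) * db (fderiv ℝ φ z)) := by
  have h1 := h.hasFDerivAt.neg.cexp
  rw [show (fun x => Complex.exp (-φ x)) = fun x => Complex.exp ((-φ) x) from rfl, h1.fderiv,
    db_smul, ← neg_one_smul ℂ (fderiv ℝ φ z), db_smul]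
  simp

theorem flip {k : ℕ} {u v : ℂ → ℂ} (h : ∀ z, z ≠ 0 → v z = z ^ k * u z⁻¹) :
    ∀ z, z ≠ 0 → u z = z ^ k * v z⁻¹ := fun z hz => by
  rw [h _ (inv_ne_zero hz), inv_inv, ← mul_assoc, ← mul_pow, mul_inv_cancel₀ hz, one_pow, one_mul]

theorem db_trans {k : ℕ} {u v : ℂ → ℂ} {z : ℂ} (hz : z ≠ 0) (hv : DifferentiableAt ℝ v z⁻¹)
    (h : ∀ᶠ x in 𝓝 z, u x = x ^ k * v x⁻¹) :
    db (fderiv ℝ u z) = z ^ k * ((starRingEnd ℂ (-(z ^ 2)⁻¹)) * db (fderiv ℝ v z⁻¹)) := by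
  have h1 := db_holo_smul (c := fun x => x ^ k) (V := fun x => v x⁻¹) (z := z) (by fun_prop)
    (hv.comp z ((differentiableAt_inv (𝕜 := ℂ) hz).restrictScalars ℝ))
  rw [db_inv hz hv] at h1
  rw [EventuallyEq.fderiv_eq h]
  simpa using h1

theorem cs_of_le {E : Type*} [NormedAddCommGroup E] {g : ℂ → E} {R : ℝ}
    (h : ∀ z, R ≤ ‖z‖ → g z = 0) : HasCompactSupport g :=
  HasCompactSupport.intro (isCompact_closedBall 0 R) fun z hz =>
    h z (le_of_lt (by simpa using hz))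

open Asymptotics Bornology in
/-- A section with small antilinear derivative is close to an entire function of growth `k`. -/
theorem apriori (k : ℕ) : ∃ C : ℝ, 0 ≤ C ∧ ∀ u v : ℂ → ℂ, ContDiff ℝ 1 u → ContDiff ℝ 1 v →
    (∀ z, z ≠ 0 → u z = z ^ k * v z⁻¹) → ∀ δ : ℝ,
    (∀ z ∈ ball (0 : ℂ) 2, ‖db (fderiv ℝ u z)‖ ≤ δ) →
    (∀ z ∈ ball (0 : ℂ) 2, ‖db (fderiv ℝ v z)‖ ≤ δ) →
    ∃ p : ℂ → ℂ, Differentiable ℂ p ∧ (p =O[cobounded ℂ] fun y => y ^ k) ∧
      ∀ z, ‖u z - p z‖ ≤ C * δ * (1 + ‖z‖ ^ k) := by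
  obtain ⟨ρ, -, hρ, -, hρ01, -, hρ0, -, hρ1, -, -⟩ := exists_part
  have hρc : ContDiff ℝ 1 fun z => (ρ z : ℂ) :=
    Complex.ofRealCLM.contDiff.comp (hρ.of_le (by simp))
  have hρs : HasCompactSupport fun z => (ρ z : ℂ) := cs_of_le (R := 3 / 2) fun z hz => by
    simp [hρ0 z hz]
  obtain ⟨B, hB⟩ := (continuous_db.comp (hρc.continuous_fderiv
    one_ne_zero)).bounded_above_of_compact_support ((hρs.fderiv ℝ).comp_left db_zero)
  have hB0 : 0 ≤ B := (norm_nonneg _).trans (hB 0)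
  refine ⟨6 * (1 + B * (2 ^ k * 6)), by positivity, fun u v hu hv huv δ hdu hdv => ?_⟩
  have hδ : 0 ≤ δ := (norm_nonneg _).trans (hdu 0 (by simp))
  set g1 : ℂ → ℂ := (ball (0 : ℂ) 2).indicator fun z => db (fderiv ℝ v z) with hg1
  have hb1 : BS δ 0 2 g1 := ⟨meas_cut isOpen_ball fun z _ => hv.contDiffAt, fun s => by
    by_cases hs : s ∈ ball (0 : ℂ) 2
    · rw [hg1, indicator_of_mem hs]
      exact hdv s hs
    · rw [hg1, indicator_of_notMem hs, norm_zero]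
      exact hδ, fun s hs => indicator_of_notMem hs _⟩
  have hT1 : ∀ x, ‖T g1 x‖ ≤ 6 * δ := fun x => by
    have := hb1.T_le two_pos x
    linarith
  have hh : DifferentiableOn ℂ (fun z => v z - T g1 z) (ball 0 2) :=
    loc_holo isOpen_ball (fun z _ => hv.contDiffAt) (fun z hz => indicator_of_mem hz _)
      hb1.integrable fun z _ => hb1.T_int z
  set H : ℂ → ℂ := fun z => z ^ k * (v z⁻¹ - T g1 z⁻¹) with hH
  have hHd : DifferentiableOn ℂ H {z | 2⁻¹ < ‖z‖} := by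
    intro z hz
    have hz' : (2 : ℝ)⁻¹ < ‖z‖ := hz
    have h0 : z ≠ 0 := norm_pos_iff.1 (lt_trans (by norm_num) hz')
    have h1 : z⁻¹ ∈ ball (0 : ℂ) 2 := by
      rw [mem_ball_zero_iff, norm_inv]
      exact inv_lt_of_inv_lt₀ two_pos hz'
    exact ((differentiableAt_pow k).mul ((hh.differentiableAt (isOpen_ball.mem_nhds h1)).comp z
      (differentiableAt_inv h0))).differentiableWithinAt
  have hO : IsOpen {z : ℂ | 2⁻¹ < ‖z‖} := isOpen_lt continuous_const continuous_norm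
  have huH : ∀ z, z ≠ 0 → u z - H z = z ^ k * T g1 z⁻¹ := fun z hz => by
    rw [huv z hz, hH]
    ring
  set F : ℂ → ℂ := fun z => ρ z * u z + (1 - ρ z) * H z with hF
  have hin : ∀ z : ℂ, ‖z‖ < 1 → F =ᶠ[𝓝 z] u := fun z hz => by
    filter_upwards [(isOpen_lt continuous_norm continuous_const).mem_nhds hz] with x hx
    simp [hF, hρ1 x (le_of_lt hx)]
  have hout : ∀ z : ℂ, 3 / 2 < ‖z‖ → F =ᶠ[𝓝 z] H := fun z hz => by
    filter_upwards [(isOpen_lt continuous_const continuous_norm).mem_nhds hz] with x hx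
    simp [hF, hρ0 x (le_of_lt hx)]
  have hFc : ContDiff ℝ 1 F := by
    refine contDiff_iff_contDiffAt.2 fun z => ?_
    by_cases hz : ‖z‖ < 1
    · exact hu.contDiffAt.congr_of_eventuallyEq (hin z hz)
    · have h1 : z ∈ {z : ℂ | 2⁻¹ < ‖z‖} := by
        show (2 : ℝ)⁻¹ < ‖z‖
        linarith [not_lt.1 hz]
      exact (hρc.contDiffAt.mul hu.contDiffAt).add
        ((contDiffAt_const.sub hρc.contDiffAt).mul (contDiffAt_of_holo hO hHd h1 1))
  set g : ℂ → ℂ := fun z => db (fderiv ℝ F z) with hg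
  have hg0 : ∀ z : ℂ, 2 ≤ ‖z‖ → g z = 0 := fun z hz => by
    have h1 : z ∈ {z : ℂ | 2⁻¹ < ‖z‖} := by
      show (2 : ℝ)⁻¹ < ‖z‖
      linarith
    simp only [hg]
    rw [(hout z (by linarith)).fderiv_eq, db_of_holo (hHd.differentiableAt (hO.mem_nhds h1))]
  have hb : BS (δ * (1 + B * (2 ^ k * 6))) 0 2 g := by
    refine ⟨(continuous_db.comp (hFc.continuous_fderiv one_ne_zero)).aestronglyMeasurable,
      fun z => ?_, fun z hz => hg0 z (by simpa using hz)⟩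
    have e0 : 0 ≤ δ * (B * (2 ^ k * 6)) := by positivity
    by_cases h2 : 2 ≤ ‖z‖
    · rw [hg0 z h2, norm_zero]
      positivity
    have h2' : z ∈ ball (0 : ℂ) 2 := mem_ball_zero_iff.2 (not_le.1 h2)
    by_cases hz : ‖z‖ < 1
    · simp only [hg]
      rw [(hin z hz).fderiv_eq]
      have := hdu z h2'
      linarith
    have h1 : z ∈ {z : ℂ | 2⁻¹ < ‖z‖} := by
      show (2 : ℝ)⁻¹ < ‖z‖
      linarith [not_lt.1 hz]
    have h0 : z ≠ 0 := norm_pos_iff.1 (by linarith [not_lt.1 hz])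
    have d1 := hρc.differentiable one_ne_zero z
    have d2 := hu.differentiable one_ne_zero z
    have d3 := hHd.differentiableAt (hO.mem_nhds h1)
    have d4 := d3.restrictScalars ℝ
    have e1 : g z = ρ z * db (fderiv ℝ u z) +
        db (fderiv ℝ (fun z => (ρ z : ℂ)) z) * (z ^ k * T g1 z⁻¹) := by
      simp only [hg, hF]
      rw [fderiv_fun_add (d1.fun_mul d2) ((d1.const_sub 1).fun_mul d4), db_add, db_mul d1 d2,
        db_mul (d1.const_sub 1) d4, db_of_holo d3, fderiv_const_sub,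
        ← neg_one_smul ℂ (fderiv ℝ (fun z => (ρ z : ℂ)) z), db_smul, ← huH z h0]
      simp only [smul_eq_mul]
      ring
    rw [e1]
    refine (norm_add_le _ _).trans ?_
    rw [norm_mul, norm_mul, norm_mul, norm_pow, Complex.norm_real, Real.norm_of_nonneg (hρ01 z).1]
    have e2 : ρ z * ‖db (fderiv ℝ u z)‖ ≤ δ :=
      (mul_le_of_le_one_left (norm_nonneg _) (hρ01 z).2).trans (hdu z h2')
    have e3 : ‖z‖ ^ k * ‖T g1 z⁻¹‖ ≤ 2 ^ k * (6 * δ) :=
      mul_le_mul (pow_le_pow_left₀ (norm_nonneg _) (not_le.1 h2).le k) (hT1 _) (norm_nonneg _)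
        (by positivity)
    have e4 := mul_le_mul (hB z) e3 (by positivity) hB0
    simp only [Function.comp] at e4
    nlinarith
  have hTg : ∀ x, ‖T g x‖ ≤ 6 * (1 + B * (2 ^ k * 6)) * δ := fun x => by
    have := hb.T_le two_pos x
    linarith
  have hp := loc_holo isOpen_univ (fun z _ => hFc.contDiffAt) (fun z _ => rfl) hb.integrable
    fun z _ => hb.T_int z
  have hest : ∀ z, ‖u z - (F z - T g z)‖ ≤ 6 * (1 + B * (2 ^ k * 6)) * δ * (1 + ‖z‖ ^ k) := by
    intro z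
    have e1 : ‖u z - F z‖ ≤ ‖z‖ ^ k * (6 * δ) := by
      by_cases hz : z = 0
      · rw [(hin z (by simp [hz])).eq_of_nhds, sub_self, norm_zero]
        positivity
      · have e2 : u z - F z = ((1 - ρ z : ℝ) : ℂ) * (z ^ k * T g1 z⁻¹) := by
          rw [← huH z hz, hF]
          push_cast
          ring
        rw [e2, norm_mul, norm_mul, norm_pow, Complex.norm_real,
          Real.norm_of_nonneg (sub_nonneg.2 (hρ01 z).2)]
        refine (mul_le_of_le_one_left (by positivity) (sub_le_self _ (hρ01 z).1)).trans ?_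
        exact mul_le_mul_of_nonneg_left (hT1 _) (by positivity)
    have e3 : u z - (F z - T g z) = (u z - F z) + T g z := by ring
    rw [e3]
    refine (norm_add_le _ _).trans ?_
    have e4 := hTg z
    have e5 : 0 ≤ B * (2 ^ k * 6) * δ * ‖z‖ ^ k := by positivity
    nlinarith
  refine ⟨fun z => F z - T g z, differentiableOn_univ.1 hp, ?_, hest⟩
  obtain ⟨A, hA⟩ := (isCompact_closedBall (0 : ℂ) 1).exists_bound_of_continuousOn
    hv.continuous.continuousOn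
  refine IsBigO.of_bound (A + 6 * (1 + B * (2 ^ k * 6)) * δ * 2) ?_
  filter_upwards [(tendsto_norm_cobounded_atTop (E := ℂ)).eventually_ge_atTop 1] with y hy
  have h0 : y ≠ 0 := norm_pos_iff.1 (by linarith)
  have e1 : ‖u y‖ ≤ ‖y‖ ^ k * A := by
    rw [huv y h0, norm_mul, norm_pow]
    refine mul_le_mul_of_nonneg_left (hA _ ?_) (by positivity)
    rw [mem_closedBall_zero_iff, norm_inv]
    exact inv_le_one_of_one_le₀ hy
  have e2 := hest y
  have e3 := norm_sub_norm_le (F y - T g y) (u y)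
  rw [norm_sub_rev] at e2
  have e4 : 1 ≤ ‖y‖ ^ k := one_le_pow₀ hy
  have e5 : 0 ≤ 6 * (1 + B * (2 ^ k * 6)) * δ := by positivity
  rw [norm_pow]
  nlinarith

/-- A smooth multiplier that nearly reproduces the cut off antilinear derivative. -/
theorem mult {u : ℂ → ℂ} (hu : ContDiff ℝ 1 u) {K : ℝ} (hK : 0 ≤ K)
    (h : ∀ z ∈ ball (0 : ℂ) 2, ‖db (fderiv ℝ u z)‖ ≤ K * ‖u z‖) {ρ : ℂ → ℝ} (hρ : Continuous ρ)
    (h01 : ∀ z, 0 ≤ ρ z ∧ ρ z ≤ 1) (h0 : ∀ z, 3 / 2 ≤ ‖z‖ → ρ z = 0) {δ : ℝ} (hδ : 0 < δ) :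
    ∃ b : ℂ → ℂ, ContDiff ℝ 1 b ∧ (∀ z, 3 / 2 ≤ ‖z‖ → b z = 0) ∧ (∀ z, ‖b z‖ ≤ K + 1) ∧
      ∀ z, ‖ρ z * db (fderiv ℝ u z) - b z * u z‖ ≤ δ := by
  obtain ⟨A, hA⟩ := (isCompact_closedBall (0 : ℂ) 2).exists_bound_of_continuousOn
    hu.continuous.continuousOn
  have hA0 : 0 ≤ A := (norm_nonneg _).trans (hA 0 (by simp))
  set η : ℝ := δ / (2 * (K + 1)) with hη
  have hη0 : 0 < η := by positivity
  have hden : ∀ z, 0 < ‖u z‖ ^ 2 + η ^ 2 := fun z => by positivity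
  set a : ℂ → ℂ := fun z => ρ z * db (fderiv ℝ u z) * starRingEnd ℂ (u z) *
    ((‖u z‖ ^ 2 + η ^ 2)⁻¹ : ℝ) with ha
  have hac : Continuous a := by
    have c1 := continuous_db.comp (hu.continuous_fderiv one_ne_zero)
    have c2 := hu.continuous
    exact (((Complex.continuous_ofReal.comp hρ).mul c1).mul (Complex.continuous_conj.comp c2)).mul
      (Complex.continuous_ofReal.comp (((c2.norm.pow 2).add continuous_const).inv₀
        fun z => (hden z).ne'))
  obtain ⟨b, hb, hba, hs⟩ := hac.exists_contDiff_approx 1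
    (ε := fun _ => min 1 (δ / (2 * (A + 1)))) continuous_const fun _ => by positivity
  have hb0 : ∀ z, 3 / 2 ≤ ‖z‖ → b z = 0 := fun z hz => by
    by_contra hne
    exact hs hne (by simp [ha, h0 z hz])
  have hρd : ∀ z, ‖(ρ z : ℂ) * db (fderiv ℝ u z)‖ ≤ K * ‖u z‖ := fun z => by
    by_cases hz : 3 / 2 ≤ ‖z‖
    · simp only [h0 z hz, Complex.ofReal_zero, zero_mul, norm_zero]
      positivity
    · rw [norm_mul, Complex.norm_real, Real.norm_of_nonneg (h01 z).1]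
      exact (mul_le_of_le_one_left (norm_nonneg _) (h01 z).2).trans
        (h z (mem_ball_zero_iff.2 (by linarith [not_le.1 hz])))
  refine ⟨b, hb, hb0, fun z => ?_, fun z => ?_⟩
  · have e1 : ‖a z‖ ≤ K := by
      simp only [ha]
      rw [norm_mul, norm_mul, Complex.norm_conj, Complex.norm_real,
        Real.norm_of_nonneg (inv_pos.2 (hden z)).le, ← div_eq_mul_inv, div_le_iff₀ (hden z)]
      have := mul_le_mul_of_nonneg_right (hρd z) (norm_nonneg (u z))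
      have := mul_nonneg hK (sq_nonneg η)
      nlinarith
    have e2 := (hba z).trans_le (min_le_left _ _)
    rw [dist_eq_norm] at e2
    have := norm_sub_norm_le (b z) (a z)
    linarith
  · by_cases hz : 3 / 2 ≤ ‖z‖
    · simp [h0 z hz, hb0 z hz, hδ.le]
    have e0 := hA z (mem_closedBall_zero_iff.2 (by linarith [not_le.1 hz]))
    have e1 : ρ z * db (fderiv ℝ u z) - b z * u z =
        ρ z * db (fderiv ℝ u z) * ((η ^ 2 * (‖u z‖ ^ 2 + η ^ 2)⁻¹ : ℝ) : ℂ) + (a z - b z) * u z := by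
      have e2 : starRingEnd ℂ (u z) * u z = ((‖u z‖ ^ 2 : ℝ) : ℂ) := by
        rw [Complex.conj_mul']
        push_cast
        rfl
      have e3 : ((‖u z‖ ^ 2 : ℝ) : ℂ) * (((‖u z‖ ^ 2 + η ^ 2)⁻¹ : ℝ) : ℂ) +
          ((η ^ 2 * (‖u z‖ ^ 2 + η ^ 2)⁻¹ : ℝ) : ℂ) = 1 := by
        rw [← Complex.ofReal_mul, ← Complex.ofReal_add, ← add_mul, mul_inv_cancel₀ (hden z).ne']
        rfl
      simp only [ha]
      linear_combination (-(ρ z * db (fderiv ℝ u z))) * e3 -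
        (ρ z * db (fderiv ℝ u z) * (((‖u z‖ ^ 2 + η ^ 2)⁻¹ : ℝ) : ℂ)) * e2
    rw [e1]
    refine (norm_add_le _ _).trans ?_
    have e4 : ‖(ρ z : ℂ) * db (fderiv ℝ u z) * ((η ^ 2 * (‖u z‖ ^ 2 + η ^ 2)⁻¹ : ℝ) : ℂ)‖ ≤
        δ / 2 := by
      have p1 : 0 ≤ η ^ 2 * (‖u z‖ ^ 2 + η ^ 2)⁻¹ := by have := hden z; positivity
      rw [norm_mul, Complex.norm_real, Real.norm_of_nonneg p1]
      refine (mul_le_mul_of_nonneg_right (hρd z) p1).trans ?_
      have p2 : ‖u z‖ * (η ^ 2 * (‖u z‖ ^ 2 + η ^ 2)⁻¹) ≤ η := by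
        rw [← mul_assoc, ← div_eq_mul_inv, div_le_iff₀ (hden z)]
        have := mul_nonneg hη0.le (sq_nonneg (‖u z‖ - η))
        have := mul_nonneg (norm_nonneg (u z)) (sq_nonneg η)
        nlinarith
      have p3 : (K + 1) * η = δ / 2 := by
        rw [hη]
        field_simp
      have := mul_le_mul_of_nonneg_left p2 hK
      nlinarith
    have e5 : ‖(a z - b z) * u z‖ ≤ δ / 2 := by
      have e6 := (hba z).trans_le (min_le_right _ _)
      rw [dist_eq_norm, norm_sub_rev, lt_div_iff₀ (by positivity)] at e6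
      rw [norm_mul]
      have := mul_le_mul_of_nonneg_left e0 (norm_nonneg (a z - b z))
      have := norm_nonneg (a z - b z)
      nlinarith
    linarith

theorem bs_of {b : ℂ → ℂ} (hb : ContDiff ℝ 1 b) (h0 : ∀ z, 3 / 2 ≤ ‖z‖ → b z = 0) {M : ℝ}
    (hM : ∀ z, ‖b z‖ ≤ M) : BS M 0 2 b :=
  ⟨hb.continuous.aestronglyMeasurable, hM, fun s hs => h0 s (by
    have : 2 ≤ ‖s‖ := by simpa using hs
    linarith)⟩

theorem half {k : ℕ} {u v b b' : ℂ → ℂ} {ρ ρ' : ℂ → ℝ} {M δ : ℝ} (hu : ContDiff ℝ 1 u)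
    (hv : ContDiff ℝ 1 v) (huv : ∀ z, z ≠ 0 → u z = z ^ k * v z⁻¹) (hb : ContDiff ℝ 1 b)
    (hb' : ContDiff ℝ 1 b') (h0 : ∀ z, 3 / 2 ≤ ‖z‖ → b z = 0) (h0' : ∀ z, 3 / 2 ≤ ‖z‖ → b' z = 0)
    (hM : ∀ z, ‖b z‖ ≤ M) (hM' : ∀ z, ‖b' z‖ ≤ M) (hρ : ∀ z, ‖z‖ ≤ 2 / 3 → ρ z = 1)
    (hρ' : ∀ z, z ≠ 0 → ρ z + ρ' z⁻¹ = 1)
    (hE : ∀ z, ‖ρ z * db (fderiv ℝ u z) - b z * u z‖ ≤ δ)
    (hE' : ∀ z, ‖ρ' z * db (fderiv ℝ v z) - b' z * v z‖ ≤ δ) :
    ContDiff ℝ 1 (fun z => Complex.exp (-(T b z + mv b' z)) * u z) ∧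
    (∀ z, ‖T b z + mv b' z‖ ≤ 12 * M) ∧ ∀ z ∈ ball (0 : ℂ) 2,
      ‖db (fderiv ℝ (fun z => Complex.exp (-(T b z + mv b' z)) * u z) z)‖ ≤
        Real.exp (12 * M) * ((1 + 2 ^ k * 4) * δ) := by
  have B := bs_of hb h0 hM
  have B' := bs_of hb' h0' hM'
  have c1 : ContDiff ℝ 1 (T b) := T_contDiff hb (cs_of_le h0)
  have c1' : ContDiff ℝ 1 (T b') := T_contDiff hb' (cs_of_le h0')
  have c2 : ContDiff ℝ 1 (mv b') := mv_contDiff B' two_pos c1'
  have c3 : ContDiff ℝ 1 fun z => T b z + mv b' z := c1.add c2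
  have c4 : ContDiff ℝ 1 fun z => Complex.exp (-(T b z + mv b' z)) := c3.neg.cexp
  have hφ : ∀ z, ‖T b z + mv b' z‖ ≤ 12 * M := fun z => by
    have := norm_add_le (T b z) (mv b' z)
    linarith [B.T_le two_pos z, mv_le B' two_pos z]
  refine ⟨c4.mul hu, hφ, fun z hz => ?_⟩
  have hδ : 0 ≤ δ := (norm_nonneg _).trans (hE 0)
  rw [db_mul (c4.differentiable one_ne_zero z) (hu.differentiable one_ne_zero z),
    db_exp (c3.differentiable one_ne_zero z),
    fderiv_fun_add (c1.differentiable one_ne_zero z) (c2.differentiable one_ne_zero z), db_add,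
    db_T hb (cs_of_le h0)]
  have e1 : ‖db (fderiv ℝ u z) - u z * (b z + db (fderiv ℝ (mv b') z))‖ ≤
      (1 + 2 ^ k * 4) * δ := by
    have p0 : 0 ≤ 2 ^ k * 4 * δ := by positivity
    by_cases h2 : ‖z‖ < 2⁻¹
    · rw [db_of_holo ((mv_holo B' two_pos).differentiableAt
        (isOpen_ball.mem_nhds (mem_ball_zero_iff.2 h2))), add_zero]
      have := hE z
      rw [hρ z (by linarith), Complex.ofReal_one, one_mul, mul_comm] at this
      linarith
    · have h3 : 2⁻¹ ≤ ‖z‖ := not_lt.1 h2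
      have hz0 : z ≠ 0 := norm_pos_iff.1 (by linarith)
      have e2 := db_trans hz0 (hv.differentiable one_ne_zero _)
        (by filter_upwards [isOpen_ne.mem_nhds hz0] with x hx using huv x hx)
      have e3 : db (fderiv ℝ (mv b') z) = starRingEnd ℂ (-(z ^ 2)⁻¹) * b' z⁻¹ := by
        rw [(mv_ev b' hz0).fderiv_eq, db_inv hz0 (c1'.differentiable one_ne_zero _),
          db_T hb' (cs_of_le h0'), smul_eq_mul]
      have e4 : (ρ z : ℂ) + ρ' z⁻¹ = 1 := by exact_mod_cast hρ' z hz0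
      have e5 : db (fderiv ℝ u z) - u z * (b z + db (fderiv ℝ (mv b') z)) =
          (ρ z * db (fderiv ℝ u z) - b z * u z) + z ^ k * starRingEnd ℂ (-(z ^ 2)⁻¹) *
            (ρ' z⁻¹ * db (fderiv ℝ v z⁻¹) - b' z⁻¹ * v z⁻¹) := by
        rw [e3]
        linear_combination (-db (fderiv ℝ u z)) * e4 + (ρ' z⁻¹ : ℂ) * e2 -
          starRingEnd ℂ (-(z ^ 2)⁻¹) * b' z⁻¹ * huv z hz0
      rw [e5]
      refine (norm_add_le _ _).trans ?_
      have e6 : ‖z ^ k * starRingEnd ℂ (-(z ^ 2)⁻¹)‖ ≤ 2 ^ k * 4 := by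
        rw [norm_mul, norm_pow, Complex.norm_conj, norm_neg, norm_inv, norm_pow]
        refine mul_le_mul (pow_le_pow_left₀ (norm_nonneg _) (mem_ball_zero_iff.1 hz).le k) ?_
          (by positivity) (by positivity)
        rw [inv_le_comm₀ (by positivity) (by norm_num)]
        nlinarith
      rw [norm_mul]
      have := mul_le_mul e6 (hE' z⁻¹) (norm_nonneg _) (by positivity)
      linarith [hE z]
  have e7 : ‖Complex.exp (-(T b z + mv b' z))‖ ≤ Real.exp (12 * M) :=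
    (Complex.norm_exp_le_exp_norm _).trans (Real.exp_le_exp.2 (by rw [norm_neg]; exact hφ z))
  have e8 : Complex.exp (-(T b z + mv b' z)) * db (fderiv ℝ u z) +
      u z * -(Complex.exp (-(T b z + mv b' z)) * (b z + db (fderiv ℝ (mv b') z))) =
      Complex.exp (-(T b z + mv b' z)) *
        (db (fderiv ℝ u z) - u z * (b z + db (fderiv ℝ (mv b') z))) := by ring
  rw [e8, norm_mul]
  exact mul_le_mul e7 e1 (norm_nonneg _) (Real.exp_pos _).le

/-- A section of degree `k` with `k + 1` zeros vanishes. -/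
theorem zero {k : ℕ} {u v : ℂ → ℂ} (hu : ContDiff ℝ 1 u) (hv : ContDiff ℝ 1 v)
    (huv : ∀ z, z ≠ 0 → v z = z ^ k * u z⁻¹) {K : ℝ}
    (hdu : ∀ z ∈ ball (0 : ℂ) 2, ‖db (fderiv ℝ u z)‖ ≤ K * ‖u z‖)
    (hdv : ∀ z ∈ ball (0 : ℂ) 2, ‖db (fderiv ℝ v z)‖ ≤ K * ‖v z‖)
    (z : Fin (k + 1) → ℂ) (hz : Function.Injective z) (h0 : ∀ j, u (z j) = 0) :
    u = 0 ∧ v = 0 := by
  have hK : ∀ {w : ℂ → ℂ}, (∀ z ∈ ball (0 : ℂ) 2, ‖db (fderiv ℝ w z)‖ ≤ K * ‖w z‖) →
      ∀ z ∈ ball (0 : ℂ) 2, ‖db (fderiv ℝ w z)‖ ≤ |K| * ‖w z‖ := fun h z hz =>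
    (h z hz).trans (mul_le_mul_of_nonneg_right (le_abs_self K) (norm_nonneg _))
  have hU : u = 0 := by
    funext x
    obtain ⟨ρ0, ρ1, c0, c1, i0, i1, z0, z1, o0, o1, hs⟩ := exists_part
    obtain ⟨C, hC, hap⟩ := apriori k
    obtain ⟨L, hL, hlag⟩ := lag k z hz x
    set M : ℝ := |K| + 1 with hM
    set S : ℝ := ∑ j, (1 + ‖z j‖ ^ k) with hS
    have hS0 : 0 ≤ S := Finset.sum_nonneg fun _ _ => by positivity
    set D : ℝ := Real.exp (12 * M) * (1 + 2 ^ k * 4) with hD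
    have key : ∀ δ : ℝ, 0 < δ →
        ‖u x‖ ≤ Real.exp (12 * M) * (C * D * (1 + ‖x‖ ^ k) + L * (C * D * S)) * δ := by
      intro δ hδ
      obtain ⟨b, b1, b2, b3, b4⟩ := mult hu (abs_nonneg K) (hK hdu) c0.continuous i0 z0 hδ
      obtain ⟨b', b1', b2', b3', b4'⟩ := mult hv (abs_nonneg K) (hK hdv) c1.continuous i1
        (fun z hz => z1 z (by linarith)) hδ
      obtain ⟨p1, p2, p3⟩ := half hu hv (flip huv) b1 b1' b2 b2' b3 b3'
        (fun z hz => o0 z (by linarith)) hs b4 b4'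
      obtain ⟨q1, -, q3⟩ := half hv hu huv b1' b1 b2' b2 b3' b3 o1
        (fun z hz => by
          have := hs z⁻¹ (inv_ne_zero hz)
          rw [inv_inv] at this
          linarith) b4' b4
      obtain ⟨p, hp, hpO, hpe⟩ := hap _ _ p1 q1 (fun y hy => by
        rw [mv_ne b' hy, mv_ne b (inv_ne_zero hy), inv_inv, flip huv y hy, add_comm (T b y)]
        ring) _ p3 q3
      have e0 : Real.exp (12 * (|K| + 1)) * ((1 + 2 ^ k * 4) * δ) = D * δ := by
        rw [hD]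
        ring
      rw [e0] at hpe
      have e1 := hlag p hp hpO (C * (D * δ) * S) fun j => by
        have := hpe (z j)
        rw [h0 j, mul_zero, zero_sub, norm_neg] at this
        refine this.trans (mul_le_mul_of_nonneg_left ?_ (by positivity))
        exact Finset.single_le_sum (f := fun j => 1 + ‖z j‖ ^ k) (fun _ _ => by positivity)
          (Finset.mem_univ j)
      have e2 := hpe x
      have e3 := norm_sub_norm_le (Complex.exp (-(T b x + mv b' x)) * u x) (p x)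
      have e4 : u x = Complex.exp (T b x + mv b' x) * (Complex.exp (-(T b x + mv b' x)) * u x) := by
        rw [← mul_assoc, ← Complex.exp_add, add_neg_cancel, Complex.exp_zero, one_mul]
      have e5 : ‖Complex.exp (T b x + mv b' x)‖ ≤ Real.exp (12 * M) :=
        (Complex.norm_exp_le_exp_norm _).trans (Real.exp_le_exp.2 (p2 x))
      rw [e4, norm_mul, mul_assoc (Real.exp (12 * M))]
      refine mul_le_mul e5 ?_ (norm_nonneg _) (Real.exp_pos _).le
      nlinarith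
    set A : ℝ := Real.exp (12 * M) * (C * D * (1 + ‖x‖ ^ k) + L * (C * D * S)) with hA
    have lim : Tendsto (fun δ : ℝ => A * δ) (𝓝[>] 0) (𝓝 0) := by
      have : Continuous fun δ : ℝ => A * δ := by fun_prop
      simpa using (this.tendsto 0).mono_left nhdsWithin_le_nhds
    exact norm_le_zero_iff.1 (ge_of_tendsto lim (eventually_nhdsWithin_of_forall key))
  refine ⟨hU, ?_⟩
  refine Continuous.ext_on (dense_compl_singleton (0 : ℂ)) hv.continuous continuous_const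
    fun y hy => ?_
  rw [huv y hy, hU]
  simp

/-- The same in degree `k - 1` with `k` zeros, the degree `-1` included. -/
theorem zero' {k : ℕ} {u v : ℂ → ℂ} (hu : ContDiff ℝ 1 u) (hv : ContDiff ℝ 1 v)
    (huv : ∀ z, z ≠ 0 → v z = z ^ k * z⁻¹ * u z⁻¹) {K : ℝ}
    (hdu : ∀ z ∈ ball (0 : ℂ) 2, ‖db (fderiv ℝ u z)‖ ≤ K * ‖u z‖)
    (hdv : ∀ z ∈ ball (0 : ℂ) 2, ‖db (fderiv ℝ v z)‖ ≤ K * ‖v z‖)
    (z : Fin k → ℂ) (hz : Function.Injective z) (h0 : ∀ j, u (z j) = 0) :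
    u = 0 ∧ v = 0 := by
  cases k with
  | succ k =>
    refine zero hu hv (fun y hy => ?_) hdu hdv z hz h0
    rw [huv y hy, pow_succ, mul_assoc (y ^ k), mul_inv_cancel₀ hy, mul_one]
  | zero =>
    obtain ⟨h1, h2⟩ := zero (k := 0) (u := fun y => y * u y) (contDiff_id.mul hu) hv
      (fun y hy => by rw [huv y hy, mul_assoc]) (K := K) (fun y hy => by
        have := db_holo_smul (c := fun x => x) (V := u) (z := y) differentiableAt_id
          (hu.differentiable one_ne_zero y)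
        simp only [smul_eq_mul] at this
        rw [this, norm_mul, norm_mul, mul_left_comm]
        exact mul_le_mul_of_nonneg_left (hdu y hy) (norm_nonneg _)) hdv (fun _ => 0)
      (fun a b _ => Subsingleton.elim (α := Fin 1) a b) (fun _ => zero_mul _)
    refine ⟨?_, h2⟩
    refine Continuous.ext_on (dense_compl_singleton (0 : ℂ)) hu.continuous continuous_const
      fun y hy => ?_
    exact (mul_eq_zero.1 (congrFun h1 y)).resolve_left hy

end Pool.Agent.Lib.MP_1c0d65_gt.D.Lin
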